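import Pool.Agent.H565R2.NS.Defs

/-!
# Content of `B` (task CNT)
-/

set_option autoImplicit false

namespace Pool.Agent.H565R2.NS

/-- CNT the form `B` modulo a prime not dividing `2 x q`. -/
theorem content {F : Type*} [Field F] (h2 : (2 : F) ≠ 0) (d : Dat F) (hq : d.q ≠ 0)
    (hM : (25 * d.X - 16 * d.e ^ 2) * (d.w1 ^ 2 + d.w2 ^ 2) ≠ 0) :
    ¬ (d.b11 = 0 ∧ d.b12 = 0 ∧ d.b22 = 0) := by
  rintro ⟨h11, h12, h22⟩
  have h8 : (8 : F) ≠ 0 := by
    have : (8 : F) = 2 ^ 3 := by norm_num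
    rw [this]
    exact pow_ne_zero _ h2
  have h16 : (16 : F) ≠ 0 := by
    have : (16 : F) = 2 ^ 4 := by norm_num
    rw [this]
    exact pow_ne_zero _ h2
  have hrho : d.rho = 0 := by
    unfold Dat.b12 at h12
    exact (mul_eq_zero.1 h12).resolve_left h8
  have hri := d.rho_iota
  unfold Dat.b11 at h11
  unfold Dat.b22 at h22
  unfold Dat.q at hq
  unfold Dat.X at hM
  set N1 := d.h0 ^ 2 + d.h1 ^ 2 with hN1
  set N2 := d.h2 ^ 2 + d.h3 ^ 2 with hN2
  set W := d.w1 ^ 2 + d.w2 ^ 2 with hW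
  have e1 : N1 = -9 * N2 := by linear_combination h11
  have hN2' : N2 ≠ 0 := by
    intro h
    apply hq
    have : d.h0 ^ 2 + d.h1 ^ 2 + d.h2 ^ 2 + d.h3 ^ 2 = N1 + N2 := by rw [hN1, hN2]; ring
    rw [this, e1, h]
    ring
  rw [hrho] at hri
  have e2 : d.e * d.iota = 5 * N2 * W := by
    have : (16 : F) * (d.e * d.iota - 5 * N2 * W) = 0 := by
      rw [e1] at h22
      linear_combination h22
    have := (mul_eq_zero.1 this).resolve_left h16
    linear_combination this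
  have e3 : d.iota ^ 2 = -9 * N2 ^ 2 * W := by
    rw [e1] at hri
    linear_combination hri
  have e4 : N2 ^ 2 * ((25 * (d.e ^ 2 + d.w1 ^ 2 + d.w2 ^ 2) - 16 * d.e ^ 2) * W) = 0 := by
    have h5 : (d.e * d.iota) ^ 2 = (5 * N2 * W) ^ 2 := by rw [e2]
    rw [mul_pow, e3] at h5
    have h6 : d.w1 ^ 2 + d.w2 ^ 2 = W := hW.symm
    have h7 : d.e ^ 2 + d.w1 ^ 2 + d.w2 ^ 2 = d.e ^ 2 + W := by rw [hW]; ring
    rw [h7]
    linear_combination -h5
  rcases mul_eq_zero.1 e4 with h | h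
  · exact hN2' (pow_eq_zero_iff two_ne_zero |>.1 h)
  · exact hM h

end Pool.Agent.H565R2.NS
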