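import Pool.Agent.H565R2.NS.Defs

/-!
# LEG: Legendre's lemma by the pigeonhole principle
-/

set_option autoImplicit false

namespace Pool.Agent.H565R2.NS

namespace Leg

theorem pigeon (D m : ℕ) (hD : 0 < D) (hm : 0 < m) (r s : ℤ) :
    ∃ X Y Z : ℤ, ¬ (X = 0 ∧ Y = 0 ∧ Z = 0) ∧ X ^ 2 ≤ 2 * D * m ∧ Y ^ 2 ≤ 2 * m ∧
      Z ^ 2 < 4 * D ∧
      (D : ℤ) ∣ X - s * Z ∧ (m : ℤ) ∣ X - r * Y ∧ (2 : ℤ) ∣ Y ∧ (2 : ℤ) ∣ X - Z := by
  obtain ⟨a, ha⟩ : ∃ a, a = Nat.sqrt (2 * D * m) := ⟨_, rfl⟩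
  obtain ⟨b, hb⟩ : ∃ b, b = Nat.sqrt (2 * m) := ⟨_, rfl⟩
  obtain ⟨c, hc⟩ : ∃ c, c = Nat.sqrt (4 * D - 1) := ⟨_, rfl⟩
  have ha1 : 2 * D * m < (a + 1) * (a + 1) := by rw [ha]; exact Nat.lt_succ_sqrt _
  have ha2 : a * a ≤ 2 * D * m := by rw [ha]; exact Nat.sqrt_le _
  have hb1 : 2 * m < (b + 1) * (b + 1) := by rw [hb]; exact Nat.lt_succ_sqrt _
  have hb2 : b * b ≤ 2 * m := by rw [hb]; exact Nat.sqrt_le _
  have hc1 : 4 * D ≤ (c + 1) * (c + 1) := by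
    have : 4 * D - 1 < (c + 1) * (c + 1) := by rw [hc]; exact Nat.lt_succ_sqrt _
    omega
  have hc2 : c * c < 4 * D := by
    have : c * c ≤ 4 * D - 1 := by rw [hc]; exact Nat.sqrt_le _
    omega
  have : NeZero D := ⟨hD.ne'⟩
  have : NeZero m := ⟨hm.ne'⟩
  have hlt : 4 * D * m < (a + 1) * (b + 1) * (c + 1) := by
    have h1 : (4 * D * m) ^ 2 < ((a + 1) * (b + 1) * (c + 1)) ^ 2 := by
      calc (4 * D * m) ^ 2 = (2 * D * m) * (2 * m) * (4 * D) := by ring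
        _ < ((a + 1) * (a + 1)) * ((b + 1) * (b + 1)) * (4 * D) :=
            Nat.mul_lt_mul_of_pos_right (Nat.mul_lt_mul'' ha1 hb1) (by omega)
        _ ≤ ((a + 1) * (a + 1)) * ((b + 1) * (b + 1)) * ((c + 1) * (c + 1)) :=
            Nat.mul_le_mul_left _ hc1
        _ = ((a + 1) * (b + 1) * (c + 1)) ^ 2 := by ring
    exact lt_of_pow_lt_pow_left₀ 2 (Nat.zero_le _) h1
  have hcard : Fintype.card (ZMod D × ZMod m × ZMod 2 × ZMod 2) <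
      Fintype.card (Fin (a + 1) × Fin (b + 1) × Fin (c + 1)) := by
    simp only [Fintype.card_prod, ZMod.card, Fintype.card_fin]
    calc D * (m * (2 * 2)) = 4 * D * m := by ring
      _ < (a + 1) * (b + 1) * (c + 1) := hlt
      _ = (a + 1) * ((b + 1) * (c + 1)) := by ring
  obtain ⟨v, w, hne, hvw⟩ := Fintype.exists_ne_map_eq_of_card_lt
    (fun v : Fin (a + 1) × Fin (b + 1) × Fin (c + 1) =>
      (((((v.1 : ℕ) : ℤ) - s * ((v.2.2 : ℕ) : ℤ) : ℤ) : ZMod D),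
       ((((v.1 : ℕ) : ℤ) - r * ((v.2.1 : ℕ) : ℤ) : ℤ) : ZMod m),
       ((((v.2.1 : ℕ) : ℤ)) : ZMod 2),
       ((((v.1 : ℕ) : ℤ) - ((v.2.2 : ℕ) : ℤ) : ℤ) : ZMod 2))) hcard
  obtain ⟨v1, v2, v3⟩ := v
  obtain ⟨w1, w2, w3⟩ := w
  simp only [Prod.mk.injEq] at hvw
  obtain ⟨e1, e2, e3, e4⟩ := hvw
  rw [ZMod.intCast_eq_intCast_iff_dvd_sub] at e1 e2 e3 e4
  rw [Nat.cast_ofNat] at e3 e4
  have hsq : ∀ (p q k : ℕ), p < k + 1 → q < k + 1 → ((q : ℤ) - (p : ℤ)) ^ 2 ≤ (k : ℤ) * k := by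
    intro p q k hp hq
    have h1 : -(k : ℤ) ≤ (q : ℤ) - (p : ℤ) := by omega
    have h2 : (q : ℤ) - (p : ℤ) ≤ k := by omega
    nlinarith
  refine ⟨(w1 : ℕ) - (v1 : ℕ), (w2 : ℕ) - (v2 : ℕ), (w3 : ℕ) - (v3 : ℕ), ?_, ?_, ?_, ?_, ?_, ?_,
    ?_, ?_⟩
  · rintro ⟨h1, h2, h3⟩
    apply hne
    have g1 : v1 = w1 := Fin.ext (by omega)
    have g2 : v2 = w2 := Fin.ext (by omega)
    have g3 : v3 = w3 := Fin.ext (by omega)
    rw [g1, g2, g3]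
  · exact (hsq _ _ a v1.2 w1.2).trans (by exact_mod_cast ha2)
  · exact (hsq _ _ b v2.2 w2.2).trans (by exact_mod_cast hb2)
  · exact lt_of_le_of_lt (hsq _ _ c v3.2 w3.2) (by exact_mod_cast hc2)
  · convert e1 using 1
    ring
  · convert e2 using 1
    ring
  · exact e3
  · convert e4 using 1
    ring

end Leg

/-- LEG (file `Leg.lean`) Legendre's lemma by the pigeonhole principle. -/
theorem legendre {D m : ℕ} (hD : D % 8 = 1) (hm : m % 8 = 1) (hc : Nat.Coprime D m)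
    (h1 : ∃ r : ℤ, (m : ℤ) ∣ r ^ 2 + D) (h2 : ∃ s : ℤ, (D : ℤ) ∣ s ^ 2 - m) :
    ∃ X Y Z : ℤ, Z ≠ 0 ∧ X ^ 2 + D * Y ^ 2 = m * Z ^ 2 := by
  obtain ⟨r, hr⟩ := h1
  obtain ⟨s, hs⟩ := h2
  have hD0 : 0 < D := by omega
  have hm0 : 0 < m := by omega
  obtain ⟨X, Y, Z, hne, hX, hY, hZ, d1, d2, d3, d4⟩ := Leg.pigeon D m hD0 hm0 r s
  have hDz : (0 : ℤ) < D := by exact_mod_cast hD0
  have hmz : (0 : ℤ) < m := by exact_mod_cast hm0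
  -- divisibility by `D`
  have f1 : (D : ℤ) ∣ X ^ 2 + D * Y ^ 2 - m * Z ^ 2 := by
    obtain ⟨u, hu⟩ := d1
    obtain ⟨v, hv⟩ := hs
    refine ⟨u * (X + s * Z) + Y ^ 2 + v * Z ^ 2, ?_⟩
    linear_combination (X + s * Z) * hu + Z ^ 2 * hv
  have f2 : (m : ℤ) ∣ X ^ 2 + D * Y ^ 2 - m * Z ^ 2 := by
    obtain ⟨u, hu⟩ := d2
    obtain ⟨v, hv⟩ := hr
    refine ⟨u * (X + r * Y) + v * Y ^ 2 - Z ^ 2, ?_⟩
    linear_combination (X + r * Y) * hu + Y ^ 2 * hv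
  have f3 : (4 : ℤ) ∣ X ^ 2 + D * Y ^ 2 - m * Z ^ 2 := by
    obtain ⟨u, hu⟩ := d3
    obtain ⟨v, hv⟩ := d4
    obtain ⟨k, hk⟩ : ∃ k : ℤ, (m : ℤ) = 8 * k + 1 := ⟨(m : ℤ) / 8, by omega⟩
    have hX : X = Z + 2 * v := by linarith
    refine ⟨v * Z + v ^ 2 + D * u ^ 2 - 2 * k * Z ^ 2, ?_⟩
    rw [hX, hu, hk]
    ring
  have hDm : ((D : ℤ) * m) ∣ X ^ 2 + D * Y ^ 2 - m * Z ^ 2 :=
    IsCoprime.mul_dvd (Nat.isCoprime_iff_coprime.2 hc) f1 f2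
  have hodd : IsCoprime (4 : ℤ) ((D : ℤ) * m) := by
    have h : Nat.Coprime 4 (D * m) := by
      have ho : Odd (D * m) := by
        rw [Nat.odd_mul]
        constructor <;> rw [Nat.odd_iff] <;> omega
      have h2 : Nat.Coprime 2 (D * m) := (Nat.coprime_two_left).2 ho
      have : Nat.Coprime (2 ^ 2) (D * m) := Nat.Coprime.pow_left 2 h2
      simpa using this
    have := Nat.isCoprime_iff_coprime.2 h
    push_cast at this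
    exact this
  obtain ⟨k, hk⟩ : (4 * ((D : ℤ) * m)) ∣ X ^ 2 + D * Y ^ 2 - m * Z ^ 2 :=
    IsCoprime.mul_dvd hodd f3 hDm
  have hpos : (0 : ℤ) < D * m := mul_pos hDz hmz
  have hDY : (D : ℤ) * Y ^ 2 ≤ D * (2 * m) := mul_le_mul_of_nonneg_left hY hDz.le
  have hmZ : (m : ℤ) * Z ^ 2 < m * (4 * D) := mul_lt_mul_of_pos_left hZ hmz
  have hmZ0 : 0 ≤ (m : ℤ) * Z ^ 2 := by positivity
  have hX0 := sq_nonneg X
  have hDY0 : 0 ≤ (D : ℤ) * Y ^ 2 := by positivity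
  have hk0 : k = 0 := by
    have hk1 : -1 < k := by
      by_contra hcon
      have : k ≤ -1 := by omega
      nlinarith
    have hk2 : k ≤ 1 := by
      by_contra hcon
      have : 2 ≤ k := by omega
      nlinarith
    by_contra hne0
    have hk3 : k = 1 := by omega
    rw [hk3] at hk
    have hYe : (D : ℤ) * Y ^ 2 = D * (2 * m) := by nlinarith
    have hYe2 : Y ^ 2 = 2 * m := mul_left_cancel₀ hDz.ne' hYe
    obtain ⟨u, hu⟩ := d3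
    rw [hu] at hYe2
    have : (2 : ℤ) * u ^ 2 = m := by nlinarith
    omega
  rw [hk0, mul_zero] at hk
  refine ⟨X, Y, Z, ?_, by linarith⟩
  intro hZ0
  rw [hZ0] at hk
  have hX2 : X ^ 2 = 0 := by nlinarith
  have hY2 : (D : ℤ) * Y ^ 2 = 0 := by nlinarith
  have hXz : X = 0 := by simpa using hX2
  have hYz : Y = 0 := by
    rcases mul_eq_zero.1 hY2 with h | h
    · exact absurd h hDz.ne'
    · simpa using h
  exact hne ⟨hXz, hYz, hZ0⟩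

end Pool.Agent.H565R2.NS
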