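import Pool.Agent.H565R2.NS.Defs
import Pool.Agent.H565R2.NS.Leg

set_option autoImplicit false

namespace Pool.Agent.H565R2.NS

/-- CO1 (file `Co1.lean`) the first conic `B(f) = t Z²`. -/
theorem conic_one {b11 b12 b22 f0 f1 : ℤ} {c t D : ℕ} (hD : b11 * b22 - b12 ^ 2 = D)
    (hc : b11 * f0 ^ 2 + 2 * b12 * f0 * f1 + b22 * f1 ^ 2 = c) (hD8 : D % 8 = 1)
    (hc8 : c % 8 = 3) (ht : t.Prime) (ht8 : t % 8 = 3) (hct : c < t) (hDt : D < t)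
    (hcD : Nat.Coprime c D) (hDc : ∃ s : ℤ, (c : ℤ) ∣ s ^ 2 + D)
    (htc : (D : ℤ) ∣ t - c) (htD : ∃ s : ℤ, (t : ℤ) ∣ s ^ 2 + D) :
    ∃ g0 g1 Z : ℤ, Z ≠ 0 ∧ b11 * g0 ^ 2 + 2 * b12 * g0 * g1 + b22 * g1 ^ 2 = t * Z ^ 2 := by
  have hD0 : 0 < D := by omega
  have hc0 : 0 < c := by omega
  have hm8 : (c * t) % 8 = 1 := by
    rw [Nat.mul_mod, hc8, ht8]
  have htDc : Nat.Coprime t D := (Nat.Prime.coprime_iff_not_dvd ht).2 fun h =>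
    absurd (Nat.le_of_dvd hD0 h) (not_le.2 hDt)
  have htcc : Nat.Coprime t c := (Nat.Prime.coprime_iff_not_dvd ht).2 fun h =>
    absurd (Nat.le_of_dvd hc0 h) (not_le.2 hct)
  have hcop : Nat.Coprime D (c * t) := Nat.Coprime.mul_right hcD.symm htDc.symm
  have h1 : ∃ r : ℤ, ((c * t : ℕ) : ℤ) ∣ r ^ 2 + D := by
    obtain ⟨s1, hs1⟩ := hDc
    obtain ⟨s2, hs2⟩ := htD
    have hco : IsCoprime (c : ℤ) (t : ℤ) := Nat.isCoprime_iff_coprime.2 htcc.symm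
    obtain ⟨u, v, huv⟩ := hco
    refine ⟨s1 * (v * t) + s2 * (u * c), ?_⟩
    have hco : IsCoprime (c : ℤ) (t : ℤ) := ⟨u, v, huv⟩
    push_cast
    apply hco.mul_dvd
    · have e1 : (s1 * (v * t) + s2 * (u * c)) ^ 2 + D = (s1 ^ 2 + D) +
          c * ((u * (s2 - s1)) * ((s1 * (v * t) + s2 * (u * c)) + s1)) := by
        linear_combination ((s1 * (v * t) + s2 * (u * c)) + s1) * s1 * huv
      rw [e1]
      exact dvd_add hs1 (Dvd.intro _ rfl)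
    · have e1 : (s1 * (v * t) + s2 * (u * c)) ^ 2 + D = (s2 ^ 2 + D) +
          t * ((v * (s1 - s2)) * ((s1 * (v * t) + s2 * (u * c)) + s2)) := by
        linear_combination ((s1 * (v * t) + s2 * (u * c)) + s2) * s2 * huv
      rw [e1]
      exact dvd_add hs2 (Dvd.intro _ rfl)
  have h2 : ∃ s : ℤ, (D : ℤ) ∣ s ^ 2 - ((c * t : ℕ) : ℤ) := by
    refine ⟨c, ?_⟩
    push_cast
    have e1 : (c : ℤ) ^ 2 - c * t = (t - c) * (-c) := by ring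
    rw [e1]
    exact dvd_mul_of_dvd_left htc _
  obtain ⟨X, Y, Z, hZ, hXY⟩ := legendre hD8 hm8 hcop h1 h2
  refine ⟨X * f0 - Y * (b12 * f0 + b22 * f1), X * f1 + Y * (b11 * f0 + b12 * f1), c * Z, ?_, ?_⟩
  · have : (c : ℤ) ≠ 0 := by exact_mod_cast hc0.ne'
    exact mul_ne_zero this hZ
  · push_cast at hXY
    have e1 : b11 * (X * f0 - Y * (b12 * f0 + b22 * f1)) ^ 2 +
        2 * b12 * (X * f0 - Y * (b12 * f0 + b22 * f1)) * (X * f1 + Y * (b11 * f0 + b12 * f1)) +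
        b22 * (X * f1 + Y * (b11 * f0 + b12 * f1)) ^ 2 =
        (b11 * f0 ^ 2 + 2 * b12 * f0 * f1 + b22 * f1 ^ 2) *
          (X ^ 2 + (b11 * b22 - b12 ^ 2) * Y ^ 2) := by ring
    rw [e1, hc, hD, hXY]
    ring

end Pool.Agent.H565R2.NS
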