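import Pool.Agent.H565R2.NS.Leg

/-!
# The second conic (task CO2, helper541)
-/

set_option autoImplicit false

namespace Pool.Agent.H565R2.NS

namespace Co2

/-- Chinese remainder theorem for square roots -/
theorem crt_sq {a b : ℕ} (hab : Nat.Coprime a b) {n : ℤ} (ha : ∃ s : ℤ, (a : ℤ) ∣ s ^ 2 + n)
    (hb : ∃ s : ℤ, (b : ℤ) ∣ s ^ 2 + n) : ∃ s : ℤ, ((a * b : ℕ) : ℤ) ∣ s ^ 2 + n := by
  obtain ⟨s1, h1⟩ := ha
  obtain ⟨s2, h2⟩ := hb
  have hc : IsCoprime (a : ℤ) (b : ℤ) := Nat.isCoprime_iff_coprime.2 hab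
  obtain ⟨u, v, huv⟩ := hc
  refine ⟨s1 * (v * b) + s2 * (u * a), ?_⟩
  have e1 : (a : ℤ) ∣ (s1 * (v * b) + s2 * (u * a)) ^ 2 + n := by
    have : (s1 * (v * b) + s2 * (u * a)) ^ 2 + n = (s1 ^ 2 + n) +
        a * ((s2 - s1) * u * (2 * s1 + (s2 - s1) * u * a)) := by
      have hv : v * b = 1 - u * a := by linarith
      rw [hv]
      ring
    rw [this]
    exact dvd_add h1 (dvd_mul_right _ _)
  have e2 : (b : ℤ) ∣ (s1 * (v * b) + s2 * (u * a)) ^ 2 + n := by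
    have : (s1 * (v * b) + s2 * (u * a)) ^ 2 + n = (s2 ^ 2 + n) +
        b * ((s1 - s2) * v * (2 * s2 + (s1 - s2) * v * b)) := by
      have hu : u * a = 1 - v * b := by linarith
      rw [hu]
      ring
    rw [this]
    exact dvd_add h2 (dvd_mul_right _ _)
  push_cast
  exact IsCoprime.mul_dvd (Nat.isCoprime_iff_coprime.2 hab) e1 e2

/-- square roots modulo a squarefree number -/
theorem sqf_sq (x : ℕ) (hx : Squarefree x) (n : ℤ)
    (h : ∀ p : ℕ, p.Prime → p ∣ x → ∃ s : ℤ, (p : ℤ) ∣ s ^ 2 + n) :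
    ∃ s : ℤ, (x : ℤ) ∣ s ^ 2 + n := by
  induction x using Nat.strong_induction_on with
  | _ x ih =>
    by_cases h1 : x = 1
    · subst h1
      exact ⟨0, by simp⟩
    · have hp := Nat.minFac_prime h1
      obtain ⟨y, hy⟩ := Nat.minFac_dvd x
      set p := x.minFac with hpdef
      rw [hy] at hx
      obtain ⟨hc, _, hsy⟩ := Nat.squarefree_mul_iff.1 hx
      have hy0 : 0 < y := by
        rcases Nat.eq_zero_or_pos y with h0 | h0
        · subst h0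
          exact absurd hsy not_squarefree_zero
        · exact h0
      have hlt : y < x := by
        rw [hy]
        exact lt_mul_of_one_lt_left hy0 hp.one_lt
      obtain ⟨s, hs⟩ := ih y hlt hsy (fun r hr hry => h r hr (by
        rw [hy]
        exact dvd_mul_of_dvd_right hry _))
      have := crt_sq hc (h p hp (Nat.minFac_dvd x)) ⟨s, hs⟩
      rw [← hy] at this
      exact this

theorem coprime_of_lt {a p : ℕ} (ha : 0 < a) (hap : a < p) (hp : p.Prime) : Nat.Coprime a p :=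
  ((Nat.Prime.coprime_iff_not_dvd hp).2 (fun h => absurd (Nat.le_of_dvd ha h) (by omega))).symm

end Co2

open Co2

/-- CO2 (file `Co2.lean`) the second conic: a vector of norm `q t` up to squares orthogonal
to `ω`. -/
theorem conic_two {e w1 w2 c1 c2 c3 : ℤ} {x γ q t c : ℕ} (hx : Squarefree x) (hx8 : x % 8 = 1)
    (hX : e ^ 2 + w1 ^ 2 + w2 ^ 2 = x) (horth : e * c1 + w1 * c2 + w2 * c3 = 0)
    (hγ : c1 ^ 2 + c2 ^ 2 + c3 ^ 2 = γ) (hγ8 : γ % 8 = 1) (hγx : Nat.Coprime γ x)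
    (h1 : ∃ s : ℤ, (γ : ℤ) ∣ s ^ 2 + x) (h2 : ∃ s : ℤ, (x : ℤ) ∣ s ^ 2 + γ)
    (hq : q.Prime) (hq8 : q % 8 = 3) (hqγ : γ < q) (hqx : x < q) (ht : t.Prime)
    (ht8 : t % 8 = 3) (htq : q < t) (hqs : ∃ s : ℤ, (q : ℤ) ∣ s ^ 2 + x)
    (hts : ∃ s : ℤ, (t : ℤ) ∣ s ^ 2 + x) (htc : (x : ℤ) ∣ t - c)
    (hl : ∀ p : ℕ, p.Prime → p ∣ x → ∃ s : ℤ, (p : ℤ) ∣ s ^ 2 + q * c) :
    ∃ a1 a2 a3 Z : ℤ, Z ≠ 0 ∧ e * a1 + w1 * a2 + w2 * a3 = 0 ∧
      a1 ^ 2 + a2 ^ 2 + a3 ^ 2 = q * t * Z ^ 2 := by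
  have hγ0 : 0 < γ := by omega
  have hx0 : 0 < x := by omega
  have hq0 : 0 < q := hq.pos
  have hm8 : (γ * q * t) % 8 = 1 := by
    rw [Nat.mul_mod, Nat.mul_mod γ q, hγ8, hq8, ht8]
  have cγq : Nat.Coprime γ q := coprime_of_lt hγ0 hqγ hq
  have cγt : Nat.Coprime γ t := coprime_of_lt hγ0 (hqγ.trans htq) ht
  have cqt : Nat.Coprime q t := coprime_of_lt hq0 htq ht
  have cxq : Nat.Coprime x q := coprime_of_lt hx0 hqx hq
  have cxt : Nat.Coprime x t := coprime_of_lt hx0 (hqx.trans htq) ht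
  have cxm : Nat.Coprime x (γ * q * t) :=
    Nat.Coprime.mul_right (Nat.Coprime.mul_right hγx.symm cxq) cxt
  have hr : ∃ r : ℤ, ((γ * q * t : ℕ) : ℤ) ∣ r ^ 2 + x :=
    crt_sq (Nat.Coprime.mul_left cγt cqt) (crt_sq cγq h1 hqs) hts
  have hs : ∃ s : ℤ, (x : ℤ) ∣ s ^ 2 - (γ * q * t : ℕ) := by
    obtain ⟨s2, hs2⟩ := h2
    have := sqf_sq x hx (-((γ * q * t : ℕ) : ℤ)) (by
      intro p hp hpx
      obtain ⟨s1, hs1⟩ := hl p hp hpx
      have hpx' : (p : ℤ) ∣ x := by exact_mod_cast hpx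
      have d1 : (p : ℤ) ∣ s2 ^ 2 + γ := hpx'.trans hs2
      have d2 : (p : ℤ) ∣ t - c := hpx'.trans htc
      refine ⟨s1 * s2, ?_⟩
      have e1 : (s1 * s2) ^ 2 + (-((γ * q * t : ℕ) : ℤ)) =
          s2 ^ 2 * (s1 ^ 2 + q * c) - q * c * (s2 ^ 2 + γ) - γ * q * (t - c) := by
        push_cast
        ring
      rw [e1]
      exact dvd_sub (dvd_sub (dvd_mul_of_dvd_right hs1 _) (dvd_mul_of_dvd_right d1 _))
        (dvd_mul_of_dvd_right d2 _))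
    simpa only [sub_eq_add_neg] using this
  obtain ⟨X, Y, Z, hZ, hXYZ⟩ := legendre hx8 hm8 cxm hr hs
  refine ⟨X * c1 + Y * (w1 * c3 - w2 * c2), X * c2 + Y * (w2 * c1 - e * c3),
    X * c3 + Y * (e * c2 - w1 * c1), γ * Z, ?_, ?_, ?_⟩
  · exact mul_ne_zero (by exact_mod_cast hγ0.ne') hZ
  · have : e * (X * c1 + Y * (w1 * c3 - w2 * c2)) + w1 * (X * c2 + Y * (w2 * c1 - e * c3)) +
        w2 * (X * c3 + Y * (e * c2 - w1 * c1)) = X * (e * c1 + w1 * c2 + w2 * c3) := by ring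
    rw [this, horth, mul_zero]
  · have key : (X * c1 + Y * (w1 * c3 - w2 * c2)) ^ 2 + (X * c2 + Y * (w2 * c1 - e * c3)) ^ 2 +
        (X * c3 + Y * (e * c2 - w1 * c1)) ^ 2 = X ^ 2 * (c1 ^ 2 + c2 ^ 2 + c3 ^ 2) +
        Y ^ 2 * ((e ^ 2 + w1 ^ 2 + w2 ^ 2) * (c1 ^ 2 + c2 ^ 2 + c3 ^ 2) -
          (e * c1 + w1 * c2 + w2 * c3) ^ 2) := by ring
    rw [key, hX, hγ, horth]
    push_cast at hXYZ
    linear_combination (γ : ℤ) * hXYZ

end Pool.Agent.H565R2.NS
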