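import Mathlib

/-!
# Nonsquares of `ℚ` in the language `(0, 1, +, squares)`: definitions

`S2`, `S3`: sums of two, three rational squares.  `W1 x l`, `W2 x l`: the two conditions of the
formula.  `Dat`: seven coordinates `e w1 w2` (a pure quaternion `ω` of norm `X`) and
`h0 h1 h2 h3` (a quaternion `h` of norm `q`); `z0 .. z3` are the coordinates of `h (f0 + f1 ω)`;
`B f0 f1 = z0² + z1² + 9 (z2² + z3²)`, a binary quadratic form of matrix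
`[b11, b12; b12, b22]` and determinant `D`.
-/

set_option autoImplicit false

namespace Pool.Agent.H565R2.NS

/-- sums of two rational squares -/
def S2 (n : ℚ) : Prop := ∃ a b : ℚ, n = a ^ 2 + b ^ 2

/-- sums of three rational squares -/
def S3 (n : ℚ) : Prop := ∃ a b c : ℚ, n = a ^ 2 + b ^ 2 + c ^ 2

/-- first condition -/
def W1 (x l : ℚ) : Prop :=
  S2 (x - l ^ 2) ∧ S2 (x - 4 * l ^ 2) ∧ S3 ((x - l ^ 2) / 7) ∧ S3 ((x - 4 * l ^ 2) / 3)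

/-- second condition -/
def W2 (x l : ℚ) : Prop :=
  S2 (x - l ^ 2) ∧ S2 (x - 4 * l ^ 2) ∧ S3 ((x - 4 * l ^ 2) / 7) ∧ S3 ((x + l ^ 2) / 6)

/-- a pure quaternion `(0, e, w1, w2)` and a quaternion `(h0, h1, h2, h3)` -/
structure Dat (R : Type*) where
  e : R
  w1 : R
  w2 : R
  h0 : R
  h1 : R
  h2 : R
  h3 : R

namespace Dat

variable {R : Type*} [CommRing R] (d : Dat R)

/-- norm of `ω` -/
def X : R := d.e ^ 2 + d.w1 ^ 2 + d.w2 ^ 2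

/-- norm of `h` -/
def q : R := d.h0 ^ 2 + d.h1 ^ 2 + d.h2 ^ 2 + d.h3 ^ 2

/-- coordinates of `h (f0 + f1 ω)` -/
def z0 (f0 f1 : R) : R := f0 * d.h0 + f1 * (-d.h1 * d.e - d.h2 * d.w1 - d.h3 * d.w2)
/-- coordinates of `h (f0 + f1 ω)` -/
def z1 (f0 f1 : R) : R := f0 * d.h1 + f1 * (d.h0 * d.e + d.h2 * d.w2 - d.h3 * d.w1)
/-- coordinates of `h (f0 + f1 ω)` -/
def z2 (f0 f1 : R) : R := f0 * d.h2 + f1 * (d.h0 * d.w1 - d.h1 * d.w2 + d.h3 * d.e)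
/-- coordinates of `h (f0 + f1 ω)` -/
def z3 (f0 f1 : R) : R := f0 * d.h3 + f1 * (d.h0 * d.w2 + d.h1 * d.w1 - d.h2 * d.e)

/-- `rho` -/
def rho : R := (d.h0 * d.h2 + d.h1 * d.h3) * d.w1 + (d.h0 * d.h3 - d.h1 * d.h2) * d.w2
/-- `iota` -/
def iota : R := (d.h0 * d.h3 - d.h1 * d.h2) * d.w1 - (d.h0 * d.h2 + d.h1 * d.h3) * d.w2

/-- matrix of `B` -/
def b11 : R := d.h0 ^ 2 + d.h1 ^ 2 + 9 * (d.h2 ^ 2 + d.h3 ^ 2)
/-- matrix of `B` -/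
def b12 : R := 8 * d.rho
/-- matrix of `B` -/
def b22 : R := (d.h0 ^ 2 + d.h1 ^ 2) * (d.e ^ 2 + 9 * (d.w1 ^ 2 + d.w2 ^ 2))
  + (d.h2 ^ 2 + d.h3 ^ 2) * (9 * d.e ^ 2 + (d.w1 ^ 2 + d.w2 ^ 2)) + 16 * d.e * d.iota

/-- the form `B` -/
def B (f0 f1 : R) : R := d.b11 * f0 ^ 2 + 2 * d.b12 * f0 * f1 + d.b22 * f1 ^ 2

/-- the determinant of `B` -/
def D : R := d.b11 * d.b22 - d.b12 ^ 2

theorem norm_z (f0 f1 : R) :
    d.z0 f0 f1 ^ 2 + d.z1 f0 f1 ^ 2 + d.z2 f0 f1 ^ 2 + d.z3 f0 f1 ^ 2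
      = d.q * (f0 ^ 2 + d.X * f1 ^ 2) := by
  simp only [z0, z1, z2, z3, q, X]; ring

theorem B_z (f0 f1 : R) :
    d.z0 f0 f1 ^ 2 + d.z1 f0 f1 ^ 2 + 9 * (d.z2 f0 f1 ^ 2 + d.z3 f0 f1 ^ 2) = d.B f0 f1 := by
  simp only [z0, z1, z2, z3, B, b11, b12, b22, rho, iota]; ring

theorem rho_iota : d.rho ^ 2 + d.iota ^ 2
    = (d.h0 ^ 2 + d.h1 ^ 2) * (d.h2 ^ 2 + d.h3 ^ 2) * (d.w1 ^ 2 + d.w2 ^ 2) := by
  simp only [rho, iota]; ring

theorem D_eq : d.D = (8 * d.iota + d.e * d.b11) ^ 2 + 9 * d.q ^ 2 * (d.w1 ^ 2 + d.w2 ^ 2) := by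
  simp only [D, b11, b12, b22, rho, iota, q]; ring

/-- reduction of the coordinates -/
def map {S : Type*} [CommRing S] (φ : R →+* S) : Dat S :=
  ⟨φ d.e, φ d.w1, φ d.w2, φ d.h0, φ d.h1, φ d.h2, φ d.h3⟩

theorem map_X {S : Type*} [CommRing S] (φ : R →+* S) : (d.map φ).X = φ d.X := by
  simp only [X, map, map_add, map_pow]

theorem map_q {S : Type*} [CommRing S] (φ : R →+* S) : (d.map φ).q = φ d.q := by
  simp only [q, map, map_add, map_pow]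

theorem map_B {S : Type*} [CommRing S] (φ : R →+* S) (f0 f1 : R) :
    (d.map φ).B (φ f0) (φ f1) = φ (d.B f0 f1) := by
  simp only [B, b11, b12, b22, rho, iota, map, map_add, map_pow, map_mul, map_sub, map_ofNat]

end Dat

end Pool.Agent.H565R2.NS
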