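import Pool.Agent.H565R2.NS.Defs

/-!
# FST: choice of a good value of a binary quadratic form
-/

set_option autoImplicit false

namespace Pool.Agent.H565R2.NS

namespace Fst

/-- Chinese remainder theorem for odd primes and `8` -/
theorem crt (S : Finset ℕ) (hS : ∀ p ∈ S, p.Prime ∧ p ≠ 2) (f : ℕ → ℤ) (a : ℤ) :
    ∃ F : ℤ, (8 : ℤ) ∣ F - a ∧ ∀ p ∈ S, (p : ℤ) ∣ F - f p := by
  classical
  induction S using Finset.induction_on with
  | empty => exact ⟨a, by simp, by simp⟩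
  | insert p S hp ih =>
    obtain ⟨F, h1, h2⟩ := ih (fun q hq => hS q (Finset.mem_insert_of_mem hq))
    obtain ⟨hpp, hp2⟩ := hS p (Finset.mem_insert_self p S)
    have hcop : IsCoprime ((8 * ∏ q ∈ S, q : ℕ) : ℤ) (p : ℤ) := by
      rw [Nat.isCoprime_iff_coprime]
      apply Nat.Coprime.mul_left
      · rw [show (8 : ℕ) = 2 ^ 3 by norm_num]
        apply Nat.Coprime.pow_left
        exact (Nat.coprime_primes Nat.prime_two hpp).mpr (fun h => hp2 h.symm)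
      · apply Nat.Coprime.prod_left
        intro q hq
        have hqp := (hS q (Finset.mem_insert_of_mem hq)).1
        exact (Nat.coprime_primes hqp hpp).mpr (fun h => hp (h ▸ hq))
    obtain ⟨u, v, huv⟩ := hcop
    have hN8 : (8 : ℤ) ∣ ((8 * ∏ q ∈ S, q : ℕ) : ℤ) := by
      rw [Nat.cast_mul]
      exact Dvd.intro _ rfl
    have hNq : ∀ q ∈ S, (q : ℤ) ∣ ((8 * ∏ q ∈ S, q : ℕ) : ℤ) := by
      intro q hq
      rw [Int.natCast_dvd_natCast]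
      exact Dvd.dvd.mul_left (Finset.dvd_prod_of_mem _ hq) 8
    set N : ℤ := ((8 * ∏ q ∈ S, q : ℕ) : ℤ) with hN
    have key : ∀ z : ℤ, z ∣ N → ∀ w : ℤ, z ∣ F - w → z ∣ F + u * N * (f p - F) - w := by
      intro z hz w hw
      rw [show F + u * N * (f p - F) - w = (F - w) + N * (u * (f p - F)) by ring]
      exact dvd_add hw (Dvd.dvd.mul_right hz _)
    refine ⟨F + u * N * (f p - F), key 8 hN8 a h1, ?_⟩
    intro q hq
    rcases Finset.mem_insert.mp hq with rfl | hq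
    · refine ⟨-(v * (f q - F)), ?_⟩
      linear_combination (f q - F) * huv
    · exact key q (hNq q hq) _ (h2 q hq)

/-- values of the form are compatible with congruences -/
theorem form_congr {b11 b12 b22 z F0 F1 f0 f1 : ℤ} (h0 : z ∣ F0 - f0) (h1 : z ∣ F1 - f1) :
    z ∣ (b11 * F0 ^ 2 + 2 * b12 * F0 * F1 + b22 * F1 ^ 2)
      - (b11 * f0 ^ 2 + 2 * b12 * f0 * f1 + b22 * f1 ^ 2) := by
  have : (b11 * F0 ^ 2 + 2 * b12 * F0 * F1 + b22 * F1 ^ 2)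
      - (b11 * f0 ^ 2 + 2 * b12 * f0 * f1 + b22 * f1 ^ 2)
      = (F0 - f0) * (b11 * (F0 + f0) + 2 * b12 * F1)
        + (F1 - f1) * (2 * b12 * f0 + b22 * (F1 + f1)) := by ring
  rw [this]
  exact dvd_add (Dvd.dvd.mul_right h0 _) (Dvd.dvd.mul_right h1 _)

end Fst

theorem exists_value {b11 b12 b22 : ℤ} {x q : ℕ} (hx : x % 8 = 1) (hx0 : Squarefree x)
    (hb11 : b11 % 8 = 3) (hD8 : (b11 * b22 - b12 ^ 2) % 8 = 1) (hb0 : 0 < b11)
    (hD0 : 0 < b11 * b22 - b12 ^ 2)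
    (H1 : ∀ p : ℕ, p.Prime → (p : ℤ) ∣ b11 * b22 - b12 ^ 2 → ¬ p ∣ x →
      ∃ f0 f1 : ℤ, ¬ (p : ℤ) ∣ b11 * f0 ^ 2 + 2 * b12 * f0 * f1 + b22 * f1 ^ 2)
    (H2 : ∀ p : ℕ, p.Prime → p ∣ x → ∃ f0 f1 s : ℤ, ¬ (p : ℤ) ∣ s ∧
      (p : ℤ) ∣ s ^ 2 + q * (b11 * f0 ^ 2 + 2 * b12 * f0 * f1 + b22 * f1 ^ 2)) :
    ∃ f0 f1 : ℤ, ∃ c : ℕ, b11 * f0 ^ 2 + 2 * b12 * f0 * f1 + b22 * f1 ^ 2 = c ∧
      IsCoprime f0 f1 ∧ c % 8 = 3 ∧ IsCoprime (c : ℤ) (b11 * b22 - b12 ^ 2) ∧ Nat.Coprime c x ∧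
      ∀ p : ℕ, p.Prime → p ∣ x → ∃ s : ℤ, (p : ℤ) ∣ s ^ 2 + q * c := by
  classical
  have hx0' : x ≠ 0 := hx0.ne_zero
  obtain ⟨D, hD⟩ : ∃ D : ℕ, (D : ℤ) = b11 * b22 - b12 ^ 2 := ⟨_, Int.toNat_of_nonneg hD0.le⟩
  have hDne : D ≠ 0 := by
    intro h
    rw [h] at hD
    push_cast at hD
    omega
  have hD2 : ∀ p : ℕ, p ∣ D → p ≠ 2 := by
    rintro p hp rfl
    have : (2 : ℤ) ∣ b11 * b22 - b12 ^ 2 := by
      rw [← hD]; exact_mod_cast hp
    omega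
  -- local data
  have loc : ∀ p : ℕ, ∃ f : ℤ × ℤ, p.Prime → p ∣ D * x →
      (¬ (p : ℤ) ∣ b11 * f.1 ^ 2 + 2 * b12 * f.1 * f.2 + b22 * f.2 ^ 2) ∧
      (p ∣ x → ∃ s : ℤ,
        (p : ℤ) ∣ s ^ 2 + q * (b11 * f.1 ^ 2 + 2 * b12 * f.1 * f.2 + b22 * f.2 ^ 2)) := by
    intro p
    by_cases hp : p.Prime
    · by_cases hpx : p ∣ x
      · obtain ⟨f0, f1, s, hs, h⟩ := H2 p hp hpx
        refine ⟨(f0, f1), fun _ _ => ⟨?_, fun _ => ⟨s, h⟩⟩⟩
        intro hdiv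
        apply hs
        have h2 : (p : ℤ) ∣ s ^ 2 := by
          have := dvd_sub h (Dvd.dvd.mul_left hdiv (q : ℤ))
          rwa [add_sub_cancel_right] at this
        exact (Nat.prime_iff_prime_int.mp hp).dvd_of_dvd_pow h2
      · by_cases hpD : p ∣ D
        · obtain ⟨f0, f1, h⟩ := H1 p hp (by rw [← hD]; exact_mod_cast hpD) hpx
          exact ⟨(f0, f1), fun _ _ => ⟨h, fun h => absurd h hpx⟩⟩
        · refine ⟨(0, 0), fun _ h => ?_⟩
          rcases (Nat.Prime.dvd_mul hp).mp h with h | h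
          · exact absurd h hpD
          · exact absurd h hpx
    · exact ⟨(0, 0), fun h => absurd h hp⟩
  choose f hf using loc
  have hS : ∀ p ∈ (D * x).primeFactors, p.Prime ∧ p ≠ 2 := by
    intro p hp
    rw [Nat.mem_primeFactors] at hp
    refine ⟨hp.1, ?_⟩
    rcases (Nat.Prime.dvd_mul hp.1).mp hp.2.1 with h | h
    · exact hD2 p h
    · rintro rfl
      omega
  obtain ⟨F0, h08, h0p⟩ := Fst.crt _ hS (fun p => (f p).1) 1
  obtain ⟨F1, h18, h1p⟩ := Fst.crt _ hS (fun p => (f p).2) 0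
  -- the value
  obtain ⟨C, hC⟩ : ∃ C, C = b11 * F0 ^ 2 + 2 * b12 * F0 * F1 + b22 * F1 ^ 2 := ⟨_, rfl⟩
  have hC8 : C % 8 = 3 := by
    have := Fst.form_congr (b11 := b11) (b12 := b12) (b22 := b22) h08 h18
    rw [← hC] at this
    rw [show b11 * (1:ℤ) ^ 2 + 2 * b12 * 1 * 0 + b22 * 0 ^ 2 = b11 by ring] at this
    omega
  have hCp : ∀ p : ℕ, p.Prime → p ∣ D * x → ¬ (p : ℤ) ∣ C := by
    intro p hp hpd hdiv
    have hmem : p ∈ (D * x).primeFactors :=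
      Nat.mem_primeFactors.mpr ⟨hp, hpd, Nat.mul_ne_zero hDne hx0'⟩
    have h3 := Fst.form_congr (b11 := b11) (b12 := b12) (b22 := b22) (h0p p hmem) (h1p p hmem)
    rw [← hC] at h3
    apply (hf p hp hpd).1
    have := dvd_sub hdiv h3
    rwa [sub_sub_cancel] at this
  have hCs : ∀ p : ℕ, p.Prime → p ∣ x → ∃ s : ℤ, (p : ℤ) ∣ s ^ 2 + q * C := by
    intro p hp hpx
    have hpd : p ∣ D * x := Dvd.dvd.mul_left hpx D
    have hmem : p ∈ (D * x).primeFactors :=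
      Nat.mem_primeFactors.mpr ⟨hp, hpd, Nat.mul_ne_zero hDne hx0'⟩
    have h3 := Fst.form_congr (b11 := b11) (b12 := b12) (b22 := b22) (h0p p hmem) (h1p p hmem)
    rw [← hC] at h3
    obtain ⟨s, hs⟩ := (hf p hp hpd).2 hpx
    refine ⟨s, ?_⟩
    have h4 := dvd_add hs (Dvd.dvd.mul_left h3 (q : ℤ))
    rw [add_assoc, ← mul_add, add_sub_cancel] at h4
    exact h4
  -- division by the gcd
  have hF0 : F0 ≠ 0 := by
    rintro rfl
    omega
  have hg0 : 0 < Int.gcd F0 F1 := Int.gcd_pos_of_ne_zero_left _ hF0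
  obtain ⟨f0, f1, hcop, e0, e1⟩ := Int.exists_gcd_one hg0
  obtain ⟨g, hg⟩ : ∃ g : ℤ, g = (Int.gcd F0 F1 : ℤ) := ⟨_, rfl⟩
  rw [← hg] at e0 e1
  rw [← Int.isCoprime_iff_gcd_eq_one] at hcop
  have hf0 : f0 ≠ 0 := by
    rintro rfl
    rw [zero_mul] at e0
    exact hF0 e0
  obtain ⟨b, hb⟩ : ∃ b, b = b11 * f0 ^ 2 + 2 * b12 * f0 * f1 + b22 * f1 ^ 2 := ⟨_, rfl⟩
  have hbC : C = b * g ^ 2 := by
    rw [hC, hb, e0, e1]
    ring
  have hbpos : 0 < b := by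
    have h1 : b11 * b = (b11 * f0 + b12 * f1) ^ 2 + (b11 * b22 - b12 ^ 2) * f1 ^ 2 := by
      rw [hb]; ring
    have h2 : 0 < b11 * b := by
      rw [h1]
      by_cases hf1 : f1 = 0
      · rw [hf1, mul_zero, add_zero]
        have : b11 * f0 ≠ 0 := mul_ne_zero hb0.ne' hf0
        positivity
      · have : 0 < (b11 * b22 - b12 ^ 2) * f1 ^ 2 := by positivity
        have h3 := sq_nonneg (b11 * f0 + b12 * f1)
        omega
    exact (mul_pos_iff_of_pos_left hb0).mp h2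
  have hg2 : g % 2 = 1 := by
    rcases Int.even_or_odd g with h | h
    · exfalso
      obtain ⟨k, hk⟩ := h
      have h3 : C = 2 * (2 * b * k ^ 2) := by rw [hbC, hk]; ring
      omega
    · exact Int.odd_iff.mp h
  have hg8 : (8 : ℤ) ∣ g ^ 2 - 1 := by
    obtain ⟨k, hk⟩ : ∃ k, g = 2 * k + 1 := ⟨g / 2, by omega⟩
    obtain ⟨l, hl⟩ := Int.even_mul_succ_self k
    refine ⟨l, ?_⟩
    rw [hk]
    linear_combination 4 * hl
  have hb8 : b % 8 = 3 := by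
    have h3 : (8 : ℤ) ∣ C - b := by
      rw [hbC, show b * g ^ 2 - b = (g ^ 2 - 1) * b by ring]
      exact Dvd.dvd.mul_right hg8 _
    omega
  have hbp : ∀ p : ℕ, p.Prime → p ∣ D * x → ¬ (p : ℤ) ∣ b := by
    intro p hp hpd h
    apply hCp p hp hpd
    rw [hbC]
    exact Dvd.dvd.mul_right h _
  obtain ⟨c, hc⟩ : ∃ c : ℕ, (c : ℤ) = b := ⟨_, Int.toNat_of_nonneg hbpos.le⟩
  refine ⟨f0, f1, c, by rw [hc, hb], hcop, by omega, ?_, ?_, ?_⟩
  · rw [← hD, Nat.isCoprime_iff_coprime]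
    apply Nat.Coprime.symm
    apply Nat.coprime_of_dvd
    intro p hp h1 h2
    apply hbp p hp (Dvd.dvd.mul_right h1 x)
    rw [← hc]
    exact_mod_cast h2
  · apply Nat.Coprime.symm
    apply Nat.coprime_of_dvd
    intro p hp h1 h2
    apply hbp p hp (Dvd.dvd.mul_left h1 D)
    rw [← hc]
    exact_mod_cast h2
  · intro p hp hpx
    obtain ⟨s, hs⟩ := hCs p hp hpx
    have hpg : ¬ (p : ℤ) ∣ g := by
      intro h
      apply hCp p hp (Dvd.dvd.mul_left hpx D)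
      rw [hbC]
      exact Dvd.dvd.mul_left (dvd_pow h two_ne_zero) _
    have hco : IsCoprime (p : ℤ) g := by
      rw [(Nat.prime_iff_prime_int.mp hp).irreducible.coprime_iff_not_dvd]
      exact hpg
    obtain ⟨v, u, huv⟩ := hco
    refine ⟨u * s, ?_⟩
    rw [hc]
    have h5 : (u * s) ^ 2 + q * b = u ^ 2 * (s ^ 2 + q * C) + p * (v * (1 + u * g) * q * b) := by
      rw [hbC]
      linear_combination (-(1 + u * g) * q * b) * huv
    rw [h5]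
    exact dvd_add (Dvd.dvd.mul_left hs _) (Dvd.intro _ rfl)

end Pool.Agent.H565R2.NS
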