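import Mathlib
import Pool.Agent.H565R2.NS.Defs
import Pool.Agent.H141R2.FS.Three

/-!
# Orthogonal integer vectors `ω`, `c`
-/

set_option autoImplicit false

namespace Pool.Agent.H565R2.NS

namespace Omg

theorem bez (a b c : ℤ) :
    ∃ u v w : ℤ, a * u + b * v + c * w = ((Int.gcd (Int.gcd a b) c : ℕ) : ℤ) := by
  have h1 := Int.gcd_eq_gcd_ab a b
  have h2 := Int.gcd_eq_gcd_ab (Int.gcd a b : ℤ) c
  refine ⟨Int.gcdA a b * Int.gcdA (Int.gcd a b) c, Int.gcdB a b * Int.gcdA (Int.gcd a b) c,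
    Int.gcdB (Int.gcd a b) c, ?_⟩
  rw [h2]
  linear_combination (-Int.gcdA (Int.gcd a b) c) * h1

theorem bez_one {a b c : ℤ}
    (h : ∀ p : ℕ, p.Prime → (p : ℤ) ∣ a → (p : ℤ) ∣ b → (p : ℤ) ∣ c → False) :
    ∃ u v w : ℤ, a * u + b * v + c * w = 1 := by
  obtain ⟨u, v, w, huv⟩ := bez a b c
  refine ⟨u, v, w, ?_⟩
  rw [huv]
  by_contra hne
  have hne' : Int.gcd (Int.gcd a b) c ≠ 1 := fun h => hne (by rw [h]; rfl)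
  obtain ⟨p, hp, hpd⟩ := Nat.exists_prime_and_dvd hne'
  have h0 : (p : ℤ) ∣ ((Int.gcd (Int.gcd a b) c : ℕ) : ℤ) := Int.natCast_dvd_natCast.2 hpd
  have h1 : (p : ℤ) ∣ (Int.gcd a b : ℤ) := h0.trans (Int.gcd_dvd_left ..)
  have h2 : (p : ℤ) ∣ c := h0.trans (Int.gcd_dvd_right ..)
  exact h p hp (h1.trans (Int.gcd_dvd_left ..)) (h1.trans (Int.gcd_dvd_right ..)) h2

theorem three_par {x : ℕ} (h8 : x % 8 = 1) : ∃ e w1 w2 : ℤ, e ^ 2 + w1 ^ 2 + w2 ^ 2 = x ∧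
    e % 2 = 1 ∧ w1 % 2 = 0 ∧ w2 % 2 = 0 := by
  obtain ⟨a, b, c, h⟩ := Pool.Agent.H141R2.FS.three_squares_one (m := x) (by omega)
  obtain ⟨k, hk⟩ : ∃ k : ℤ, (x : ℤ) = 8 * k + 1 := ⟨(x : ℤ) / 8, by omega⟩
  have h' := h
  rw [hk] at h'
  rcases Int.even_or_odd' a with ⟨a', ha | ha⟩ <;> rcases Int.even_or_odd' b with ⟨b', hb | hb⟩ <;>
    rcases Int.even_or_odd' c with ⟨c', hc | hc⟩
  · rw [ha, hb, hc] at h'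
    ring_nf at h'
    omega
  · exact ⟨c, a, b, by rw [← h]; ring, by omega, by omega, by omega⟩
  · exact ⟨b, a, c, by rw [← h]; ring, by omega, by omega, by omega⟩
  · rw [ha, hb, hc] at h'
    ring_nf at h'
    omega
  · exact ⟨a, b, c, h, by omega, by omega, by omega⟩
  · rw [ha, hb, hc] at h'
    ring_nf at h'
    omega
  · rw [ha, hb, hc] at h'
    ring_nf at h'
    omega
  · rw [ha, hb, hc] at h'
    ring_nf at h'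
    omega

theorem mod_calc {e w1 w2 u1 u2 : ℤ} (he : e % 2 = 1) (h1 : w1 % 2 = 0)
    (hu1 : u1 ≡ 1 [ZMOD 8]) (hu2 : u2 ≡ w1 [ZMOD 8]) (h2 : w2 % 2 = 0) :
    (w1 * u1 + w2 * u2) ^ 2 + e ^ 2 * (u1 ^ 2 + u2 ^ 2) ≡ 1 [ZMOD 8] := by
  have he2 : e ^ 2 ≡ 1 [ZMOD 8] := by
    obtain ⟨f, rfl⟩ : ∃ f, e = 2 * f + 1 := ⟨e / 2, by omega⟩
    rcases Int.even_or_odd' f with ⟨g, rfl | rfl⟩
    · refine (Int.modEq_iff_dvd.2 ⟨-(2 * g ^ 2 + g), by ring⟩)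
    · refine (Int.modEq_iff_dvd.2 ⟨-(2 * g ^ 2 + 3 * g + 1), by ring⟩)
  have h3 : (w1 * u1 + w2 * u2) ^ 2 + e ^ 2 * (u1 ^ 2 + u2 ^ 2) ≡
      (w1 * 1 + w2 * w1) ^ 2 + 1 * (1 ^ 2 + w1 ^ 2) [ZMOD 8] := by
    gcongr
  refine h3.trans ?_
  obtain ⟨a, rfl⟩ : ∃ f, w1 = 2 * f := ⟨w1 / 2, by omega⟩
  obtain ⟨b, rfl⟩ : ∃ f, w2 = 2 * f := ⟨w2 / 2, by omega⟩
  exact Int.modEq_iff_dvd.2 ⟨-(a ^ 2 + 2 * a ^ 2 * b * (b + 1)), by ring⟩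

end Omg

open Omg in
/-- OMG (file `Omg.lean`) orthogonal integer vectors `ω`, `c` with norms `x` and `γ`. -/
theorem exists_omega {x : ℕ} (hx : Squarefree x) (h8 : x % 8 = 1) :
    ∃ e w1 w2 c1 c2 c3 : ℤ, ∃ γ : ℕ, e ^ 2 + w1 ^ 2 + w2 ^ 2 = x ∧
      e % 2 = 1 ∧ w1 % 2 = 0 ∧ w2 % 2 = 0 ∧ e * c1 + w1 * c2 + w2 * c3 = 0 ∧
      c1 ^ 2 + c2 ^ 2 + c3 ^ 2 = γ ∧ γ % 8 = 1 ∧ Nat.Coprime γ x ∧
      (∃ s : ℤ, (γ : ℤ) ∣ s ^ 2 + x) ∧ (∃ s : ℤ, (x : ℤ) ∣ s ^ 2 + γ) := by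
  obtain ⟨e, w1, w2, hsum, he, hw1, hw2⟩ := three_par h8
  have key : ∀ p : ℕ, p.Prime → (p : ℤ) ∣ e → (p : ℤ) ∣ w1 → (p : ℤ) ∣ w2 → False := by
    intro p hp h1 h2 h3
    have h4 : (p : ℤ) ^ 2 ∣ (x : ℤ) := by
      rw [← hsum]
      exact dvd_add (dvd_add (pow_dvd_pow_of_dvd h1 2) (pow_dvd_pow_of_dvd h2 2))
        (pow_dvd_pow_of_dvd h3 2)
    have h5 : p * p ∣ x := by
      have : ((p * p : ℕ) : ℤ) ∣ (x : ℤ) := by push_cast; rw [← pow_two]; exact h4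
      exact Int.natCast_dvd_natCast.1 this
    exact hp.one_lt.ne' (Nat.isUnit_iff.1 (hx p h5))
  -- Bezout for `w1, w2, x`
  obtain ⟨a, b, c, habc⟩ : ∃ a b c : ℤ, w1 * a + w2 * b + (x : ℤ) * c = 1 := by
    apply bez_one
    intro p hp h1 h2 h3
    refine key p hp ?_ h1 h2
    have h4 : (p : ℤ) ∣ e ^ 2 := by
      have : e ^ 2 = x - w1 ^ 2 - w2 ^ 2 := by rw [← hsum]; ring
      rw [this]
      exact dvd_sub (dvd_sub h3 (dvd_pow h1 (by norm_num))) (dvd_pow h2 (by norm_num))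
    exact (Nat.prime_iff_prime_int.1 hp).dvd_of_dvd_pow h4
  obtain ⟨k, hk⟩ : ∃ k : ℤ, (x : ℤ) = 8 * k + 1 := ⟨(x : ℤ) / 8, by omega⟩
  set u1 : ℤ := -b + x * (1 + b) with hu1
  set u2 : ℤ := a + x * (w1 - a) with hu2
  have hu1' : u1 ≡ 1 [ZMOD 8] := Int.modEq_iff_dvd.2 ⟨-(k * (1 + b)), by rw [hu1, hk]; ring⟩
  have hu2' : u2 ≡ w1 [ZMOD 8] := Int.modEq_iff_dvd.2 ⟨-(k * (w1 - a)), by rw [hu2, hk]; ring⟩
  have hg8 := mod_calc he hw1 hu1' hu2' hw2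
  set G : ℤ := (w1 * u1 + w2 * u2) ^ 2 + e ^ 2 * (u1 ^ 2 + u2 ^ 2) with hG
  -- `G` is coprime to `x`
  have hGx : IsCoprime G (x : ℤ) := by
    have e1 : G = x * (u1 ^ 2 + u2 ^ 2) - (w1 * u2 - w2 * u1) ^ 2 := by
      rw [hG, ← hsum]; ring
    have e2 : w1 * u2 - w2 * u1 = 1 + x * (w1 * (w1 - a) - w2 * (1 + b) - c) := by
      rw [hu1, hu2]
      linear_combination habc
    refine ⟨-1, u1 ^ 2 + u2 ^ 2 - 2 * (w1 * (w1 - a) - w2 * (1 + b) - c) -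
      x * (w1 * (w1 - a) - w2 * (1 + b) - c) ^ 2, ?_⟩
    rw [e1, e2]; ring
  -- the primitive vector
  obtain ⟨v1, v2, v3, hv⟩ := bez (-(w1 * u1 + w2 * u2)) (e * u1) (e * u2)
  set g : ℤ := ((Int.gcd (Int.gcd (-(w1 * u1 + w2 * u2)) (e * u1)) (e * u2) : ℕ) : ℤ) with hg
  have hd0 : g ∣ (Int.gcd (-(w1 * u1 + w2 * u2)) (e * u1) : ℤ) := Int.gcd_dvd_left ..
  obtain ⟨c1, hc1⟩ : g ∣ -(w1 * u1 + w2 * u2) := hd0.trans (Int.gcd_dvd_left ..)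
  obtain ⟨c2, hc2⟩ : g ∣ e * u1 := hd0.trans (Int.gcd_dvd_right ..)
  obtain ⟨c3, hc3⟩ : g ∣ e * u2 := Int.gcd_dvd_right ..
  have hGg : G = g ^ 2 * (c1 ^ 2 + c2 ^ 2 + c3 ^ 2) := by
    have : G = (-(w1 * u1 + w2 * u2)) ^ 2 + (e * u1) ^ 2 + (e * u2) ^ 2 := by rw [hG]; ring
    rw [this, hc1, hc2, hc3]; ring
  have hG8 : G % 8 = 1 := hg8
  have hg0 : g ≠ 0 := by
    intro h
    rw [hGg, h] at hG8
    norm_num at hG8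
  have hcv : c1 * v1 + c2 * v2 + c3 * v3 = 1 := by
    rw [hc1, hc2, hc3] at hv
    apply mul_left_cancel₀ hg0
    linear_combination hv
  have horth : e * c1 + w1 * c2 + w2 * c3 = 0 := by
    apply mul_left_cancel₀ hg0
    linear_combination (-e) * hc1 - w1 * hc2 - w2 * hc3
  have hγ0 : 0 ≤ c1 ^ 2 + c2 ^ 2 + c3 ^ 2 := by positivity
  obtain ⟨γ, hγ⟩ := Int.eq_ofNat_of_zero_le hγ0
  have hg2 : g % 2 = 1 := by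
    rcases Int.emod_two_eq_zero_or_one g with h | h
    · exfalso
      obtain ⟨f, hf⟩ : ∃ f, g = 2 * f := ⟨g / 2, by omega⟩
      have : G = 2 * (2 * f ^ 2 * (c1 ^ 2 + c2 ^ 2 + c3 ^ 2)) := by rw [hGg, hf]; ring
      omega
    · exact h
  have hgsq : g ^ 2 ≡ 1 [ZMOD 8] := by
    obtain ⟨f, hf⟩ : ∃ f, g = 2 * f + 1 := ⟨g / 2, by omega⟩
    rw [hf]
    rcases Int.even_or_odd' f with ⟨r, rfl | rfl⟩
    · refine (Int.modEq_iff_dvd.2 ⟨-(2 * r ^ 2 + r), by ring⟩)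
    · refine (Int.modEq_iff_dvd.2 ⟨-(2 * r ^ 2 + 3 * r + 1), by ring⟩)
  have hγ8 : γ % 8 = 1 := by
    have h1 : g ^ 2 * (γ : ℤ) ≡ 1 * (γ : ℤ) [ZMOD 8] := Int.ModEq.mul_right _ hgsq
    have h2 : g ^ 2 * (γ : ℤ) = G := by rw [hGg, hγ]
    rw [h2, one_mul] at h1
    have h3 : (γ : ℤ) % 8 = 1 := by rw [← h1]; exact hG8
    omega
  have hcop : Nat.Coprime γ x := by
    rw [← Nat.isCoprime_iff_coprime]
    refine IsCoprime.of_isCoprime_of_dvd_left hGx ⟨g ^ 2, ?_⟩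
    rw [hGg, hγ]; ring
  obtain ⟨z1, z2, z3, hz⟩ := bez_one key
  refine ⟨e, w1, w2, c1, c2, c3, γ, hsum, he, hw1, hw2, horth, hγ, hγ8, hcop, ?_, ?_⟩
  · refine ⟨e * (c2 * v3 - c3 * v2) - w1 * (c1 * v3 - c3 * v1) + w2 * (c1 * v2 - c2 * v1),
      x * (v1 ^ 2 + v2 ^ 2 + v3 ^ 2) - (e * v1 + w1 * v2 + w2 * v3) ^ 2, ?_⟩
    have gram : (e * (c2 * v3 - c3 * v2) - w1 * (c1 * v3 - c3 * v1) + w2 * (c1 * v2 - c2 * v1)) ^ 2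
        = (e ^ 2 + w1 ^ 2 + w2 ^ 2) * (c1 ^ 2 + c2 ^ 2 + c3 ^ 2) * (v1 ^ 2 + v2 ^ 2 + v3 ^ 2)
          - (e ^ 2 + w1 ^ 2 + w2 ^ 2) * (c1 * v1 + c2 * v2 + c3 * v3) ^ 2
          - (c1 ^ 2 + c2 ^ 2 + c3 ^ 2) * (e * v1 + w1 * v2 + w2 * v3) ^ 2
          - (v1 ^ 2 + v2 ^ 2 + v3 ^ 2) * (e * c1 + w1 * c2 + w2 * c3) ^ 2
          + 2 * (e * c1 + w1 * c2 + w2 * c3) * (c1 * v1 + c2 * v2 + c3 * v3) *
            (e * v1 + w1 * v2 + w2 * v3) := by ring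
    rw [gram, horth, hcv, hsum, hγ]
    ring
  · refine ⟨e * (c2 * z3 - c3 * z2) - w1 * (c1 * z3 - c3 * z1) + w2 * (c1 * z2 - c2 * z1),
      γ * (z1 ^ 2 + z2 ^ 2 + z3 ^ 2) - (c1 * z1 + c2 * z2 + c3 * z3) ^ 2, ?_⟩
    have gram : (e * (c2 * z3 - c3 * z2) - w1 * (c1 * z3 - c3 * z1) + w2 * (c1 * z2 - c2 * z1)) ^ 2
        = (e ^ 2 + w1 ^ 2 + w2 ^ 2) * (c1 ^ 2 + c2 ^ 2 + c3 ^ 2) * (z1 ^ 2 + z2 ^ 2 + z3 ^ 2)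
          - (e ^ 2 + w1 ^ 2 + w2 ^ 2) * (c1 * z1 + c2 * z2 + c3 * z3) ^ 2
          - (c1 ^ 2 + c2 ^ 2 + c3 ^ 2) * (e * z1 + w1 * z2 + w2 * z3) ^ 2
          - (z1 ^ 2 + z2 ^ 2 + z3 ^ 2) * (e * c1 + w1 * c2 + w2 * c3) ^ 2
          + 2 * (e * c1 + w1 * c2 + w2 * c3) * (c1 * z1 + c2 * z2 + c3 * z3) *
            (e * z1 + w1 * z2 + w2 * z3) := by ring
    rw [gram, horth, hz, hsum, hγ]
    ring

end Pool.Agent.H565R2.NS
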