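import Pool.Agent.H565R2.NS.Defs
import Pool.Agent.H591R2.ThreeSq

/-!
# Choice of the prime `q` and of the quaternion `h` of norm `q`
-/

set_option autoImplicit false

namespace Pool.Agent.H565R2.NS

namespace Qch

open scoped NumberTheorySymbols

theorem exists_nonresidue {x : ℕ} (hx : Squarefree x) (ho : x % 2 = 1) (h1 : 1 < x) :
    ∃ a : ℕ, jacobiSym a x = -1 := by
  obtain ⟨l, hl, hlx⟩ := Nat.exists_prime_and_dvd (by omega : x ≠ 1)
  obtain ⟨m, hm⟩ := hlx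
  have hl2 : l ≠ 2 := by
    rintro rfl
    omega
  have hcop : Nat.Coprime l m := by
    rw [hm] at hx
    exact Nat.coprime_of_squarefree_mul hx
  have hF : Fact l.Prime := ⟨hl⟩
  have hchar : ringChar (ZMod l) ≠ 2 := by
    rw [ZMod.ringChar_zmod_n]
    exact hl2
  obtain ⟨r, hr⟩ := quadraticChar_exists_neg_one hchar
  obtain ⟨a, ha1, ha2⟩ := Nat.chineseRemainder hcop r.val 1
  refine ⟨a, ?_⟩
  have hm0 : m ≠ 0 := by
    rintro rfl
    omega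
  have : NeZero l := ⟨hl.ne_zero⟩
  have : NeZero m := ⟨hm0⟩
  rw [hm, jacobiSym.mul_right]
  have e1 : jacobiSym a l = -1 := by
    rw [← jacobiSym.legendreSym.to_jacobiSym]
    unfold legendreSym
    have e : (((a : ℕ) : ℤ) : ZMod l) = r := by
      rw [Int.cast_natCast, (ZMod.natCast_eq_natCast_iff _ _ _).mpr ha1, ZMod.natCast_zmod_val]
    rw [e]
    exact hr
  have e2 : jacobiSym a m = 1 := by
    have h3 : ((a : ℕ) : ℤ) % m = 1 % m := by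
      exact_mod_cast ha2
    rw [jacobiSym.mod_left, h3, ← jacobiSym.mod_left, jacobiSym.one_left]
  rw [e1, e2]
  norm_num

end Qch

/-- QCH (file `Qch.lean`) choice of the prime `q` and of the quaternion `h` of norm `q`. -/
theorem exists_h {x : ℕ} (hx : Squarefree x) (h8 : x % 8 = 1) (h1 : 1 < x) (M : ℤ) (hM : M ≠ 0)
    (N : ℕ) :
    ∃ h0 h1 h2 h3 : ℤ, ∃ q : ℕ, q.Prime ∧ N < q ∧ q % 8 = 3 ∧ jacobiSym x q = -1 ∧
      h0 ^ 2 + h1 ^ 2 + h2 ^ 2 + h3 ^ 2 = q ∧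
      ¬ (q : ℤ) ∣ h0 ^ 2 + h1 ^ 2 + 9 * (h2 ^ 2 + h3 ^ 2) ∧
      (h0 ^ 2 + h1 ^ 2 + 9 * (h2 ^ 2 + h3 ^ 2)) % 8 = 3 ∧
      ∀ p : ℕ, p.Prime → (p : ℤ) ∣ M → ¬ (p : ℤ) ∣ 2 * x →
        ¬ (p : ℤ) ∣ h0 ^ 2 + h1 ^ 2 + 9 * (h2 ^ 2 + h3 ^ 2) := by
  classical
  obtain ⟨a, ha⟩ := Qch.exists_nonresidue hx (by omega) h1
  -- the product of the relevant primes
  set P : ℕ := ∏ p ∈ M.natAbs.primeFactors.filter (fun p => ¬ p ∣ 2 * x), p with hP
  have hPcop : Nat.Coprime P (2 * x) := by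
    rw [hP]
    refine Nat.Coprime.prod_left fun p hp => ?_
    rw [Finset.mem_filter, Nat.mem_primeFactors] at hp
    exact (Nat.Prime.coprime_iff_not_dvd hp.1.1).mpr hp.2
  have hP2 : Nat.Coprime P 2 := Nat.Coprime.coprime_mul_right_right hPcop
  have hPx : Nat.Coprime P x := Nat.Coprime.coprime_mul_left_right hPcop
  have hPodd : P % 2 = 1 := Nat.odd_iff.mp (Nat.coprime_two_right.mp hP2)
  have hPpos : 0 < P := by omega
  have hdiv : ∀ p : ℕ, p.Prime → (p : ℤ) ∣ M → ¬ (p : ℤ) ∣ 2 * x → p ∣ P := by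
    intro p hp hpM hpx
    rw [hP]
    refine Finset.dvd_prod_of_mem (fun p => p) ?_
    rw [Finset.mem_filter, Nat.mem_primeFactors]
    refine ⟨⟨hp, Int.natCast_dvd.mp hpM, by omega⟩, fun h => hpx ?_⟩
    exact_mod_cast h
  have hP8 : P ^ 2 % 8 = 1 := by
    have : P % 8 = 1 ∨ P % 8 = 3 ∨ P % 8 = 5 ∨ P % 8 = 7 := by omega
    rw [Nat.pow_mod]
    rcases this with h | h | h | h <;> rw [h]
  -- residue class
  have hx2 : Nat.Coprime x 2 := Nat.coprime_two_right.mpr (Nat.odd_iff.mpr (by omega))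
  have c1 : Nat.Coprime 8 (P ^ 2) := by
    have : Nat.Coprime (2 ^ 3) (P ^ 2) := Nat.Coprime.pow 3 2 hP2.symm
    exact this
  have c2 : Nat.Coprime (8 * P ^ 2) x := by
    refine Nat.Coprime.mul_left ?_ ?_
    · have : Nat.Coprime (2 ^ 3) x := Nat.Coprime.pow_left 3 hx2.symm
      exact this
    · exact Nat.Coprime.pow_left 2 hPx
  obtain ⟨k1, hk1, hk1'⟩ := Nat.chineseRemainder c1 3 16
  obtain ⟨k, hk, hk'⟩ := Nat.chineseRemainder c2 k1 a
  have hk8 : k ≡ 3 [MOD 8] := (hk.of_mul_right _).trans hk1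
  have hkP : k ≡ 16 [MOD P ^ 2] := (hk.of_mul_left _).trans hk1'
  have hax : Nat.Coprime a x := by
    have hx0 : NeZero x := ⟨by omega⟩
    by_contra hcon
    have h2 : jacobiSym a x = 0 := jacobiSym.eq_zero_iff_not_coprime.mpr (by
      rw [Int.gcd_natCast_natCast]
      exact hcon)
    rw [ha] at h2
    norm_num at h2
  have hkK : Nat.Coprime k (8 * P ^ 2 * x) := by
    refine Nat.Coprime.mul_right (Nat.Coprime.mul_right ?_ ?_) ?_
    · rw [Nat.Coprime, hk8.gcd_eq]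
      decide
    · rw [Nat.Coprime, hkP.gcd_eq]
      have : Nat.Coprime (2 ^ 4) (P ^ 2) := Nat.Coprime.pow 4 2 hP2.symm
      exact this
    · rw [Nat.Coprime, hk'.gcd_eq]
      exact hax
  have : NeZero (8 * P ^ 2 * x) := ⟨by positivity⟩
  obtain ⟨q, hq1, hqp, hqK⟩ := Nat.forall_exists_prime_gt_and_eq_mod
    ((ZMod.isUnit_iff_coprime k (8 * P ^ 2 * x)).mpr hkK) (max N 16)
  have hqk : q ≡ k [MOD 8 * P ^ 2 * x] := (ZMod.natCast_eq_natCast_iff _ _ _).mp hqK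
  have hq8 : q ≡ 3 [MOD 8] := ((hqk.of_mul_right _).of_mul_right _).trans hk8
  have hqP : q ≡ 16 [MOD P ^ 2] := ((hqk.of_mul_right _).of_mul_left _).trans hkP
  have hqa : q ≡ a [MOD x] := (hqk.of_mul_left _).trans hk'
  have hNq : N < q := lt_of_le_of_lt (le_max_left _ _) hq1
  have h16q : 16 < q := lt_of_le_of_lt (le_max_right _ _) hq1
  have hq8' : q % 8 = 3 := hq8
  obtain ⟨n, hn⟩ : P ^ 2 ∣ q - 16 := (Nat.modEq_iff_dvd' h16q.le).mp hqP.symm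
  have hqn : q = 16 + P ^ 2 * n := by omega
  have hn8 : n % 8 = 3 := by
    have h3 : (16 + P ^ 2 * n) % 8 = 3 := by rw [← hqn]; exact hq8'
    rw [Nat.add_mod, Nat.mul_mod, hP8] at h3
    omega
  obtain ⟨b, c, d, hbcd⟩ := Pool.Agent.H591R2.three_squares hn8
  have hn4 : (b ^ 2 + c ^ 2 + d ^ 2) % 4 = 3 := by rw [hbcd]; omega
  have sq4 : ∀ z : ℤ, z ^ 2 % 4 = 0 ∨ (z ^ 2 % 4 = 1) := by
    intro z
    have : z % 4 = 0 ∨ z % 4 = 1 ∨ z % 4 = 2 ∨ z % 4 = 3 := by omega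
    rcases this with h | h | h | h <;> simp [pow_two, Int.mul_emod, h]
  have hc0 : c ≠ 0 := by
    rintro rfl
    have := sq4 b
    have := sq4 d
    omega
  have hc2 : 0 < c ^ 2 := by positivity
  have hqZ : (q : ℤ) = 16 + P ^ 2 * (b ^ 2 + c ^ 2 + d ^ 2) := by
    rw [hbcd, hqn]
    push_cast
    ring
  have hform : (4 : ℤ) ^ 2 + (P * b) ^ 2 + 9 * ((P * c) ^ 2 + (P * d) ^ 2) =
      q + 8 * (P ^ 2 * (c ^ 2 + d ^ 2)) := by
    rw [hqZ]; ring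
  have hPZ : (0 : ℤ) < P := by exact_mod_cast hPpos
  refine ⟨4, P * b, P * c, P * d, q, hqp, hNq, hq8', ?_, ?_, ?_, ?_, ?_⟩
  · rw [jacobiSym.quadratic_reciprocity_one_mod_four (by omega)
      (Nat.odd_iff.mpr (by omega)), jacobiSym.mod_left]
    have : ((q : ℕ) : ℤ) % x = (a : ℤ) % x := by exact_mod_cast hqa
    rw [this, ← jacobiSym.mod_left]
    exact ha
  · rw [hqZ]; ring
  · rw [hform]
    intro hdvd
    have h3 : (q : ℤ) ∣ 8 * (P ^ 2 * (c ^ 2 + d ^ 2)) := (dvd_add_right (dvd_refl _)).mp hdvd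
    have hcop8 : IsCoprime (q : ℤ) 8 := by
      have h8' : Nat.Coprime q (2 ^ 3) :=
        Nat.Coprime.pow_right 3 (Nat.coprime_two_right.mpr (Nat.odd_iff.mpr (by omega)))
      have := Nat.isCoprime_iff_coprime.mpr h8'
      simpa using this
    have h4 : (q : ℤ) ∣ P ^ 2 * (c ^ 2 + d ^ 2) := hcop8.dvd_of_dvd_mul_left h3
    have h5 : 0 < (P : ℤ) ^ 2 * (c ^ 2 + d ^ 2) := by positivity
    have h6 := Int.le_of_dvd h5 h4
    have h7 : 0 ≤ (P : ℤ) ^ 2 * b ^ 2 := by positivity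
    rw [hqZ] at h6
    nlinarith
  · rw [hform]
    omega
  · intro p hp hpM hpx hdvd
    rw [hform] at hdvd
    have hpP := hdiv p hp hpM hpx
    have hpP' : (p : ℤ) ∣ P := by exact_mod_cast hpP
    have h3 : (p : ℤ) ∣ P ^ 2 * (b ^ 2 + c ^ 2 + d ^ 2) + 8 * (P ^ 2 * (c ^ 2 + d ^ 2)) := by
      refine dvd_add ?_ ?_
      · exact Dvd.dvd.mul_right (dvd_pow hpP' (by norm_num)) _
      · exact Dvd.dvd.mul_left (Dvd.dvd.mul_right (dvd_pow hpP' (by norm_num)) _) _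
    have h4 : (p : ℤ) ∣ 16 := by
      rw [hqZ] at hdvd
      have h5 := dvd_sub hdvd h3
      have e : (16 + (P : ℤ) ^ 2 * (b ^ 2 + c ^ 2 + d ^ 2) + 8 * (P ^ 2 * (c ^ 2 + d ^ 2)) -
        (P ^ 2 * (b ^ 2 + c ^ 2 + d ^ 2) + 8 * (P ^ 2 * (c ^ 2 + d ^ 2)))) = 16 := by ring
      rwa [e] at h5
    have h5 : p ∣ 2 ^ 4 := by exact_mod_cast h4
    have h6 : p ∣ 2 := hp.dvd_of_dvd_pow h5
    apply hpx
    have h7 : (p : ℤ) ∣ 2 := by exact_mod_cast h6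
    exact Dvd.dvd.mul_right h7 _

end Pool.Agent.H565R2.NS
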