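import Pool.Agent.H565R2.NS.Defs

/-!
# Choice of the prime `t`
-/

set_option autoImplicit false

open NumberTheorySymbols

namespace Pool.Agent.H565R2.NS.Tch

theorem sq_of_jac {t : ℕ} (ht : t.Prime) {a : ℤ} (h : jacobiSym (-a) t = 1) :
    ∃ s : ℤ, (t : ℤ) ∣ s ^ 2 + a := by
  have : Fact t.Prime := ⟨ht⟩
  obtain ⟨r, hr⟩ := ZMod.isSquare_of_jacobiSym_eq_one h
  obtain ⟨s, rfl⟩ := ZMod.intCast_surjective r
  refine ⟨s, (ZMod.intCast_zmod_eq_zero_iff_dvd _ _).1 ?_⟩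
  push_cast at hr ⊢
  rw [pow_two, ← hr]
  ring

theorem jac_one {c : ℕ} {a : ℤ} (hs : ∃ s : ℤ, (c : ℤ) ∣ s ^ 2 + a) (hc : IsCoprime a (c : ℤ)) :
    jacobiSym (-a) c = 1 := by
  obtain ⟨s, k, hk⟩ := hs
  have h1 : jacobiSym (-a) c = jacobiSym (s ^ 2) c := by
    apply jacobiSym.mod_left'
    have : s ^ 2 = -a + c * k := by rw [← hk]; ring
    rw [this, Int.add_mul_emod_self_left]
  have h2 : IsCoprime s (c : ℤ) := by
    have h3 : IsCoprime (s ^ 2) (c : ℤ) := by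
      have : s ^ 2 = -a + c * k := by rw [← hk]; ring
      rw [this]
      exact (IsCoprime.add_mul_left_left (IsCoprime.neg_left hc) k)
    exact (IsCoprime.pow_left_iff (by norm_num)).1 h3
  rw [h1]
  exact jacobiSym.sq_one' (Int.isCoprime_iff_gcd_eq_one.1 h2)

theorem jac_all {x : ℕ} (hx : x ≠ 0) {a : ℤ}
    (h : ∀ p : ℕ, p.Prime → p ∣ x → jacobiSym a p = 1) : jacobiSym a x = 1 := by
  induction x using induction_on_primes with
  | zero => exact absurd rfl hx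
  | one => exact jacobiSym.one_right a
  | prime_mul p b hp ih =>
    have hb : b ≠ 0 := by rintro rfl; exact hx (mul_zero p)
    have : NeZero p := ⟨hp.ne_zero⟩
    have : NeZero b := ⟨hb⟩
    rw [jacobiSym.mul_right, h p hp (dvd_mul_right p b),
      ih hb (fun r hr hrb => h r hr (hrb.mul_left p)), one_mul]

end Pool.Agent.H565R2.NS.Tch

namespace Pool.Agent.H565R2.NS

open Tch

theorem exists_t {c D x q : ℕ} (hx : x % 8 = 1) (hx0 : Squarefree x) (hc : c % 8 = 3)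
    (hD : D % 8 = 1) (hcD : Nat.Coprime c D) (hcx : Nat.Coprime c x) (hq : q.Prime)
    (hq8 : q % 8 = 3) (hxq : jacobiSym x q = -1) (hDc : ∃ s : ℤ, (c : ℤ) ∣ s ^ 2 + D)
    (hl : ∀ p : ℕ, p.Prime → p ∣ x → ∃ s : ℤ, (p : ℤ) ∣ s ^ 2 + q * c) (N : ℕ) :
    ∃ t : ℕ, t.Prime ∧ N < t ∧ t % 8 = 3 ∧ (D : ℤ) ∣ t - c ∧ (x : ℤ) ∣ t - c ∧
      (∃ s : ℤ, (t : ℤ) ∣ s ^ 2 + D) ∧ (∃ s : ℤ, (t : ℤ) ∣ s ^ 2 + x) ∧
      (∃ s : ℤ, (q : ℤ) ∣ s ^ 2 + x) := by
  have hx1 : x ≠ 0 := by rintro rfl; simp at hx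
  have hD1 : D ≠ 0 := by rintro rfl; simp at hD
  have hM0 : 8 * D * x ≠ 0 := by positivity
  have : NeZero (8 * D * x) := ⟨hM0⟩
  have hc2 : Nat.Coprime c 8 := by
    have : Nat.Coprime c 2 := by
      rw [Nat.coprime_comm, Nat.Prime.coprime_iff_not_dvd Nat.prime_two]; omega
    exact Nat.Coprime.pow_right 3 this
  have hcM : Nat.Coprime c (8 * D * x) := (hc2.mul_right hcD).mul_right hcx
  obtain ⟨t, htN, htp, htc⟩ := Nat.forall_exists_prime_gt_and_eq_mod
    ((ZMod.isUnit_iff_coprime c (8 * D * x)).2 hcM) N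
  have hmod : t ≡ c [MOD 8 * D * x] := (ZMod.natCast_eq_natCast_iff _ _ _).1 htc
  have hdv : ((8 * D * x : ℕ) : ℤ) ∣ t - c := (Nat.modEq_iff_dvd.1 hmod.symm)
  have hDt : (D : ℤ) ∣ t - c := dvd_trans ⟨8 * x, by push_cast; ring⟩ hdv
  have hxt : (x : ℤ) ∣ t - c := dvd_trans ⟨8 * D, by push_cast; ring⟩ hdv
  have h8t : (8 : ℤ) ∣ t - c := dvd_trans ⟨D * x, by push_cast; ring⟩ hdv
  have ht8 : t % 8 = 3 := by omega
  have hto : Odd t := by rw [Nat.odd_iff]; omega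
  have hco : Odd c := by rw [Nat.odd_iff]; omega
  have hxo : Odd x := by rw [Nat.odd_iff]; omega
  have hqo : Odd q := by rw [Nat.odd_iff]; omega
  have hD4 : D % 4 = 1 := by omega
  have hx4 : x % 4 = 1 := by omega
  refine ⟨t, htp, htN, ht8, hDt, hxt, ?_, ?_, ?_⟩
  · apply sq_of_jac htp
    rw [jacobiSym.neg _ hto, ZMod.χ₄_nat_three_mod_four (by omega),
      jacobiSym.quadratic_reciprocity_one_mod_four hD4 hto,
      jacobiSym.mod_left' (a₂ := (c : ℤ)) ((Int.ModEq.symm ((Int.modEq_iff_dvd).2 hDt))),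
      ← jacobiSym.quadratic_reciprocity_one_mod_four hD4 hco]
    have h := jac_one hDc (by
      rw [Int.isCoprime_iff_gcd_eq_one]
      simpa [Int.gcd_natCast_natCast] using hcD.symm)
    rwa [jacobiSym.neg _ hco, ZMod.χ₄_nat_three_mod_four (by omega)] at h
  · apply sq_of_jac htp
    rw [jacobiSym.neg _ hto, ZMod.χ₄_nat_three_mod_four (by omega),
      jacobiSym.quadratic_reciprocity_one_mod_four hx4 hto,
      jacobiSym.mod_left' (a₂ := (c : ℤ)) ((Int.ModEq.symm ((Int.modEq_iff_dvd).2 hxt)))]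
    have h1 : jacobiSym (-((q : ℤ) * c)) x = 1 := by
      apply jac_all hx1
      intro p hp hpx
      apply jac_one (hl p hp hpx)
      have hpc : Nat.Coprime c p := Nat.Coprime.coprime_dvd_right hpx hcx
      have hpq : Nat.Coprime q p := by
        rw [Nat.coprime_primes hq hp]
        rintro rfl
        have h0 : jacobiSym x q = 0 := by
          rw [jacobiSym.eq_zero_iff]
          refine ⟨hq.ne_zero, ?_⟩
          intro h
          rw [Int.gcd_natCast_natCast] at h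
          exact hq.one_lt.ne' (Nat.dvd_one.1 (h ▸ Nat.dvd_gcd hpx (dvd_refl q)))
        rw [h0] at hxq
        exact absurd hxq (by norm_num)
      rw [Int.isCoprime_iff_gcd_eq_one]
      have := Nat.Coprime.mul_left hpq hpc
      exact_mod_cast this
    have h2 : jacobiSym (-((q : ℤ) * c)) x = jacobiSym q x * jacobiSym c x := by
      rw [jacobiSym.neg _ hxo, ZMod.χ₄_nat_one_mod_four hx4, one_mul, jacobiSym.mul_left]
    have h3 : jacobiSym q x = -1 := by
      rw [← jacobiSym.quadratic_reciprocity_one_mod_four hx4 hqo, hxq]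
    rw [h2, h3] at h1
    linarith
  · apply sq_of_jac hq
    rw [jacobiSym.neg _ hqo, ZMod.χ₄_nat_three_mod_four (by omega), hxq]
    norm_num

end Pool.Agent.H565R2.NS
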