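import Pool.Agent.H565R2.NS.Ex1
import Pool.Agent.H565R2.NS.Omg
import Pool.Agent.H565R2.NS.Qch
import Pool.Agent.H565R2.NS.Fst
import Pool.Agent.H565R2.NS.Tch
import Pool.Agent.H565R2.NS.Co1
import Pool.Agent.H565R2.NS.Co2

/-!
# Existence for `x = 1 mod 8`
-/

set_option autoImplicit false

namespace Pool.Agent.H565R2.NS

theorem odd_sq_mod {n : ℤ} (h : n % 2 = 1) : n ^ 2 % 8 = 1 := by
  have : n % 8 = 1 ∨ n % 8 = 3 ∨ n % 8 = 5 ∨ n % 8 = 7 := by omega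
  rcases this with h | h | h | h <;> simp [pow_two, Int.mul_emod, h]

theorem D_mod (d : Dat ℤ) {x : ℕ} (h8 : x % 8 = 1) (hdX : d.X = x) (he : d.e % 2 = 1)
    (hb8 : d.b11 % 8 = 3) : d.D % 8 = 1 := by
  rw [d.D_eq]
  have hw8 : (d.w1 ^ 2 + d.w2 ^ 2) % 8 = 0 := by
    have he2 := odd_sq_mod he
    have h5 : d.e ^ 2 + d.w1 ^ 2 + d.w2 ^ 2 = x := hdX
    omega
  have hod : (8 * d.iota + d.e * d.b11) % 2 = 1 := by
    have h5 : d.b11 % 2 = 1 := by omega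
    have : (d.e * d.b11) % 2 = 1 := by rw [Int.mul_emod, h5, he]; rfl
    omega
  have hsq := odd_sq_mod hod
  have h9 : (9 * d.q ^ 2 * (d.w1 ^ 2 + d.w2 ^ 2)) % 8 = 0 := by
    apply Int.emod_eq_zero_of_dvd
    apply Dvd.dvd.mul_left
    exact Int.dvd_of_emod_eq_zero hw8
  omega

theorem exists_W {x : ℕ} (hx : Squarefree x) (h8 : x % 8 = 1) (h1 : 1 < x) :
    ∃ l : ℚ, W1 x l ∨ W2 x l := by
  obtain ⟨e, w1, w2, c1, c2, c3, γ, hX, he, hw1, hw2, horth, hγ, hγ8, hγx, hg1, hg2⟩ :=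
    exists_omega hx h8
  have hxsq := not_sq_of_squarefree hx h1
  -- the number `M`
  have hw0 : w1 ^ 2 + w2 ^ 2 ≠ 0 := by
    intro h
    apply mul_sq_ne hxsq e 1 one_ne_zero
    linarith
  have hM0 : (25 * x - 16 * e ^ 2) * (w1 ^ 2 + w2 ^ 2) ≠ 0 := by
    apply mul_ne_zero _ hw0
    intro h
    apply mul_sq_ne hxsq (4 * e) 5 (by norm_num)
    linarith
  obtain ⟨h0, h1', h2, h3, q, hqp, hNq, hq8, hjac, hq, hqb, hb8, hcont⟩ :=
    exists_h hx h8 h1 _ hM0 (max γ x)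
  have hγq : γ < q := lt_of_le_of_lt (le_max_left _ _) hNq
  have hxq : x < q := lt_of_le_of_lt (le_max_right _ _) hNq
  obtain ⟨d, hde, hdw1, hdw2, hdX, hdq, hdb⟩ : ∃ d : Dat ℤ, d.e = e ∧ d.w1 = w1 ∧ d.w2 = w2 ∧
      d.X = x ∧ d.q = q ∧ d.b11 = h0 ^ 2 + h1' ^ 2 + 9 * (h2 ^ 2 + h3 ^ 2) :=
    ⟨⟨e, w1, w2, h0, h1', h2, h3⟩, rfl, rfl, rfl, hX, hq, rfl⟩
  rw [← hdb] at hqb hb8 hcont
  rw [← hde, ← hdw1, ← hdw2] at hcont
  have hD8 : d.D % 8 = 1 := D_mod d h8 hdX (by rw [hde]; exact he) hb8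
  have hD0 : 0 < d.D := by
    rw [d.D_eq]
    have h5 : 0 < w1 ^ 2 + w2 ^ 2 := lt_of_le_of_ne (by positivity) (Ne.symm hw0)
    have hqpos : (0 : ℤ) < q := by exact_mod_cast hqp.pos
    have h6 : 0 < 9 * d.q ^ 2 * (d.w1 ^ 2 + d.w2 ^ 2) := by
      rw [hdq, hdw1, hdw2]; positivity
    have h7 : 0 ≤ (8 * d.iota + d.e * d.b11) ^ 2 := sq_nonneg _
    linarith
  have hb0 : 0 < d.b11 := by
    have h5 : 0 ≤ d.b11 := by rw [hdb]; positivity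
    omega
  have hDdef : d.D = d.b11 * d.b22 - d.b12 ^ 2 := rfl
  -- good value
  obtain ⟨f0, f1, c, hc, hfc, hc8, hcD, hcx, hcl⟩ :=
    exists_value (b11 := d.b11) (b12 := d.b12) (b22 := d.b22) (x := x) (q := q) h8 hx hb8 hD8 hb0
      hD0 (local_one d hdX hdq hqp hqb hD8 hcont) (local_two d hx h8 hdX hdq hqp hxq)
  obtain ⟨sD, hsD⟩ := root_of_primitive (b11 := d.b11) (b12 := d.b12) (b22 := d.b22) hfc
  rw [hc, ← hDdef] at hsD
  obtain ⟨D, hDn⟩ : ∃ D : ℕ, d.D = D := ⟨d.D.toNat, by omega⟩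
  rw [hDn] at hsD
  have hcDn : Nat.Coprime c D := by
    rw [← hDdef, hDn] at hcD
    exact Nat.isCoprime_iff_coprime.1 hcD
  have hD8n : D % 8 = 1 := by rw [hDn] at hD8; omega
  obtain ⟨t, htp, hNt, ht8, htD, htx, hsDt, hsxt, hsxq⟩ :=
    exists_t h8 hx hc8 hD8n hcDn hcx hqp hq8 hjac ⟨sD, hsD⟩ hcl (max c (max D q))
  have hct : c < t := lt_of_le_of_lt (le_max_left _ _) hNt
  have hDt : D < t := lt_of_le_of_lt ((le_max_left _ _).trans (le_max_right _ _)) hNt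
  have hqt : q < t := lt_of_le_of_lt ((le_max_right _ _).trans (le_max_right _ _)) hNt
  obtain ⟨g0, g1, Z, hZ, hB⟩ := conic_one (hDdef.symm.trans hDn) hc hD8n hc8 htp ht8 hct hDt hcDn
    ⟨sD, hsD⟩ htD hsDt
  obtain ⟨a1, a2, a3, Z', hZ', haorth, ha⟩ := conic_two hx h8 hX horth hγ hγ8 hγx hg1 hg2 hqp hq8
    hγq hxq htp ht8 hqt hsxq hsxt htx hcl
  -- the numbers `P`, `Q`
  have hA := d.norm_z g0 g1
  rw [hdq, hdX] at hA
  have hB' := d.B_z g0 g1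
  rw [Dat.B, hB] at hB'
  exact last_step h8 hq8 htp.ne_zero hX hZ hZ' hA hB' haorth ha

end Pool.Agent.H565R2.NS
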