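import Pool.Agent.H565R2.NS.Defs
import Pool.Agent.H591R2.ThreeSq

set_option autoImplicit false

namespace Pool.Agent.H565R2.NS

namespace Mem

theorem S3_of {N : ℤ} (hN : N % 8 = 3) (h0 : 0 ≤ N) {c : ℚ} (hc : c ≠ 0) {q : ℚ}
    (hq : q * c ^ 2 = (N : ℚ)) : S3 q := by
  obtain ⟨n, rfl⟩ := Int.eq_ofNat_of_zero_le h0
  obtain ⟨a, b, d, h⟩ := Pool.Agent.H591R2.three_squares (m := n) (by omega)
  refine ⟨a / c, b / c, d / c, ?_⟩
  have h' : (a : ℚ) ^ 2 + (b : ℚ) ^ 2 + (d : ℚ) ^ 2 = (n : ℚ) := by exact_mod_cast h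
  have h2 : q * c ^ 2 = (n : ℚ) := by rw [hq]; norm_num
  field_simp
  linarith

theorem sq_odd {M : ℤ} (hM : M % 2 = 1) : M ^ 2 % 8 = 1 := by
  rcases (by omega : M % 8 = 1 ∨ M % 8 = 3 ∨ M % 8 = 5 ∨ M % 8 = 7) with h | h | h | h <;>
    simp [pow_two, Int.mul_emod, h]

end Mem

open Mem in
/-- MEM (file `Mem.lean`) the memberships in `c • S3`. -/
theorem mem_W {x : ℤ} (hx : x % 8 = 1) {l : ℚ} (h1 : S2 (x - l ^ 2)) (h2 : S2 (x - 4 * l ^ 2))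
    {L M : ℤ} (hL : L % 2 = 1) (hM : M % 2 = 1)
    (h : l = 2 * L / M ∨ (l = L / M ∧ (16 : ℤ) ∣ x * M ^ 2 - L ^ 2)) :
    W1 x l ∨ W2 x l := by
  have hM0 : (M : ℚ) ≠ 0 := by
    intro h0
    have : M = 0 := by exact_mod_cast h0
    rw [this] at hM
    simp at hM
  have hMsq : (0 : ℚ) < (M : ℚ) ^ 2 := by positivity
  have hM8 := sq_odd hM
  have hL8 := sq_odd hL
  have hxM : x * M ^ 2 % 8 = 1 := by rw [Int.mul_emod, hx, hM8]; norm_num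
  have p1 : 0 ≤ (x : ℚ) - l ^ 2 := by obtain ⟨a, b, h⟩ := h1; rw [h]; positivity
  have p2 : 0 ≤ (x : ℚ) - 4 * l ^ 2 := by obtain ⟨a, b, h⟩ := h2; rw [h]; positivity
  have c7 : (7 * (M : ℚ)) ≠ 0 := mul_ne_zero (by norm_num) hM0
  have c3 : (3 * (M : ℚ)) ≠ 0 := mul_ne_zero (by norm_num) hM0
  rcases h with h | ⟨h, h16⟩
  · left
    have e : l ^ 2 * (M : ℚ) ^ 2 = 4 * (L : ℚ) ^ 2 := by rw [h]; field_simp; ring
    have q1 : (0 : ℚ) ≤ ((x * M ^ 2 - 4 * L ^ 2 : ℤ) : ℚ) := by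
      push_cast
      have := mul_nonneg p1 hMsq.le
      nlinarith
    have q2 : (0 : ℚ) ≤ ((x * M ^ 2 - 16 * L ^ 2 : ℤ) : ℚ) := by
      push_cast
      have := mul_nonneg p2 hMsq.le
      nlinarith
    have r1 : 0 ≤ x * M ^ 2 - 4 * L ^ 2 := by exact_mod_cast q1
    have r2 : 0 ≤ x * M ^ 2 - 16 * L ^ 2 := by exact_mod_cast q2
    refine ⟨h1, h2, ?_, ?_⟩
    · refine S3_of (N := 7 * (x * M ^ 2 - 4 * L ^ 2)) (by omega) (by omega) c7 ?_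
      push_cast
      linear_combination (-7 : ℚ) * e
    · refine S3_of (N := 3 * (x * M ^ 2 - 16 * L ^ 2)) (by omega) (by omega) c3 ?_
      push_cast
      linear_combination (-12 : ℚ) * e
  · right
    have e : l ^ 2 * (M : ℚ) ^ 2 = (L : ℚ) ^ 2 := by rw [h]; field_simp
    have q2 : (0 : ℚ) ≤ ((x * M ^ 2 - 4 * L ^ 2 : ℤ) : ℚ) := by
      push_cast
      have := mul_nonneg p2 hMsq.le
      nlinarith
    have r2 : 0 ≤ x * M ^ 2 - 4 * L ^ 2 := by exact_mod_cast q2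
    have r3 : 0 ≤ L ^ 2 := sq_nonneg L
    obtain ⟨k, hk⟩ := h16
    refine ⟨h1, h2, ?_, ?_⟩
    · refine S3_of (N := 7 * (x * M ^ 2 - 4 * L ^ 2)) (by omega) (by omega) c7 ?_
      push_cast
      linear_combination (-28 : ℚ) * e
    · refine S3_of (N := 3 * (L ^ 2 + 8 * k)) (by omega) (by omega) c3 ?_
      have hkq : (x : ℚ) * (M : ℚ) ^ 2 - (L : ℚ) ^ 2 = 16 * (k : ℚ) := by exact_mod_cast hk
      push_cast
      linear_combination (3 / 2 : ℚ) * e + (3 / 2 : ℚ) * hkq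

end Pool.Agent.H565R2.NS
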