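import Pool.Agent.H565R2.NS.Defs

/-!
# Rotation of `ω`
-/

set_option autoImplicit false

namespace Pool.Agent.H565R2.NS

theorem Rot.fin {x P Q b1 b2 l k1 k2 : ℚ} (hk : l ^ 2 + k1 ^ 2 + k2 ^ 2 = x)
    (ho : l * (P + 3 * Q) + k1 * b1 + k2 * b2 = 0) (hb : b1 ^ 2 + b2 ^ 2 = 4 * P * Q) :
    ∃ l t : ℚ, S2 (x - l ^ 2) ∧ 4 * P * Q * (x - l ^ 2) = l ^ 2 * (P + 3 * Q) ^ 2 + t ^ 2 := by
  refine ⟨l, k1 * b2 - k2 * b1, ⟨k1, k2, by rw [← hk]; ring⟩, ?_⟩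
  have h1 : l * (P + 3 * Q) = -(k1 * b1 + k2 * b2) := by linarith
  have h2 : l ^ 2 * (P + 3 * Q) ^ 2 = (k1 * b1 + k2 * b2) ^ 2 := by
    rw [← mul_pow, h1]; ring
  rw [h2, ← hk, ← hb]
  ring

/-- ROT (file `Rot.lean`) rotation of `ω`. -/
theorem rotation {x e w1 w2 a1 a2 a3 P Q b1 b2 : ℚ} (hX : e ^ 2 + w1 ^ 2 + w2 ^ 2 = x)
    (horth : e * a1 + w1 * a2 + w2 * a3 = 0) (hb : b1 ^ 2 + b2 ^ 2 = 4 * P * Q)
    (ha : a1 ^ 2 + a2 ^ 2 + a3 ^ 2 = (P + Q) * (P + 9 * Q)) :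
    ∃ l t : ℚ, S2 (x - l ^ 2) ∧ 4 * P * Q * (x - l ^ 2) = l ^ 2 * (P + 3 * Q) ^ 2 + t ^ 2 := by
  obtain ⟨n1, hn1⟩ : ∃ n1, n1 = P + 3 * Q := ⟨_, rfl⟩
  obtain ⟨g1, hg1⟩ : ∃ g, g = a1 + n1 := ⟨_, rfl⟩
  obtain ⟨g2, hg2⟩ : ∃ g, g = a2 + b1 := ⟨_, rfl⟩
  obtain ⟨g3, hg3⟩ : ∃ g, g = a3 + b2 := ⟨_, rfl⟩
  have hn : n1 ^ 2 + b1 ^ 2 + b2 ^ 2 = a1 ^ 2 + a2 ^ 2 + a3 ^ 2 := by
    rw [add_assoc, hb, ha, hn1]; ring
  obtain ⟨G, hG⟩ : ∃ G, G = g1 ^ 2 + g2 ^ 2 + g3 ^ 2 := ⟨_, rfl⟩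
  by_cases h0 : G = 0
  · have e1 : g1 = 0 := by
      have : g1 ^ 2 = 0 := by nlinarith [sq_nonneg g1, sq_nonneg g2, sq_nonneg g3]
      exact pow_eq_zero_iff (two_ne_zero) |>.1 this
    have e2 : g2 = 0 := by
      have : g2 ^ 2 = 0 := by nlinarith [sq_nonneg g1, sq_nonneg g2, sq_nonneg g3]
      exact pow_eq_zero_iff (two_ne_zero) |>.1 this
    have e3 : g3 = 0 := by
      have : g3 ^ 2 = 0 := by nlinarith [sq_nonneg g1, sq_nonneg g2, sq_nonneg g3]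
      exact pow_eq_zero_iff (two_ne_zero) |>.1 this
    refine Rot.fin hX ?_ hb
    have f1 : n1 = -a1 := by linarith
    have f2 : b1 = -a2 := by linarith
    have f3 : b2 = -a3 := by linarith
    rw [← hn1, f1, f2, f3]
    linarith
  · obtain ⟨s, hs⟩ : ∃ s, s = e * g1 + w1 * g2 + w2 * g3 := ⟨_, rfl⟩
    obtain ⟨c, hc⟩ : ∃ c, c * G = 2 * s := ⟨2 * s / G, by field_simp⟩
    have hsn : s = e * n1 + w1 * b1 + w2 * b2 := by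
      rw [hs, hg1, hg2, hg3]; linarith
    have hGn : g1 * n1 + g2 * b1 + g3 * b2 = G / 2 := by
      rw [hG, hg1, hg2, hg3]; linarith
    refine Rot.fin (l := -e + c * g1) (k1 := -w1 + c * g2) (k2 := -w2 + c * g3) ?_ ?_ hb
    · have : (-e + c * g1) ^ 2 + (-w1 + c * g2) ^ 2 + (-w2 + c * g3) ^ 2 =
          (e ^ 2 + w1 ^ 2 + w2 ^ 2) - 2 * c * s + c * (c * G) := by
        rw [hs, hG]; ring
      rw [this, hc, hX]; ring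
    · rw [← hn1]
      have : (-e + c * g1) * n1 + (-w1 + c * g2) * b1 + (-w2 + c * g3) * b2 =
          -(e * n1 + w1 * b1 + w2 * b2) + c * (g1 * n1 + g2 * b1 + g3 * b2) := by ring
      rw [this, hGn, ← hsn]
      linarith

end Pool.Agent.H565R2.NS
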