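import Pool.Agent.H565R2.NS.Defs

set_option autoImplicit false

namespace Pool.Agent.H565R2.NS

namespace Two

theorem odd_sq (a : ℤ) (h : a % 2 = 1) : ∃ m, a ^ 2 = 8 * m + 1 := by
  obtain ⟨b, hb⟩ : ∃ b, a = 2 * b + 1 := ⟨a / 2, by omega⟩
  have h2 : b * (b + 1) % 2 = 0 := by
    rcases Int.emod_two_eq_zero_or_one b with h | h
    · rw [Int.mul_emod, h]; norm_num
    · rw [Int.mul_emod, Int.add_emod, h]; norm_num
  refine ⟨b * (b + 1) / 2, ?_⟩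
  have h3 : 2 * (b * (b + 1) / 2) = b * (b + 1) := by omega
  have h4 : a ^ 2 = 4 * (b * (b + 1)) + 1 := by rw [hb]; ring
  omega

theorem even_sq (a : ℤ) (h : a % 2 = 0) : ∃ m, a ^ 2 = 4 * m := by
  obtain ⟨b, hb⟩ : ∃ b, a = 2 * b := ⟨a / 2, by omega⟩
  exact ⟨b ^ 2, by rw [hb]; ring⟩

/-- `2^k (4m+1)` -/
def C1 (n : ℤ) : Prop := ∃ (k : ℕ) (m : ℤ), n = 2 ^ k * (4 * m + 1)
/-- `2^k (4m+3)` -/
def C3 (n : ℤ) : Prop := ∃ (k : ℕ) (m : ℤ), n = 2 ^ k * (4 * m + 3)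

theorem pow_odd_aux {k j : ℕ} {a b : ℤ} (ha : a % 2 = 1) (h : (2:ℤ) ^ k * a = 2 ^ j * b) :
    j ≤ k := by
  by_contra hlt
  push Not at hlt
  obtain ⟨d, hd⟩ : ∃ d, j = k + (d + 1) := ⟨j - k - 1, by omega⟩
  rw [hd, pow_add, mul_assoc] at h
  have h2 : a = 2 ^ (d + 1) * b := mul_left_cancel₀ (pow_ne_zero k two_ne_zero) h
  rw [pow_succ] at h2
  have : a = 2 * (2 ^ d * b) := by rw [h2]; ring
  omega

theorem pow_odd {k j : ℕ} {a b : ℤ} (ha : a % 2 = 1) (hb : b % 2 = 1)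
    (h : (2:ℤ) ^ k * a = 2 ^ j * b) : k = j ∧ a = b := by
  have h1 := pow_odd_aux ha h
  have h2 := pow_odd_aux hb h.symm
  have h3 : k = j := le_antisymm h2 h1
  subst h3
  exact ⟨rfl, mul_left_cancel₀ (pow_ne_zero k two_ne_zero) h⟩

theorem C1_form {x : ℤ} (hx : x % 8 = 1) : ∀ (n : ℕ) (a b : ℤ), a.natAbs + b.natAbs = n →
    a ^ 2 + x * b ^ 2 ≠ 0 → C1 (a ^ 2 + x * b ^ 2) := by
  intro n
  induction n using Nat.strong_induction_on with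
  | _ n ih =>
  intro a b hn h0
  obtain ⟨y, hy⟩ : ∃ y, x = 8 * y + 1 := ⟨x / 8, by omega⟩
  rcases Int.emod_two_eq_zero_or_one a with ha | ha <;>
  rcases Int.emod_two_eq_zero_or_one b with hb | hb
  · obtain ⟨a', ha'⟩ : ∃ a', a = 2 * a' := ⟨a / 2, by omega⟩
    obtain ⟨b', hb'⟩ : ∃ b', b = 2 * b' := ⟨b / 2, by omega⟩
    have e : a ^ 2 + x * b ^ 2 = 4 * (a' ^ 2 + x * b' ^ 2) := by rw [ha', hb']; ring
    have h1 : a' ^ 2 + x * b' ^ 2 ≠ 0 := by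
      intro h; apply h0; rw [e, h]; ring
    have hpos : 0 < a.natAbs + b.natAbs := by
      rcases Nat.eq_zero_or_pos (a.natAbs + b.natAbs) with h | h
      · exfalso
        have h2 : a = 0 := by omega
        have h3 : b = 0 := by omega
        apply h0; rw [h2, h3]; ring
      · exact h
    obtain ⟨k, m, hk⟩ := ih (a'.natAbs + b'.natAbs) (by omega) a' b' rfl h1
    refine ⟨k + 2, m, ?_⟩
    rw [e, hk, pow_add]; ring
  · obtain ⟨m1, h1⟩ := even_sq a ha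
    obtain ⟨m2, h2⟩ := odd_sq b hb
    refine ⟨0, m1 + 2 * m2 + 2 * y * (8 * m2 + 1), ?_⟩
    rw [h1, h2, hy]; ring
  · obtain ⟨m1, h1⟩ := odd_sq a ha
    obtain ⟨m2, h2⟩ := even_sq b hb
    refine ⟨0, 2 * m1 + x * m2, ?_⟩
    rw [h1, h2]; ring
  · obtain ⟨m1, h1⟩ := odd_sq a ha
    obtain ⟨m2, h2⟩ := odd_sq b hb
    refine ⟨1, m1 + m2 + y * (8 * m2 + 1), ?_⟩
    rw [h1, h2, hy]; ring

theorem C1_sum (a b : ℤ) (h : a ^ 2 + b ^ 2 ≠ 0) : C1 (a ^ 2 + b ^ 2) := by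
  have := C1_form (x := 1) (by norm_num) _ a b rfl (by simpa using h)
  simpa using this

theorem C1_C3 {n : ℤ} (h1 : C1 n) (h3 : C3 n) : False := by
  obtain ⟨k, m, hk⟩ := h1
  obtain ⟨j, m', hj⟩ := h3
  have := pow_odd (k := k) (j := j) (a := 4 * m + 1) (b := 4 * m' + 3) (by omega) (by omega)
    (hk ▸ hj)
  omega

/-- primitive common denominators -/
theorem common_den (l t : ℚ) : ∃ L M T : ℤ, M ≠ 0 ∧ l * M = L ∧ t * M = T ∧
    ¬ (L % 2 = 0 ∧ M % 2 = 0 ∧ T % 2 = 0) := by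
  have key : ∀ (n : ℕ) (L M T : ℤ), M.natAbs = n → M ≠ 0 → l * M = L → t * M = T →
      ∃ L M T : ℤ, M ≠ 0 ∧ l * M = L ∧ t * M = T ∧ ¬ (L % 2 = 0 ∧ M % 2 = 0 ∧ T % 2 = 0) := by
    intro n
    induction n using Nat.strong_induction_on with
    | _ n ih =>
    intro L M T hn hM h1 h2
    by_cases hev : L % 2 = 0 ∧ M % 2 = 0 ∧ T % 2 = 0
    · obtain ⟨L', hL'⟩ : ∃ a', L = 2 * a' := ⟨L / 2, by omega⟩
      obtain ⟨M', hM'⟩ : ∃ a', M = 2 * a' := ⟨M / 2, by omega⟩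
      obtain ⟨T', hT'⟩ : ∃ a', T = 2 * a' := ⟨T / 2, by omega⟩
      refine ih M'.natAbs (by omega) L' M' T' rfl (by omega) ?_ ?_
      · rw [hL', hM'] at h1; push_cast at h1; linarith
      · rw [hT', hM'] at h2; push_cast at h2; linarith
    · exact ⟨L, M, T, hM, h1, h2, hev⟩
  have hl := Rat.mul_den_eq_num l
  have ht := Rat.mul_den_eq_num t
  refine key _ (l.num * t.den) (l.den * t.den) (t.num * l.den) rfl ?_ ?_ ?_
  · exact mul_ne_zero (by exact_mod_cast l.den_ne_zero) (by exact_mod_cast t.den_ne_zero)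
  · push_cast
    rw [← hl]; ring
  · push_cast
    rw [← ht]; ring

/-- the core of the argument, after removal of the common power of two -/
theorem core {x P Q S L M T : ℤ} (hx : x % 8 = 1) (hS : P + Q = S)
    (hc : (∃ u, P * Q = 2 * (4 * u + 1) ∧ S % 4 = 3) ∨
      (P % 4 = 1 ∧ Q % 4 = 1 ∧ ∃ c, S = 2 * c ∧ c % 4 = 3))
    (hev : ¬ (L % 2 = 0 ∧ M % 2 = 0 ∧ T % 2 = 0))
    (h : 4 * P * Q * x * M ^ 2 = L ^ 2 * (S * (S + 8 * Q)) + T ^ 2) :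
    ∃ L' M' : ℤ, L' % 2 = 1 ∧ M' % 2 = 1 ∧ M' = M ∧
      (L = 2 * L' ∨ (L = L' ∧ (16 : ℤ) ∣ x * M' ^ 2 - L' ^ 2)) := by
  obtain ⟨y, hy⟩ : ∃ y, x = 8 * y + 1 := ⟨x / 8, by omega⟩
  rcases hc with ⟨u, hPQ, hS4⟩ | ⟨hP4, hQ4, c, hSc, hc4⟩
  · -- case I
    obtain ⟨s, hs⟩ := odd_sq S (by omega)
    have hK : ∃ κ, S * (S + 8 * Q) = 8 * κ + 1 := ⟨s + S * Q, by nlinarith⟩
    obtain ⟨κ, hκ⟩ := hK
    have h1 : 8 * ((4 * u + 1) * x * M ^ 2) = 8 * (L ^ 2 * κ) + L ^ 2 + T ^ 2 := by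
      rw [hκ] at h
      linear_combination h - 4 * x * M ^ 2 * hPQ
    have hLT : L % 2 = 0 ∧ T % 2 = 0 := by
      rcases Int.emod_two_eq_zero_or_one L with hL | hL <;>
      rcases Int.emod_two_eq_zero_or_one T with hT | hT
      · exact ⟨hL, hT⟩
      · obtain ⟨m1, h1'⟩ := even_sq L hL
        obtain ⟨m2, h2'⟩ := odd_sq T hT
        omega
      · obtain ⟨m1, h1'⟩ := odd_sq L hL
        obtain ⟨m2, h2'⟩ := even_sq T hT
        omega
      · obtain ⟨m1, h1'⟩ := odd_sq L hL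
        obtain ⟨m2, h2'⟩ := odd_sq T hT
        omega
    have hM : M % 2 = 1 := by
      rcases Int.emod_two_eq_zero_or_one M with hM | hM
      · exact absurd ⟨hLT.1, hM, hLT.2⟩ hev
      · exact hM
    obtain ⟨L1, hL1⟩ : ∃ b, L = 2 * b := ⟨L / 2, by omega⟩
    obtain ⟨T1, hT1⟩ : ∃ b, T = 2 * b := ⟨T / 2, by omega⟩
    have h2 : 2 * ((4 * u + 1) * x * M ^ 2) = 8 * (L1 ^ 2 * κ) + L1 ^ 2 + T1 ^ 2 := by
      rw [hL1, hT1] at h1
      nlinarith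
    obtain ⟨m, hm⟩ := odd_sq M hM
    have h3 : (4 * u + 1) * x * M ^ 2 = 4 * (u * x * M ^ 2 + 2 * y * M ^ 2 + 2 * m) + 1 := by
      rw [hm, hy]; ring
    have hL1o : L1 % 2 = 1 := by
      rcases Int.emod_two_eq_zero_or_one L1 with hL | hL
      · exfalso
        obtain ⟨m1, h1'⟩ := even_sq L1 hL
        rcases Int.emod_two_eq_zero_or_one T1 with hT | hT
        · obtain ⟨m2, h2'⟩ := even_sq T1 hT
          omega
        · obtain ⟨m2, h2'⟩ := odd_sq T1 hT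
          omega
      · exact hL
    exact ⟨L1, M, hL1o, hM, rfl, Or.inl hL1⟩
  · -- case II
    have hPQc : P = 2 * c - Q := by omega
    obtain ⟨s, hs⟩ := odd_sq c (by omega)
    obtain ⟨q, hq⟩ : ∃ q, Q = 4 * q + 1 := ⟨Q / 4, by omega⟩
    obtain ⟨d, hd⟩ : ∃ d, c = 4 * d + 3 := ⟨c / 4, by omega⟩
    -- `T` is even
    have hT : T % 2 = 0 := by
      rcases Int.emod_two_eq_zero_or_one T with hT | hT
      · exact hT
      · exfalso
        obtain ⟨m2, h2'⟩ := odd_sq T hT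
        have : 4 * (P * Q * x * M ^ 2) = 4 * (L ^ 2 * (c * (c + 4 * Q))) + T ^ 2 := by
          rw [hSc] at h; linear_combination h
        omega
    obtain ⟨T1, hT1⟩ : ∃ b, T = 2 * b := ⟨T / 2, by omega⟩
    have h1 : P * Q * x * M ^ 2 = L ^ 2 * (c * (c + 4 * Q)) + T1 ^ 2 := by
      rw [hSc, hT1] at h; nlinarith
    -- residues modulo 8
    have hK : ∃ κ, c * (c + 4 * Q) = 8 * κ + 5 := by
      refine ⟨s + 8 * d * q + 2 * d + 6 * q + 1, ?_⟩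
      have : c * (c + 4 * Q) = c ^ 2 + 4 * c * Q := by ring
      rw [this, hs, hq, hd]; ring
    obtain ⟨κ, hκ⟩ := hK
    have hR : ∃ ρ, P * Q = 8 * ρ + 5 := by
      refine ⟨4 * d * q + d + q - 2 * q ^ 2 + q, ?_⟩
      rw [hPQc, hq, hd]; ring
    obtain ⟨ρ, hρ⟩ := hR
    have h2 : 8 * (ρ * x * M ^ 2 + 5 * y * M ^ 2) + 5 * M ^ 2
        = 8 * (κ * L ^ 2) + 5 * L ^ 2 + T1 ^ 2 := by
      have e1 : P * Q * x * M ^ 2 = 8 * (ρ * x * M ^ 2 + 5 * y * M ^ 2) + 5 * M ^ 2 := by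
        rw [hρ]
        have : (8 * ρ + 5) * x * M ^ 2 = 8 * (ρ * x * M ^ 2) + 5 * x * M ^ 2 := by ring
        rw [this]
        have : 5 * x * M ^ 2 = 5 * (8 * y + 1) * M ^ 2 := by rw [hy]
        rw [this]; ring
      rw [← e1, h1, hκ]; ring
    rcases Int.emod_two_eq_zero_or_one M with hM | hM
    · -- M even, so L odd
      exfalso
      have hL : L % 2 = 1 := by
        rcases Int.emod_two_eq_zero_or_one L with hL | hL
        · exact absurd ⟨hL, hM, hT⟩ hev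
        · exact hL
      obtain ⟨m, hm⟩ := even_sq M hM
      obtain ⟨m1, hm1⟩ := odd_sq L hL
      rcases Int.emod_two_eq_zero_or_one T1 with hT' | hT'
      · obtain ⟨m2, hm2⟩ := even_sq T1 hT'
        omega
      · obtain ⟨m2, hm2⟩ := odd_sq T1 hT'
        omega
    · obtain ⟨m, hm⟩ := odd_sq M hM
      rcases Int.emod_two_eq_zero_or_one L with hL | hL
      · -- L even
        obtain ⟨L1, hL1⟩ : ∃ b, L = 2 * b := ⟨L / 2, by omega⟩
        refine ⟨L1, M, ?_, hM, rfl, Or.inl hL1⟩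
        rcases Int.emod_two_eq_zero_or_one L1 with hL' | hL'
        · exfalso
          obtain ⟨L2, hL2⟩ : ∃ b, L1 = 2 * b := ⟨L1 / 2, by omega⟩
          have hLL : L ^ 2 = 16 * L2 ^ 2 := by rw [hL1, hL2]; ring
          rcases Int.emod_two_eq_zero_or_one T1 with hT' | hT'
          · obtain ⟨m2, hm2⟩ := even_sq T1 hT'
            omega
          · obtain ⟨m2, hm2⟩ := odd_sq T1 hT'
            omega
        · exact hL'
      · -- L odd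
        refine ⟨L, M, hL, hM, rfl, Or.inr ⟨rfl, ?_⟩⟩
        obtain ⟨m1, hm1⟩ := odd_sq L hL
        have hT4 : T1 % 4 = 0 := by
          rcases Int.emod_two_eq_zero_or_one T1 with hT' | hT'
          · obtain ⟨T2, hT2⟩ : ∃ b, T1 = 2 * b := ⟨T1 / 2, by omega⟩
            rcases Int.emod_two_eq_zero_or_one T2 with hT'' | hT''
            · omega
            · exfalso
              obtain ⟨m3, hm3⟩ := odd_sq T2 hT''
              have : T1 ^ 2 = 4 * T2 ^ 2 := by rw [hT2]; ring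
              omega
          · exfalso
            obtain ⟨m2, hm2⟩ := odd_sq T1 hT'
            omega
        obtain ⟨T2, hT2⟩ : ∃ b, T1 = 4 * b := ⟨T1 / 4, by omega⟩
        obtain ⟨r, hr⟩ : ∃ r, c + Q = 4 * r := ⟨(c + Q) / 4, by omega⟩
        have hkey : P * Q * (x * M ^ 2 - L ^ 2) = 16 * (r ^ 2 * L ^ 2 + T2 ^ 2) := by
          have e2 : c * (c + 4 * Q) - P * Q = (c + Q) ^ 2 := by rw [hPQc]; ring
          have e3 : P * Q * (x * M ^ 2 - L ^ 2)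
              = (c * (c + 4 * Q) - P * Q) * L ^ 2 + T1 ^ 2 := by linear_combination h1
          rw [e3, e2, hr, hT2]; ring
        have hcop : IsCoprime (16 : ℤ) (P * Q) := by
          rw [hρ]
          have : IsCoprime (2 : ℤ) (8 * ρ + 5) := ⟨-(4 * ρ + 2), 1, by ring⟩
          have h16 : (16 : ℤ) = 2 ^ 4 := by norm_num
          rw [h16]
          exact this.pow_left
        exact hcop.dvd_of_dvd_mul_left ⟨_, hkey⟩

end Two

open Two in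
/-- TWO (file `Two.lean`) the 2-adic analysis. -/
theorem two_adic {x z0 z1 z2 z3 f0 f1 q : ℤ} (hx : x % 8 = 1) (hq : q % 8 = 3)
    (h0 : z0 ^ 2 + z1 ^ 2 + z2 ^ 2 + z3 ^ 2 = q * (f0 ^ 2 + x * f1 ^ 2))
    (hz : z0 ^ 2 + z1 ^ 2 + z2 ^ 2 + z3 ^ 2 ≠ 0) {l t : ℚ}
    (h : 4 * ((z0 : ℚ) ^ 2 + z1 ^ 2) * (z2 ^ 2 + z3 ^ 2) * x
      = l ^ 2 * ((z0 ^ 2 + z1 ^ 2) + (z2 ^ 2 + z3 ^ 2)) * ((z0 ^ 2 + z1 ^ 2)
        + 9 * (z2 ^ 2 + z3 ^ 2)) + t ^ 2) :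
    z0 ^ 2 + z1 ^ 2 ≠ 0 ∧ z2 ^ 2 + z3 ^ 2 ≠ 0 ∧ ∃ L M : ℤ, L % 2 = 1 ∧ M % 2 = 1 ∧
      (l = 2 * L / M ∨ (l = L / M ∧ (16 : ℤ) ∣ x * M ^ 2 - L ^ 2)) := by
  have hf : f0 ^ 2 + x * f1 ^ 2 ≠ 0 := by
    intro hf
    rw [hf, mul_zero] at h0
    exact hz h0
  obtain ⟨kf, mf, hkf⟩ := C1_form hx _ f0 f1 rfl hf
  have hS3 : C3 (z0 ^ 2 + z1 ^ 2 + (z2 ^ 2 + z3 ^ 2)) := by
    obtain ⟨q', hq'⟩ : ∃ q', q = 8 * q' + 3 := ⟨q / 8, by omega⟩
    refine ⟨kf, 8 * q' * mf + 2 * q' + 3 * mf, ?_⟩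
    have : z0 ^ 2 + z1 ^ 2 + (z2 ^ 2 + z3 ^ 2) = z0 ^ 2 + z1 ^ 2 + z2 ^ 2 + z3 ^ 2 := by ring
    rw [this, h0, hkf, hq']; ring
  have hP : z0 ^ 2 + z1 ^ 2 ≠ 0 := by
    intro hP
    by_cases hQ : z2 ^ 2 + z3 ^ 2 = 0
    · apply hz
      linarith
    · have := C1_sum z2 z3 hQ
      rw [hP, zero_add] at hS3
      exact C1_C3 this hS3
  have hQ : z2 ^ 2 + z3 ^ 2 ≠ 0 := by
    intro hQ
    have := C1_sum z0 z1 hP
    rw [hQ, add_zero] at hS3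
    exact C1_C3 this hS3
  refine ⟨hP, hQ, ?_⟩
  obtain ⟨a, u, hau⟩ := C1_sum z0 z1 hP
  obtain ⟨b, v, hbv⟩ := C1_sum z2 z3 hQ
  obtain ⟨c, w, hcw⟩ := hS3
  -- common power of two
  have key : ∃ (k : ℕ) (P' Q' S' : ℤ), z0 ^ 2 + z1 ^ 2 = 2 ^ k * P' ∧ z2 ^ 2 + z3 ^ 2 = 2 ^ k * Q' ∧
      P' + Q' = S' ∧ ((∃ u, P' * Q' = 2 * (4 * u + 1) ∧ S' % 4 = 3) ∨
      (P' % 4 = 1 ∧ Q' % 4 = 1 ∧ ∃ c, S' = 2 * c ∧ c % 4 = 3)) := by
    rw [hau, hbv] at hcw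
    rcases lt_trichotomy a b with hab | hab | hab
    · obtain ⟨d, hd⟩ : ∃ d, b = a + (d + 1) := ⟨b - a - 1, by omega⟩
      rw [hd] at hbv hcw
      have e : (2:ℤ) ^ a * (4 * u + 1 + 2 * (2 ^ d * (4 * v + 1))) = 2 ^ c * (4 * w + 3) := by
        rw [← hcw, pow_add, pow_succ]; ring
      have e2 := (pow_odd (by omega) (by omega) e).2
      rcases Nat.eq_zero_or_pos d with hd0 | hd0
      · subst hd0
        refine ⟨a, 4 * u + 1, 2 * (4 * v + 1), _, hau, ?_, rfl, Or.inl ⟨4 * u * v + u + v, ?_, ?_⟩⟩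
        · rw [hbv, pow_add]; ring
        · ring
        · omega
      · exfalso
        obtain ⟨d', hd'⟩ : ∃ d', d = d' + 1 := ⟨d - 1, by omega⟩
        rw [hd', pow_succ] at e2
        have : (4 * u + 1 + 2 * (2 ^ d' * 2 * (4 * v + 1))) = 4 * (u + 2 ^ d' * (4 * v + 1)) + 1 := by
          ring
        omega
    · subst hab
      have e : (2:ℤ) ^ (a + 1) * (2 * (u + v) + 1) = 2 ^ c * (4 * w + 3) := by
        rw [← hcw, pow_add]; ring
      have e2 := (pow_odd (by omega) (by omega) e).2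
      refine ⟨a, 4 * u + 1, 4 * v + 1, _, hau, hbv, rfl, Or.inr ⟨by omega, by omega,
        2 * (u + v) + 1, by ring, by omega⟩⟩
    · obtain ⟨d, hd⟩ : ∃ d, a = b + (d + 1) := ⟨a - b - 1, by omega⟩
      rw [hd] at hau hcw
      have e : (2:ℤ) ^ b * (4 * v + 1 + 2 * (2 ^ d * (4 * u + 1))) = 2 ^ c * (4 * w + 3) := by
        rw [← hcw, pow_add, pow_succ]; ring
      have e2 := (pow_odd (by omega) (by omega) e).2
      rcases Nat.eq_zero_or_pos d with hd0 | hd0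
      · subst hd0
        refine ⟨b, 2 * (4 * u + 1), 4 * v + 1, _, ?_, hbv, rfl, Or.inl ⟨4 * u * v + u + v, ?_, ?_⟩⟩
        · rw [hau, pow_add]; ring
        · ring
        · omega
      · exfalso
        obtain ⟨d', hd'⟩ : ∃ d', d = d' + 1 := ⟨d - 1, by omega⟩
        rw [hd', pow_succ] at e2
        have : (4 * v + 1 + 2 * (2 ^ d' * 2 * (4 * u + 1))) = 4 * (v + 2 ^ d' * (4 * u + 1)) + 1 := by
          ring
        omega
  obtain ⟨k, P, Q, S, hPk, hQk, hPQS, hcase⟩ := key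
  obtain ⟨L, M, T, hM, hL, hT, hev⟩ := common_den l (t / 2 ^ k)
  have h2k : ((2:ℚ) ^ k) ≠ 0 := pow_ne_zero k two_ne_zero
  have hMQ : (M : ℚ) ≠ 0 := by exact_mod_cast hM
  have hlQ : l = L / M := by rw [eq_div_iff hMQ, hL]
  have htQ : t = 2 ^ k * (T / M) := by
    have : t / 2 ^ k = T / M := by rw [eq_div_iff hMQ, hT]
    rw [← this]; field_simp
  have hPq : ((z0 : ℚ) ^ 2 + z1 ^ 2) = 2 ^ k * P := by exact_mod_cast hPk
  have hQq : ((z2 : ℚ) ^ 2 + z3 ^ 2) = 2 ^ k * Q := by exact_mod_cast hQk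
  have hSq : (S : ℚ) = P + Q := by exact_mod_cast hPQS.symm
  have hfin : 4 * P * Q * x * M ^ 2 = L ^ 2 * (S * (S + 8 * Q)) + T ^ 2 := by
    have : (4 * P * Q * x * M ^ 2 : ℚ) = L ^ 2 * (S * (S + 8 * Q)) + T ^ 2 := by
      rw [hPq, hQq, hlQ, htQ] at h
      rw [hSq]
      field_simp at h
      linear_combination h
    exact_mod_cast this
  obtain ⟨L', M', hL', hM', hMM, hcc⟩ := core hx hPQS hcase hev hfin
  subst hMM
  refine ⟨L', M', hL', hM', ?_⟩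
  rcases hcc with h1 | ⟨h1, h2⟩
  · left
    rw [hlQ, h1]; push_cast; ring
  · right
    exact ⟨by rw [hlQ, h1], h2⟩

end Pool.Agent.H565R2.NS
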