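import Pool.Agent.H565R2.NS.Loc
import Pool.Agent.H565R2.NS.Cnt
import Pool.Agent.H565R2.NS.Rot
import Pool.Agent.H565R2.NS.Two
import Pool.Agent.H565R2.NS.Mem

/-!
# Existence for `x = 1 mod 8`: local conditions and the last step
-/

set_option autoImplicit false

namespace Pool.Agent.H565R2.NS

theorem not_sq_of_squarefree {x : ℕ} (hx : Squarefree x) (h1 : 1 < x) : ¬ IsSquare x := by
  rintro ⟨k, hk⟩
  have := hx k ⟨1, by rw [mul_one]; exact hk⟩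
  rw [Nat.isUnit_iff] at this
  subst this
  omega

theorem mul_sq_ne {x : ℕ} (hx : ¬ IsSquare x) (a b : ℤ) (hb : b ≠ 0) : (b ^ 2 * x : ℤ) ≠ a ^ 2 := by
  intro h
  apply hx
  have h2 : IsSquare ((x : ℤ) : ℚ) := by
    refine ⟨a / b, ?_⟩
    have hb' : (b : ℚ) ≠ 0 := by exact_mod_cast hb
    field_simp
    have : ((b ^ 2 * x : ℤ) : ℚ) = ((a ^ 2 : ℤ) : ℚ) := by rw [h]
    push_cast at this ⊢
    linarith
  rw [Rat.isSquare_intCast_iff] at h2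
  rwa [Int.isSquare_natCast_iff] at h2

theorem S2_div {u v b1 b2 : ℚ} (h : b1 ^ 2 + b2 ^ 2 ≠ 0) {n : ℚ}
    (hn : (b1 ^ 2 + b2 ^ 2) * n = u ^ 2 + v ^ 2) : S2 n := by
  refine ⟨(u * b1 + v * b2) / (b1 ^ 2 + b2 ^ 2), (u * b2 - v * b1) / (b1 ^ 2 + b2 ^ 2), ?_⟩
  have h2 : n = (u ^ 2 + v ^ 2) / (b1 ^ 2 + b2 ^ 2) := by
    rw [eq_div_iff h, ← hn]; ring
  rw [h2]
  field_simp
  ring

/-- `-D` is a square modulo a primitively represented number. -/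
theorem root_of_primitive {b11 b12 b22 f0 f1 : ℤ} (hf : IsCoprime f0 f1) :
    ∃ s : ℤ, (b11 * f0 ^ 2 + 2 * b12 * f0 * f1 + b22 * f1 ^ 2) ∣
      s ^ 2 + (b11 * b22 - b12 ^ 2) := by
  obtain ⟨u, v, huv⟩ := hf
  refine ⟨b11 * f0 * (-v) + b12 * (f0 * u + f1 * (-v)) + b22 * f1 * u,
    b11 * (-v) ^ 2 + 2 * b12 * (-v) * u + b22 * u ^ 2, ?_⟩
  have h1 : b11 * b22 - b12 ^ 2 = (b11 * b22 - b12 ^ 2) * (u * f0 + v * f1) ^ 2 := by
    rw [huv]; ring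
  rw [h1]
  ring

theorem local_one (d : Dat ℤ) {x q : ℕ} (hdX : d.X = x) (hdq : d.q = q) (hqp : q.Prime)
    (hqb : ¬ (q : ℤ) ∣ d.b11) (hD8 : d.D % 8 = 1)
    (hcont : ∀ p : ℕ, p.Prime → (p : ℤ) ∣ (25 * x - 16 * d.e ^ 2) * (d.w1 ^ 2 + d.w2 ^ 2) →
      ¬ (p : ℤ) ∣ 2 * x → ¬ (p : ℤ) ∣ d.b11)
    (p : ℕ) (hp : p.Prime) (hpD : (p : ℤ) ∣ d.D) (hpx : ¬ p ∣ x) :
    ∃ f0 f1 : ℤ, ¬ (p : ℤ) ∣ d.b11 * f0 ^ 2 + 2 * d.b12 * f0 * f1 + d.b22 * f1 ^ 2 := by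
  by_contra hcon
  push Not at hcon
  have hp2 : p ≠ 2 := by
    rintro rfl
    have : (2 : ℤ) ∣ d.D := hpD
    omega
  have := Fact.mk hp
  have hp2' : (2 : ZMod p) ≠ 0 := by
    intro h
    have : ((2 : ℕ) : ZMod p) = 0 := by exact_mod_cast h
    rw [ZMod.natCast_eq_zero_iff] at this
    exact hp2 ((Nat.prime_dvd_prime_iff_eq hp Nat.prime_two).1 this)
  have e11 : (p : ℤ) ∣ d.b11 := by simpa using hcon 1 0
  have e22 : (p : ℤ) ∣ d.b22 := by simpa using hcon 0 1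
  have e12 : ((d.b12 : ℤ) : ZMod p) = 0 := by
    have h5 := hcon 1 1
    rw [← ZMod.intCast_zmod_eq_zero_iff_dvd] at h5 e11 e22
    push_cast at h5
    rw [e11, e22] at h5
    have h6 : (2 : ZMod p) * d.b12 = 0 := by linear_combination h5
    exact (mul_eq_zero.1 h6).resolve_left hp2'
  have hp2x : ¬ (p : ℤ) ∣ 2 * x := by
    intro h
    rcases (Nat.prime_iff_prime_int.1 hp).dvd_or_dvd h with h | h
    · have : p ∣ 2 := by exact_mod_cast h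
      exact hp2 ((Nat.prime_dvd_prime_iff_eq hp Nat.prime_two).1 this)
    · exact hpx (by exact_mod_cast h)
  have hpM : ¬ (p : ℤ) ∣ (25 * x - 16 * d.e ^ 2) * (d.w1 ^ 2 + d.w2 ^ 2) := by
    intro h
    exact hcont p hp h hp2x e11
  have hpq : p ≠ q := by
    rintro rfl
    exact hqb e11
  have hq' : (d.map (Int.castRingHom (ZMod p))).q ≠ 0 := by
    rw [Dat.map_q, hdq]
    simp only [eq_intCast, Int.cast_natCast]
    rw [Ne, ZMod.natCast_eq_zero_iff]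
    intro h
    exact hpq ((Nat.prime_dvd_prime_iff_eq hp hqp).1 h)
  refine content hp2' (d.map (Int.castRingHom (ZMod p))) hq' ?_ ⟨?_, ?_, ?_⟩
  · rw [Dat.map_X, hdX]
    simp only [Dat.map, eq_intCast]
    intro h
    apply hpM
    rw [← ZMod.intCast_zmod_eq_zero_iff_dvd]
    push_cast at h ⊢
    exact h
  · rw [← ZMod.intCast_zmod_eq_zero_iff_dvd] at e11
    simp only [Dat.b11, Dat.map, eq_intCast] at e11 ⊢
    push_cast at e11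
    exact e11
  · simp only [Dat.b12, Dat.rho, Dat.map, eq_intCast] at e12 ⊢
    push_cast at e12
    exact e12
  · rw [← ZMod.intCast_zmod_eq_zero_iff_dvd] at e22
    simp only [Dat.b22, Dat.iota, Dat.map, eq_intCast] at e22 ⊢
    push_cast at e22
    exact e22

theorem local_two (d : Dat ℤ) {x q : ℕ} (hx : Squarefree x) (h8 : x % 8 = 1) (hdX : d.X = x)
    (hdq : d.q = q) (hqp : q.Prime) (hxq : x < q) (p : ℕ) (hp : p.Prime) (hpx : p ∣ x) :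
    ∃ f0 f1 s : ℤ, ¬ (p : ℤ) ∣ s ∧
      (p : ℤ) ∣ s ^ 2 + q * (d.b11 * f0 ^ 2 + 2 * d.b12 * f0 * f1 + d.b22 * f1 ^ 2) := by
  have := Fact.mk hp
  have hp2 : p ≠ 2 := by
    rintro rfl
    omega
  obtain ⟨g0, g1, s, hs, hsB⟩ := loc hp2 (d.map (Int.castRingHom (ZMod p)))
    (by
      rw [Dat.map_X, hdX]
      simp only [eq_intCast, Int.cast_natCast]
      exact (ZMod.natCast_eq_zero_iff _ _).2 hpx)
    (by
      rintro ⟨k1, k2, k3⟩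
      simp only [Dat.map, eq_intCast] at k1 k2 k3
      rw [ZMod.intCast_zmod_eq_zero_iff_dvd] at k1 k2 k3
      have h5 : ((p * p : ℕ) : ℤ) ∣ (x : ℤ) := by
        rw [← hdX, Dat.X]
        push_cast
        rw [← pow_two]
        exact dvd_add (dvd_add (pow_dvd_pow_of_dvd k1 2) (pow_dvd_pow_of_dvd k2 2))
          (pow_dvd_pow_of_dvd k3 2)
      have h6 : p * p ∣ x := by exact_mod_cast h5
      have := hx p h6
      rw [Nat.isUnit_iff] at this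
      exact hp.one_lt.ne' this)
    (by
      rw [Dat.map_q, hdq]
      simp only [eq_intCast, Int.cast_natCast]
      rw [Ne, ZMod.natCast_eq_zero_iff]
      intro h
      have h5 := (Nat.prime_dvd_prime_iff_eq hp hqp).1 h
      subst h5
      exact absurd (Nat.le_of_dvd (by omega) hpx) (by omega))
  obtain ⟨g0, rfl⟩ := ZMod.intCast_surjective g0
  obtain ⟨g1, rfl⟩ := ZMod.intCast_surjective g1
  obtain ⟨s, rfl⟩ := ZMod.intCast_surjective s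
  refine ⟨g0, g1, s, ?_, ?_⟩
  · rwa [← ZMod.intCast_zmod_eq_zero_iff_dvd]
  · rw [← ZMod.intCast_zmod_eq_zero_iff_dvd]
    have h5 := d.map_B (Int.castRingHom (ZMod p)) g0 g1
    simp only [eq_intCast] at h5
    rw [h5, Dat.map_q, hdq] at hsB
    simp only [eq_intCast] at hsB
    have h6 : d.B g0 g1 = d.b11 * g0 ^ 2 + 2 * d.b12 * g0 * g1 + d.b22 * g1 ^ 2 := rfl
    rw [← h6]
    push_cast at hsB ⊢
    exact hsB

theorem norm_comb {g0 g1 e w1 w2 a1 a2 a3 x m : ℚ} (hX : e ^ 2 + w1 ^ 2 + w2 ^ 2 = x)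
    (ho : e * a1 + w1 * a2 + w2 * a3 = 0) (ha : a1 ^ 2 + a2 ^ 2 + a3 ^ 2 = m) :
    (g0 * a1 + g1 * (w1 * a3 - w2 * a2)) ^ 2 + (g0 * a2 + g1 * (w2 * a1 - e * a3)) ^ 2
          + (g0 * a3 + g1 * (e * a2 - w1 * a1)) ^ 2 = (g0 ^ 2 + x * g1 ^ 2) * m := by
  rw [← ha, ← hX]
  linear_combination (-g1 ^ 2 * (e * a1 + w1 * a2 + w2 * a3)) * ho

theorem last_step {x q t : ℕ} (h8 : x % 8 = 1) (hq8 : q % 8 = 3) (htp : t ≠ 0)
    {z0 z1 z2 z3 g0 g1 Z Z' e w1 w2 a1 a2 a3 : ℤ} (hX : e ^ 2 + w1 ^ 2 + w2 ^ 2 = x)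
    (hZ : Z ≠ 0) (hZ' : Z' ≠ 0)
    (hA : z0 ^ 2 + z1 ^ 2 + z2 ^ 2 + z3 ^ 2 = q * (g0 ^ 2 + x * g1 ^ 2))
    (hB : z0 ^ 2 + z1 ^ 2 + 9 * (z2 ^ 2 + z3 ^ 2) = t * Z ^ 2)
    (haorth : e * a1 + w1 * a2 + w2 * a3 = 0) (ha : a1 ^ 2 + a2 ^ 2 + a3 ^ 2 = q * t * Z' ^ 2) :
    ∃ l : ℚ, W1 x l ∨ W2 x l := by
  have hz : z0 ^ 2 + z1 ^ 2 + z2 ^ 2 + z3 ^ 2 ≠ 0 := by
    intro h
    have k1 : z0 ^ 2 + z1 ^ 2 = 0 := by
      have := sq_nonneg z0; have := sq_nonneg z1; have := sq_nonneg z2; have := sq_nonneg z3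
      linarith
    have k2 : z2 ^ 2 + z3 ^ 2 = 0 := by linarith
    rw [k1, k2] at hB
    have ht0 : (t : ℤ) ≠ 0 := by exact_mod_cast htp
    have : (t : ℤ) * Z ^ 2 ≠ 0 := by positivity
    exact this (by rw [← hB]; rfl)
  have hZq : (Z' : ℚ) ≠ 0 := by exact_mod_cast hZ'
  have hAq : (z0 : ℚ) ^ 2 + z1 ^ 2 + z2 ^ 2 + z3 ^ 2 = q * (g0 ^ 2 + x * g1 ^ 2) := by
    exact_mod_cast hA
  have hBq : (z0 : ℚ) ^ 2 + z1 ^ 2 + 9 * (z2 ^ 2 + z3 ^ 2) = t * Z ^ 2 := by exact_mod_cast hB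
  have haq : (a1 : ℚ) ^ 2 + a2 ^ 2 + a3 ^ 2 = q * t * Z' ^ 2 := by exact_mod_cast ha
  have haoq : (e : ℚ) * a1 + w1 * a2 + w2 * a3 = 0 := by exact_mod_cast haorth
  have hXq : (e : ℚ) ^ 2 + w1 ^ 2 + w2 ^ 2 = x := by exact_mod_cast hX
  obtain ⟨l, τ, hl1, hl2⟩ := rotation (x := (x : ℚ)) (e := e) (w1 := w1) (w2 := w2)
    (a1 := Z / Z' * (g0 * a1 + g1 * (w1 * a3 - w2 * a2)))
    (a2 := Z / Z' * (g0 * a2 + g1 * (w2 * a1 - e * a3)))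
    (a3 := Z / Z' * (g0 * a3 + g1 * (e * a2 - w1 * a1)))
    (P := z0 ^ 2 + z1 ^ 2) (Q := z2 ^ 2 + z3 ^ 2) (b1 := 2 * (z0 * z2 + z1 * z3))
    (b2 := 2 * (z0 * z3 - z1 * z2)) hXq
    (by linear_combination (Z / Z' * g0 : ℚ) * haoq) (by ring)
    (by
      have k1 : (z0 : ℚ) ^ 2 + z1 ^ 2 + (z2 ^ 2 + z3 ^ 2) = q * (g0 ^ 2 + x * g1 ^ 2) := by
        rw [← hAq]; ring
      rw [k1, hBq]
      have k2 := norm_comb (g0 := (g0 : ℚ)) (g1 := (g1 : ℚ)) hXq haoq haq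
      have k3 : ∀ A B C : ℚ, (Z / Z' * A) ^ 2 + (Z / Z' * B) ^ 2 + (Z / Z' * C) ^ 2
          = Z ^ 2 / Z' ^ 2 * (A ^ 2 + B ^ 2 + C ^ 2) := by intro A B C; field_simp
      rw [k3, k2]
      field_simp)
  obtain ⟨hP, hQ, L, M, hL, hM, hlLM⟩ := two_adic (x := (x : ℤ)) (q := (q : ℤ)) (z0 := z0) (z1 := z1)
    (z2 := z2) (z3 := z3) (f0 := g0) (f1 := g1) (l := l) (t := τ) (by omega) (by omega) hA hz (by
      push_cast
      linear_combination hl2)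
  have hPq : (z0 : ℚ) ^ 2 + z1 ^ 2 ≠ 0 := by exact_mod_cast hP
  have hQq : (z2 : ℚ) ^ 2 + z3 ^ 2 ≠ 0 := by exact_mod_cast hQ
  refine ⟨l, ?_⟩
  have hS4 : S2 ((x : ℚ) - 4 * l ^ 2) := by
    apply S2_div (u := l * ((z0 ^ 2 + z1 ^ 2) - 3 * (z2 ^ 2 + z3 ^ 2))) (v := τ)
      (b1 := 2 * (z0 * z2 + z1 * z3)) (b2 := 2 * (z0 * z3 - z1 * z2))
    · have : (2 * ((z0 : ℚ) * z2 + z1 * z3)) ^ 2 + (2 * (z0 * z3 - z1 * z2)) ^ 2
        = 4 * (z0 ^ 2 + z1 ^ 2) * (z2 ^ 2 + z3 ^ 2) := by ring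
      rw [this]
      positivity
    · linear_combination hl2
  have := mem_W (x := (x : ℤ)) (by omega) (l := l) (by push_cast; exact hl1)
    (by push_cast; exact hS4) hL hM hlLM
  push_cast at this
  exact this

end Pool.Agent.H565R2.NS
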