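import Pool.Agent.H565R2.NS.Defs

/-!
# LOC: the form `B` modulo a prime `ℓ ∣ x`
-/

set_option autoImplicit false

namespace Pool.Agent.H565R2.NS

namespace Loc

open Polynomial in
/-- a sum of two quadratic terms represents everything -/
theorem sum_two {F : Type*} [Field F] [Fintype F] (hF : Fintype.card F % 2 = 1) (D c : F)
    (hD : D ≠ 0) : ∃ u v : F, u ^ 2 + D * v ^ 2 = c := by
  have h1 : (Polynomial.X ^ 2 - Polynomial.C c : F[X]).degree = 2 := by
    exact Polynomial.degree_X_pow_sub_C (by norm_num) c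
  have h2 : (Polynomial.C D * Polynomial.X ^ 2 : F[X]).degree = 2 :=
    Polynomial.degree_C_mul_X_pow 2 hD
  obtain ⟨u, v, h⟩ := FiniteField.exists_root_sum_quadratic h1 h2 hF
  refine ⟨u, v, ?_⟩
  simp only [Polynomial.eval_sub, Polynomial.eval_pow, Polynomial.eval_X, Polynomial.eval_C,
    Polynomial.eval_mul] at h
  linear_combination h

/-- a nondegenerate binary form represents everything -/
theorem repr {F : Type*} [Field F] [Fintype F] (hF : Fintype.card F % 2 = 1) (h2 : (2 : F) ≠ 0)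
    (a b g c : F) (hD : a * g - b ^ 2 ≠ 0) :
    ∃ x y : F, a * x ^ 2 + 2 * b * x * y + g * y ^ 2 = c := by
  by_cases ha : a = 0
  · have hb : b ≠ 0 := by
      rintro rfl
      apply hD
      rw [ha]
      ring
    refine ⟨(c - g) / (2 * b), 1, ?_⟩
    rw [ha]
    field_simp
    ring
  · obtain ⟨u, v, h⟩ := sum_two hF (a * g - b ^ 2) (a * c) hD
    refine ⟨(u - b * v) / a, v, ?_⟩
    have h1 : a * (a * ((u - b * v) / a) ^ 2 + 2 * b * ((u - b * v) / a) * v + g * v ^ 2) =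
        a * c := by
      rw [← h]
      field_simp
      ring
    exact mul_left_cancel₀ ha h1

section
variable {F : Type*} [Field F] (d : Dat F)

/-- `N1` -/
def n1 : F := d.h0 ^ 2 + d.h1 ^ 2
/-- `N2` -/
def n2 : F := d.h2 ^ 2 + d.h3 ^ 2

theorem q_eq : d.q = n1 d + n2 d := by simp only [Dat.q, n1, n2]; ring
theorem b11_eq : d.b11 = n1 d + 9 * n2 d := by simp only [Dat.b11, n1, n2]
theorem ri (hX : d.X = 0) : d.rho ^ 2 + d.iota ^ 2 = -(n1 d * n2 d * d.e ^ 2) := by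
  have h := d.rho_iota
  have hX' : d.e ^ 2 + d.w1 ^ 2 + d.w2 ^ 2 = 0 := hX
  rw [h]
  simp only [n1, n2]
  linear_combination (d.h0 ^ 2 + d.h1 ^ 2) * (d.h2 ^ 2 + d.h3 ^ 2) * hX'

theorem b22_eq (hX : d.X = 0) :
    d.b22 = -8 * n1 d * d.e ^ 2 + 8 * n2 d * d.e ^ 2 + 16 * d.e * d.iota := by
  have hX' : d.e ^ 2 + d.w1 ^ 2 + d.w2 ^ 2 = 0 := hX
  simp only [Dat.b22, n1, n2]
  linear_combination (9 * (d.h0 ^ 2 + d.h1 ^ 2) + (d.h2 ^ 2 + d.h3 ^ 2)) * hX'

theorem B10 : d.B 1 0 = d.b11 := by simp only [Dat.B]; ring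
theorem B01 : d.B 0 1 = d.b22 := by simp only [Dat.B]; ring

theorem case2 (h2 : (2 : F) ≠ 0) (hX : d.X = 0) (hq : d.q ≠ 0) (hD : d.D = 0) (he : d.e ≠ 0) :
    ∃ f0 f1 s : F, s ≠ 0 ∧ s ^ 2 + d.q * d.B f0 f1 = 0 := by
  have hX' : d.e ^ 2 + d.w1 ^ 2 + d.w2 ^ 2 = 0 := hX
  have hri := ri d hX
  have hb22 := b22_eq d hX
  have hqe := q_eq d
  have hb := b11_eq d
  have hDe := d.D_eq
  rw [hD] at hDe
  have hfac : 8 * ((4 * d.iota + d.e * (3 * n2 d - n1 d)) *
      (2 * d.iota + d.e * (n1 d + 3 * n2 d))) = 0 := by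
    rw [hqe, hb] at hDe
    linear_combination -hDe - 9 * (n1 d + n2 d) ^ 2 * hX'
  have h8 : (8 : F) ≠ 0 := by
    have : (8 : F) = 2 ^ 3 := by norm_num
    rw [this]
    exact pow_ne_zero _ h2
  have h16 : (16 : F) ≠ 0 := by
    have : (16 : F) = 2 ^ 4 := by norm_num
    rw [this]
    exact pow_ne_zero _ h2
  have h32 : (32 : F) ≠ 0 := by
    have : (32 : F) = 2 ^ 5 := by norm_num
    rw [this]
    exact pow_ne_zero _ h2
  rcases mul_eq_zero.1 hfac with h | h
  · exact absurd h h8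
  have hN2 : d.b11 = 0 → n2 d ≠ 0 := by
    intro hb0 hn
    apply hq
    rw [hqe, hn]
    rw [hb, hn] at hb0
    linear_combination hb0
  rcases mul_eq_zero.1 h with ha | hb'
  · -- first case
    have hr : 16 * d.rho ^ 2 = -(d.e ^ 2 * (d.q * d.b11)) := by
      rw [hqe, hb]
      linear_combination 16 * hri - (4 * d.iota - d.e * (3 * n2 d - n1 d)) * ha
    by_cases hb0 : d.b11 = 0
    · refine ⟨0, 1, 16 * (d.e * n2 d), ?_, ?_⟩
      · exact mul_ne_zero h16 (mul_ne_zero he (hN2 hb0))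
      · rw [B01, hb22, hqe]
        rw [hb] at hb0
        have h1 : n1 d = -9 * n2 d := by linear_combination hb0
        rw [h1] at ha ⊢
        linear_combination (-32 * d.e * n2 d) * ha
    · refine ⟨1, 0, 4 * d.rho / d.e, ?_, ?_⟩
      · intro hs
        have h1 : (4 * d.rho / d.e) ^ 2 = -(d.q * d.b11) := by
          field_simp
          linear_combination hr
        rw [hs] at h1
        have h3 : d.q * d.b11 = 0 := by linear_combination h1
        exact (mul_ne_zero hq hb0) h3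
      · rw [B10]
        field_simp
        linear_combination hr
  · -- second case
    have hr : 4 * d.rho ^ 2 = -(d.e ^ 2 * (d.q * d.b11)) := by
      rw [hqe, hb]
      linear_combination 4 * hri - (2 * d.iota - d.e * (n1 d + 3 * n2 d)) * hb'
    by_cases hb0 : d.b11 = 0
    · refine ⟨0, 1, 32 * (d.e * n2 d), ?_, ?_⟩
      · exact mul_ne_zero h32 (mul_ne_zero he (hN2 hb0))
      · rw [B01, hb22, hqe]
        rw [hb] at hb0
        have h1 : n1 d = -9 * n2 d := by linear_combination hb0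
        rw [h1] at hb' ⊢
        linear_combination (-64 * d.e * n2 d) * hb'
    · refine ⟨1, 0, 2 * d.rho / d.e, ?_, ?_⟩
      · intro hs
        have h1 : (2 * d.rho / d.e) ^ 2 = -(d.q * d.b11) := by
          field_simp
          linear_combination hr
        rw [hs] at h1
        have h3 : d.q * d.b11 = 0 := by linear_combination h1
        exact (mul_ne_zero hq hb0) h3
      · rw [B10]
        field_simp
        linear_combination hr

theorem case3 (h2 : (2 : F) ≠ 0) (h3 : ∀ i : F, i ^ 2 = -1 → (3 : F) ≠ 0) (hX : d.X = 0)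
    (h0 : ¬ (d.e = 0 ∧ d.w1 = 0 ∧ d.w2 = 0)) (hq : d.q ≠ 0) (hD : d.D = 0) (he : d.e = 0) :
    ∃ f0 f1 s : F, s ≠ 0 ∧ s ^ 2 + d.q * d.B f0 f1 = 0 := by
  have hX' : d.e ^ 2 + d.w1 ^ 2 + d.w2 ^ 2 = 0 := hX
  have hW : d.w1 ^ 2 + d.w2 ^ 2 = 0 := by
    rw [he] at hX'
    linear_combination hX'
  have hw1 : d.w1 ≠ 0 := by
    intro h
    apply h0
    refine ⟨he, h, ?_⟩
    rw [h] at hW
    have : d.w2 ^ 2 = 0 := by linear_combination hW
    exact pow_eq_zero_iff (two_ne_zero) |>.1 this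
  have h8 : (8 : F) ≠ 0 := by
    have : (8 : F) = 2 ^ 3 := by norm_num
    rw [this]
    exact pow_ne_zero _ h2
  have hDe := d.D_eq
  rw [hD, he, hW] at hDe
  have hi : d.iota = 0 := by
    have h1 : (8 * d.iota) ^ 2 = 0 := by linear_combination -hDe
    have h4 := pow_eq_zero_iff (two_ne_zero) |>.1 h1
    exact (mul_eq_zero.1 h4).resolve_left h8
  have hr : d.rho = 0 := by
    have h1 := d.rho_iota
    rw [hi, hW] at h1
    have h4 : d.rho ^ 2 = 0 := by linear_combination h1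
    exact pow_eq_zero_iff (two_ne_zero) |>.1 h4
  have hN : n1 d * n2 d = 0 := by
    have h1 : d.w1 ^ 2 * (n1 d * n2 d) = 0 := by
      have h4 : d.rho = (d.h0 * d.h2 + d.h1 * d.h3) * d.w1 +
        (d.h0 * d.h3 - d.h1 * d.h2) * d.w2 := rfl
      rw [hr] at h4
      simp only [n1, n2]
      linear_combination (-((d.h0 * d.h2 + d.h1 * d.h3) * d.w1 -
        (d.h0 * d.h3 - d.h1 * d.h2) * d.w2)) * h4 + (d.h0 * d.h3 - d.h1 * d.h2) ^ 2 * hW
    exact (mul_eq_zero.1 h1).resolve_left (pow_ne_zero _ hw1)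
  have hii : (d.w2 / d.w1) ^ 2 = -1 := by
    field_simp
    linear_combination hW
  have hi0 : d.w2 / d.w1 ≠ 0 := by
    intro h
    rw [h] at hii
    have : (1 : F) = 0 := by linear_combination hii
    exact one_ne_zero this
  have hqe := q_eq d
  have hb := b11_eq d
  rcases mul_eq_zero.1 hN with h | h
  · refine ⟨1, 0, 3 * (d.w2 / d.w1 * d.q), mul_ne_zero (h3 _ hii) (mul_ne_zero hi0 hq), ?_⟩
    rw [B10, hb, h]
    rw [h, zero_add] at hqe
    rw [← hqe]
    linear_combination 9 * d.q ^ 2 * hii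
  · refine ⟨1, 0, d.w2 / d.w1 * d.q, mul_ne_zero hi0 hq, ?_⟩
    rw [B10, hb, h]
    rw [h, add_zero] at hqe
    rw [← hqe]
    linear_combination d.q ^ 2 * hii

end

theorem z3 : ∀ i : ZMod 3, i ^ 2 ≠ -1 := by decide

end Loc

open Loc in
/-- LOC (file `Loc.lean`) the form `B` modulo a prime `ℓ ∣ x`. -/
theorem loc {l : ℕ} [Fact l.Prime] (hl : l ≠ 2) (d : Dat (ZMod l)) (hX : d.X = 0)
    (h0 : ¬ (d.e = 0 ∧ d.w1 = 0 ∧ d.w2 = 0)) (hq : d.q ≠ 0) :
    ∃ f0 f1 s : ZMod l, s ≠ 0 ∧ s ^ 2 + d.q * d.B f0 f1 = 0 := by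
  have hp : l.Prime := Fact.out
  have hodd : l % 2 = 1 := hp.eq_two_or_odd.resolve_left hl
  have h2 : (2 : ZMod l) ≠ 0 := by
    intro h
    have h1 : ((2 : ℕ) : ZMod l) = 0 := by exact_mod_cast h
    rw [ZMod.natCast_eq_zero_iff] at h1
    exact hl ((Nat.prime_dvd_prime_iff_eq hp Nat.prime_two).1 h1)
  have h3 : ∀ i : ZMod l, i ^ 2 = -1 → (3 : ZMod l) ≠ 0 := by
    intro i hi h
    have h1 : ((3 : ℕ) : ZMod l) = 0 := by exact_mod_cast h
    rw [ZMod.natCast_eq_zero_iff] at h1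
    have h4 := (Nat.prime_dvd_prime_iff_eq hp Nat.prime_three).1 h1
    subst h4
    exact z3 i hi
  by_cases hD : d.D = 0
  · by_cases he : d.e = 0
    · exact case3 d h2 h3 hX h0 hq hD he
    · exact case2 d h2 hX hq hD he
  · have hcard : Fintype.card (ZMod l) % 2 = 1 := by rw [ZMod.card]; exact hodd
    obtain ⟨x, y, h⟩ := repr hcard h2 d.b11 d.b12 d.b22 (-1 / d.q) hD
    refine ⟨x, y, 1, one_ne_zero, ?_⟩
    have h5 : d.B x y = -1 / d.q := h
    rw [h5]
    field_simp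
    ring

end Pool.Agent.H565R2.NS
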