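import Pool.Agent.H565R2.NS.Defs

/-!
Soundness of `W1`.
-/

set_option autoImplicit false

namespace Pool.Agent.H565R2.NS

namespace Sn1

theorem sq_mod4 (a : ℤ) : (a % 2 = 0 ∧ a ^ 2 % 4 = 0) ∨ (a % 2 = 1 ∧ a ^ 2 % 4 = 1) := by
  have h : a % 4 = 0 ∨ a % 4 = 1 ∨ a % 4 = 2 ∨ a % 4 = 3 := by omega
  rcases h with h | h | h | h
  · exact Or.inl ⟨by omega, by rw [pow_two, Int.mul_emod, h]; norm_num⟩
  · exact Or.inr ⟨by omega, by rw [pow_two, Int.mul_emod, h]; norm_num⟩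
  · exact Or.inl ⟨by omega, by rw [pow_two, Int.mul_emod, h]; norm_num⟩
  · exact Or.inr ⟨by omega, by rw [pow_two, Int.mul_emod, h]; norm_num⟩

theorem sq_mod8 (a : ℤ) : a ^ 2 % 8 = 0 ∨ a ^ 2 % 8 = 1 ∨ a ^ 2 % 8 = 4 := by
  have h : a % 8 = 0 ∨ a % 8 = 1 ∨ a % 8 = 2 ∨ a % 8 = 3 ∨ a % 8 = 4 ∨ a % 8 = 5 ∨ a % 8 = 6 ∨
      a % 8 = 7 := by omega
  rcases h with h | h | h | h | h | h | h | h <;> rw [pow_two, Int.mul_emod, h] <;> norm_num

theorem sq_mod8_odd (a : ℤ) (ha : a % 2 = 1) : a ^ 2 % 8 = 1 := by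
  have h : a % 8 = 1 ∨ a % 8 = 3 ∨ a % 8 = 5 ∨ a % 8 = 7 := by omega
  rcases h with h | h | h | h <;> rw [pow_two, Int.mul_emod, h] <;> norm_num

/-- infinite descent -/
theorem three_int (n : ℤ) (hn : n % 8 = 7) : ∀ d : ℕ, 0 < d → ∀ A B C : ℤ,
    A ^ 2 + B ^ 2 + C ^ 2 ≠ n * (d : ℤ) ^ 2 := by
  intro d
  induction d using Nat.strong_induction_on with
  | _ d ih =>
    intro hd A B C h
    rcases Nat.even_or_odd' d with ⟨e, he | he⟩
    · have h4 : A ^ 2 + B ^ 2 + C ^ 2 = 4 * (n * (e : ℤ) ^ 2) := by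
        rw [h, he]; push_cast; ring
      obtain ⟨A', hA⟩ : ∃ A', A = 2 * A' := by
        refine ⟨A / 2, ?_⟩
        rcases sq_mod4 A with ⟨h1, h2⟩ | ⟨h1, h2⟩ <;> rcases sq_mod4 B with ⟨h3, h5⟩ | ⟨h3, h5⟩ <;>
          rcases sq_mod4 C with ⟨h6, h7⟩ | ⟨h6, h7⟩ <;> omega
      obtain ⟨B', hB⟩ : ∃ B', B = 2 * B' := by
        refine ⟨B / 2, ?_⟩
        rcases sq_mod4 A with ⟨h1, h2⟩ | ⟨h1, h2⟩ <;> rcases sq_mod4 B with ⟨h3, h5⟩ | ⟨h3, h5⟩ <;>
          rcases sq_mod4 C with ⟨h6, h7⟩ | ⟨h6, h7⟩ <;> omega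
      obtain ⟨C', hC⟩ : ∃ C', C = 2 * C' := by
        refine ⟨C / 2, ?_⟩
        rcases sq_mod4 A with ⟨h1, h2⟩ | ⟨h1, h2⟩ <;> rcases sq_mod4 B with ⟨h3, h5⟩ | ⟨h3, h5⟩ <;>
          rcases sq_mod4 C with ⟨h6, h7⟩ | ⟨h6, h7⟩ <;> omega
      refine ih e (by omega) (by omega) A' B' C' ?_
      rw [hA, hB, hC] at h4
      have h5 : 4 * (A' ^ 2 + B' ^ 2 + C' ^ 2) = 4 * (n * (e : ℤ) ^ 2) := by
        rw [← h4]; ring
      linarith
    · have hd2 : (d : ℤ) ^ 2 % 8 = 1 := sq_mod8_odd d (by omega)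
      have h1 : (n * (d : ℤ) ^ 2) % 8 = 7 := by
        rw [Int.mul_emod, hn, hd2]; norm_num
      rw [← h] at h1
      rcases sq_mod8 A with hA | hA | hA <;> rcases sq_mod8 B with hB | hB | hB <;>
        rcases sq_mod8 C with hC | hC | hC <;> omega

theorem not_S3_int (n : ℤ) (hn : n % 8 = 7) : ¬ S3 (n : ℚ) := by
  rintro ⟨a, b, c, h⟩
  have ha := Rat.mul_den_eq_num a
  have hb := Rat.mul_den_eq_num b
  have hc := Rat.mul_den_eq_num c
  refine three_int n hn (a.den * b.den * c.den)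
    (Nat.mul_pos (Nat.mul_pos a.den_pos b.den_pos) c.den_pos)
    (a.num * b.den * c.den) (b.num * a.den * c.den) (c.num * a.den * b.den) ?_
  apply Int.cast_injective (α := ℚ)
  push_cast
  rw [← ha, ← hb, ← hc, h]
  ring

/-- even valuations at the primes `3 mod 4` -/
def Evn (n : ℕ) : Prop := ∀ p : ℕ, p.Prime → p % 4 = 3 → Even (padicValNat p n)

theorem evn_of_sum {n : ℕ} (h : ∃ x y : ℕ, n = x ^ 2 + y ^ 2) : Evn n := by
  intro p hp hp4
  by_cases hn : n = 0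
  · rw [hn, padicValNat_zero_right]; exact Even.zero
  by_cases hd : p ∣ n
  · exact Nat.eq_sq_add_sq_iff.1 h p (Nat.mem_primeFactors.2 ⟨hp, hd, hn⟩) hp4
  · rw [padicValNat.eq_zero_of_not_dvd hd]; exact Even.zero

theorem sum_of_evn {n : ℕ} (h : Evn n) : ∃ x y : ℕ, n = x ^ 2 + y ^ 2 :=
  Nat.eq_sq_add_sq_iff.2 fun q hq h4 => h q (Nat.prime_of_mem_primeFactors hq) h4

theorem evn_mod {n : ℕ} (h : Evn n) : n % 4 ≠ 3 := by
  obtain ⟨x, y, hxy⟩ := sum_of_evn h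
  have h1 : (n : ℤ) = (x : ℤ) ^ 2 + (y : ℤ) ^ 2 := by rw [hxy]; push_cast; rfl
  rcases sq_mod4 x with ⟨-, h2⟩ | ⟨-, h2⟩ <;> rcases sq_mod4 y with ⟨-, h3⟩ | ⟨-, h3⟩ <;> omega

theorem evn_of_S2 {n : ℕ} (h : S2 (n : ℚ)) : Evn n := by
  obtain ⟨a, b, h⟩ := h
  intro p hp hp4
  by_cases hn : n = 0
  · rw [hn, padicValNat_zero_right]; exact Even.zero
  have ha := Rat.mul_den_eq_num a
  have hb := Rat.mul_den_eq_num b
  have hd : a.den * b.den ≠ 0 := Nat.mul_ne_zero a.den_pos.ne' b.den_pos.ne'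
  have h1 : Evn (n * (a.den * b.den) ^ 2) := by
    refine evn_of_sum ⟨(a.num * b.den).natAbs, (b.num * a.den).natAbs, ?_⟩
    apply Nat.cast_injective (R := ℤ)
    push_cast
    rw [sq_abs, sq_abs]
    apply Int.cast_injective (α := ℚ)
    push_cast
    rw [← ha, ← hb, h]
    ring
  have h2 := h1 p hp hp4
  have : Fact p.Prime := ⟨hp⟩
  rw [padicValNat.mul hn (pow_ne_zero 2 hd), padicValNat.pow] at h2
  have h3 : Even (2 * padicValNat p (a.den * b.den)) := even_two_mul _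
  exact (Nat.even_add.1 h2).2 h3

theorem evn_left {u v : ℕ} (hu : u ≠ 0) (hv : v ≠ 0) (h : Evn (u * v))
    (hc : ∀ p : ℕ, p.Prime → p % 4 = 3 → p ∣ u → ¬ p ∣ v) : Evn u := by
  intro p hp hp4
  have : Fact p.Prime := ⟨hp⟩
  by_cases hd : p ∣ u
  · have h1 := h p hp hp4
    rw [padicValNat.mul hu hv, padicValNat.eq_zero_of_not_dvd (hc p hp hp4 hd), add_zero] at h1
    exact h1
  · rw [padicValNat.eq_zero_of_not_dvd hd]; exact Even.zero

theorem dvd_two {p k : ℕ} (hp : p.Prime) (hp4 : p % 4 = 3) (h : p ∣ 2 * k) : p ∣ k := by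
  refine (hp.dvd_mul.1 h).resolve_left fun h2 => ?_
  have := Nat.le_of_dvd (by norm_num) h2
  omega

theorem S2_scale {c n : ℚ} (hc : c ≠ 0) (h : S2 (c ^ 2 * n)) : S2 n := by
  obtain ⟨a, b, h⟩ := h
  refine ⟨a / c, b / c, ?_⟩
  field_simp
  linarith

theorem S3_scale {c n : ℚ} (hc : c ≠ 0) (h : S3 (c ^ 2 * n)) : S3 n := by
  obtain ⟨a, b, d, h⟩ := h
  refine ⟨a / c, b / c, d / c, ?_⟩
  field_simp
  linarith

theorem S2_nonneg {n : ℚ} (h : S2 n) : 0 ≤ n := by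
  obtain ⟨a, b, h⟩ := h
  rw [h]; positivity

/-- the integral form -/
theorem main {L u : ℕ} (hc : Nat.Coprime L u) (h1 : S2 (((L + u) * (3 * L + u) : ℕ) : ℚ))
    (h2 : S2 ((u * (4 * L + u) : ℕ) : ℚ)) (h3 : S3 ((((L + u) * (3 * L + u) : ℕ) : ℚ) / 7))
    (h4 : S3 (((u * (4 * L + u) : ℕ) : ℚ) / 3)) : False := by
  have e1 : (((L + u) * (3 * L + u) : ℕ) : ℤ) = 3 * (L : ℤ) ^ 2 + 4 * (L * u) + (u : ℤ) ^ 2 := by
    push_cast; ring
  have e2 : ((u * (4 * L + u) : ℕ) : ℤ) = (u : ℤ) ^ 2 + 4 * (L * u) := by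
    push_cast; ring
  have hE1 := evn_of_S2 h1
  have hE2 := evn_of_S2 h2
  have hm1 := evn_mod hE1
  have not2 : ¬ (2 ∣ L ∧ 2 ∣ u) := fun h =>
    Nat.not_coprime_of_dvd_of_dvd (by norm_num) h.1 h.2 hc
  rcases Nat.even_or_odd' u with ⟨v, hv | hv⟩
  · -- `u` even
    have hL : L % 2 = 1 := by
      by_contra hcon
      exact not2 ⟨by omega, by omega⟩
    have h5 := sq_mod8_odd (L : ℤ) (by omega)
    have h6 : (u : ℤ) ^ 2 = 4 * (v : ℤ) ^ 2 := by rw [hv]; push_cast; ring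
    have h7 : (L : ℤ) * u = 2 * ((L : ℤ) * v) := by rw [hv]; push_cast; ring
    omega
  · have hu2 := sq_mod8_odd (u : ℤ) (by omega)
    have hu0 : u ≠ 0 := by omega
    rcases Nat.even_or_odd' L with ⟨K, hK | hK⟩
    · rcases Nat.even_or_odd' K with ⟨J, hJ | hJ⟩
      · -- `4 ∣ L`
        refine not_S3_int (7 * (((L + u) * (3 * L + u) : ℕ) : ℤ)) ?_ ?_
        · rw [e1]
          have h6 : (L : ℤ) ^ 2 = 16 * (J : ℤ) ^ 2 := by rw [hK, hJ]; push_cast; ring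
          have h7 : (L : ℤ) * u = 4 * ((J : ℤ) * u) := by rw [hK, hJ]; push_cast; ring
          omega
        · obtain ⟨a, b, c, h⟩ := h3
          refine ⟨7 * a, 7 * b, 7 * c, ?_⟩
          rw [div_eq_iff (by norm_num)] at h
          push_cast at h ⊢
          rw [h]
          ring
      · -- `L = 2 mod 4`
        have hEu : Evn u := by
          refine evn_left hu0 (by omega) hE2 fun p hp hp4 hpu hpv => ?_
          have h5 : p ∣ 4 * L := (Nat.dvd_add_left hpu).1 hpv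
          have h6 : p ∣ L := by
            refine dvd_two hp hp4 (dvd_two hp hp4 ?_)
            rw [← mul_assoc]
            exact h5
          exact Nat.not_coprime_of_dvd_of_dvd hp.one_lt h6 hpu hc
        have hELu : Evn (L + u) := by
          refine evn_left (by omega) (by omega) hE1 fun p hp hp4 hpu hpv => ?_
          have h5 : p ∣ 2 * L := by
            have e : 3 * L + u = 2 * L + (L + u) := by ring
            rw [e] at hpv
            exact (Nat.dvd_add_left hpu).1 hpv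
          have h6 : p ∣ L := dvd_two hp hp4 h5
          have h7 : p ∣ u := (Nat.dvd_add_right h6).1 hpu
          exact Nat.not_coprime_of_dvd_of_dvd hp.one_lt h6 h7 hc
        have h5 := evn_mod hEu
        have h6 := evn_mod hELu
        omega
    · -- `L` odd
      refine not_S3_int (3 * ((u * (4 * L + u) : ℕ) : ℤ)) ?_ ?_
      · rw [e2]
        have h7 : ((L : ℤ) * u) % 2 = 1 := by
          rw [Int.mul_emod]
          have a1 : (L : ℤ) % 2 = 1 := by omega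
          have a2 : (u : ℤ) % 2 = 1 := by omega
          rw [a1, a2]; norm_num
        omega
      · obtain ⟨a, b, c, h⟩ := h4
        refine ⟨3 * a, 3 * b, 3 * c, ?_⟩
        rw [div_eq_iff (by norm_num)] at h
        push_cast at h ⊢
        rw [h]
        ring

end Sn1

open Sn1 in
/-- SN1 (file `Sn1.lean`) -/
theorem not_W1 (r l : ℚ) (hr : r ≠ 0) : ¬ W1 (r ^ 2) l := by
  rintro ⟨h1, h2, h3, h4⟩
  set t : ℚ := l / r with ht
  set R : ℕ := t.den with hR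
  set L : ℕ := t.num.natAbs with hL
  have hR0 : (R : ℚ) ≠ 0 := by exact_mod_cast t.den_pos.ne'
  have hL2 : ((L : ℕ) : ℚ) ^ 2 = (t.num : ℚ) ^ 2 := by
    rw [hL, Nat.cast_natAbs]
    push_cast
    exact sq_abs _
  have ht2 : l ^ 2 = (r / R) ^ 2 * (L : ℚ) ^ 2 := by
    have h5 : l = r * t := by rw [ht]; field_simp
    have h6 : t * R = t.num := Rat.mul_den_eq_num t
    rw [hL2, ← h6, h5]
    field_simp
  have hr2 : r ^ 2 = (r / R) ^ 2 * (R : ℚ) ^ 2 := by field_simp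
  have hρ : r / R ≠ 0 := div_ne_zero hr hR0
  have e1 : r ^ 2 - l ^ 2 = (r / R) ^ 2 * ((R : ℚ) ^ 2 - (L : ℚ) ^ 2) := by
    rw [ht2]
    nth_rewrite 1 [hr2]
    ring
  have e2 : r ^ 2 - 4 * l ^ 2 = (r / R) ^ 2 * ((R : ℚ) ^ 2 - 4 * (L : ℚ) ^ 2) := by
    rw [ht2]
    nth_rewrite 1 [hr2]
    ring
  rw [e1] at h1 h3
  rw [e2] at h2 h4
  have h1' := S2_scale hρ h1
  have h2' := S2_scale hρ h2
  rw [mul_div_assoc] at h3 h4
  have h3' := S3_scale hρ h3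
  have h4' := S3_scale hρ h4
  have hle : 2 * L ≤ R := by
    have h5 := S2_nonneg h2'
    have h6 : ((2 * L : ℕ) : ℚ) ^ 2 ≤ ((R : ℕ) : ℚ) ^ 2 := by push_cast; linarith
    have h7 : ((2 * L : ℕ) : ℚ) ≤ ((R : ℕ) : ℚ) :=
      (sq_le_sq₀ (Nat.cast_nonneg _) (Nat.cast_nonneg _)).1 h6
    exact_mod_cast h7
  obtain ⟨u, hu⟩ := Nat.exists_eq_add_of_le hle
  have hcop : Nat.Coprime L R := t.reduced
  rw [hu] at hcop h1' h2' h3' h4'
  have hcop' : Nat.Coprime L u := (Nat.coprime_mul_right_add_right L u 2).1 hcop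
  refine main hcop' ?_ ?_ ?_ ?_
  · have : (((L + u) * (3 * L + u) : ℕ) : ℚ) = ((2 * L + u : ℕ) : ℚ) ^ 2 - (L : ℚ) ^ 2 := by
      push_cast; ring
    rw [this]; exact h1'
  · have : ((u * (4 * L + u) : ℕ) : ℚ) = ((2 * L + u : ℕ) : ℚ) ^ 2 - 4 * (L : ℚ) ^ 2 := by
      push_cast; ring
    rw [this]; exact h2'
  · have : (((L + u) * (3 * L + u) : ℕ) : ℚ) = ((2 * L + u : ℕ) : ℚ) ^ 2 - (L : ℚ) ^ 2 := by
      push_cast; ring
    rw [this]; exact h3'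
  · have : ((u * (4 * L + u) : ℕ) : ℚ) = ((2 * L + u : ℕ) : ℚ) ^ 2 - 4 * (L : ℚ) ^ 2 := by
      push_cast; ring
    rw [this]; exact h4'

end Pool.Agent.H565R2.NS
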