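import Pool.Agent.H565R2.NS.Defs
import Pool.Agent.H109R2.ThreeSq

/-!
# SN2: soundness of the second condition
-/

set_option autoImplicit false

namespace Pool.Agent.H565R2.NS

namespace Sn2

theorem sq8 (t : ℤ) : t ^ 2 % 8 = 0 ∨ t ^ 2 % 8 = 4 ∨ t ^ 2 % 8 = 1 := by
  have h1 : t % 8 = 0 ∨ t % 8 = 1 ∨ t % 8 = 2 ∨ t % 8 = 3 ∨ t % 8 = 4 ∨ t % 8 = 5
    ∨ t % 8 = 6 ∨ t % 8 = 7 := by omega
  have h2 : t ^ 2 % 8 = ((t % 8) ^ 2) % 8 := by
    rw [pow_two, pow_two, Int.mul_emod]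
  rcases h1 with h1 | h1 | h1 | h1 | h1 | h1 | h1 | h1 <;>
    · rw [h1] at h2
      norm_num at h2
      omega

/-- sums of two integer squares modulo 8 -/
theorem two_sq_mod {n x y : ℤ} (h : n = x ^ 2 + y ^ 2) : n % 8 ≠ 3 ∧ n % 8 ≠ 6 ∧ n % 8 ≠ 7 := by
  have h1 := sq8 x
  have h2 := sq8 y
  omega

theorem S2_mul {n k : ℚ} (h : S2 n) : S2 (n * k ^ 2) := by
  obtain ⟨a, b, rfl⟩ := h
  exact ⟨a * k, b * k, by ring⟩

theorem S3_mul {n k : ℚ} (h : S3 n) : S3 (n * k ^ 2) := by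
  obtain ⟨a, b, c, rfl⟩ := h
  exact ⟨a * k, b * k, c * k, by ring⟩

theorem S2_div {n k : ℚ} (hk : k ≠ 0) (h : S2 (n * k ^ 2)) : S2 n := by
  have h1 := S2_mul (k := 1 / k) h
  have e : n * k ^ 2 * (1 / k) ^ 2 = n := by field_simp
  rwa [e] at h1

theorem S3_div {n k : ℚ} (hk : k ≠ 0) (h : S3 (n * k ^ 2)) : S3 n := by
  have h1 := S3_mul (k := 1 / k) h
  have e : n * k ^ 2 * (1 / k) ^ 2 = n := by field_simp
  rwa [e] at h1

theorem nat_of_S2 {n : ℕ} (h : S2 (n : ℚ)) : ∃ d x y : ℕ, d ≠ 0 ∧ n * d ^ 2 = x ^ 2 + y ^ 2 := by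
  obtain ⟨a, b, hab⟩ := h
  refine ⟨a.den * b.den, (a.num * b.den).natAbs, (b.num * a.den).natAbs,
    mul_ne_zero a.den_ne_zero b.den_ne_zero, ?_⟩
  have e1 := Rat.mul_den_eq_num a
  have e2 := Rat.mul_den_eq_num b
  have h1 : (n : ℚ) * (a.den * b.den) ^ 2 = (a.num * b.den) ^ 2 + (b.num * a.den) ^ 2 := by
    rw [← e1, ← e2, hab]
    ring
  have h2 : (n : ℤ) * (a.den * b.den) ^ 2 = (a.num * b.den) ^ 2 + (b.num * a.den) ^ 2 := by
    exact_mod_cast h1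
  zify
  rw [sq_abs, sq_abs]
  exact h2

theorem even_val {n : ℕ} (hn : n ≠ 0) (h : S2 (n : ℚ)) {p : ℕ} (hp : p.Prime)
    (hp4 : p % 4 = 3) : Even (padicValNat p n) := by
  obtain ⟨d, x, y, hd, hxy⟩ := nat_of_S2 h
  haveI := Fact.mk hp
  have h1 : Even (padicValNat p (n * d ^ 2)) := by
    by_cases hpn : p ∣ n * d ^ 2
    · exact Nat.eq_sq_add_sq_iff.1 ⟨x, y, hxy⟩ p
        (Nat.mem_primeFactors.2 ⟨hp, hpn, mul_ne_zero hn (pow_ne_zero 2 hd)⟩) hp4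
    · rw [padicValNat.eq_zero_of_not_dvd hpn]
      exact Even.zero
  rw [padicValNat.mul hn (pow_ne_zero 2 hd), padicValNat.pow, Nat.even_add] at h1
  exact h1.2 (even_two_mul _)

theorem factB {a b : ℕ} (ha : a ≠ 0) (hb : b ≠ 0) (h : S2 ((a * b : ℕ) : ℚ))
    (hc : ∀ p : ℕ, p.Prime → p ≠ 2 → p ∣ a → p ∣ b → False) : ∃ x y : ℕ, a = x ^ 2 + y ^ 2 := by
  rw [Nat.eq_sq_add_sq_iff]
  intro q hq hq4
  have hqp := Nat.prime_of_mem_primeFactors hq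
  have hqa := Nat.dvd_of_mem_primeFactors hq
  haveI := Fact.mk hqp
  have h1 := even_val (mul_ne_zero ha hb) h hqp hq4
  rw [padicValNat.mul ha hb, padicValNat.eq_zero_of_not_dvd
    (fun hqb => hc q hqp (by rintro rfl; omega) hqa hqb), add_zero] at h1
  exact h1

theorem factBZ {a b : ℤ} (ha : 0 < a) (hb : 0 < b) (h : S2 ((a : ℚ) * b))
    (hc : ∀ p : ℕ, p.Prime → p ≠ 2 → (p : ℤ) ∣ a → (p : ℤ) ∣ b → False) :
    a % 8 ≠ 3 ∧ a % 8 ≠ 6 ∧ a % 8 ≠ 7 := by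
  lift a to ℕ using ha.le
  lift b to ℕ using hb.le
  obtain ⟨x, y, hxy⟩ := factB (a := a) (b := b) (by omega) (by omega)
    (by push_cast; exact_mod_cast h)
    (fun p hp hp2 h1 h2 => hc p hp hp2 (Int.natCast_dvd_natCast.2 h1)
      (Int.natCast_dvd_natCast.2 h2))
  exact two_sq_mod (x := x) (y := y) (by exact_mod_cast hxy)

/-- reduction to coprime integers -/
theorem reduce (r l : ℚ) (hr : r ≠ 0) : ∃ (R L : ℤ) (k : ℚ), 0 < R ∧ IsCoprime R L ∧ k ≠ 0 ∧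
    r = R * k ∧ l = L * k := by
  have hd : ((l / r).den : ℚ) ≠ 0 := by exact_mod_cast (l / r).den_ne_zero
  refine ⟨(l / r).den, (l / r).num, r / (l / r).den, ?_, ?_, div_ne_zero hr hd, ?_, ?_⟩
  · exact_mod_cast (l / r).den_pos
  · have h := (l / r).reduced
    exact (Int.isCoprime_iff_gcd_eq_one.2 (by
      rw [Int.gcd_comm]
      unfold Int.gcd
      simpa using h))
  · push_cast
    field_simp
  · have e := Rat.mul_den_eq_num (l / r)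
    rw [← e]
    field_simp

theorem pos4 {R L : ℤ} (hR : 0 < R) (h1 : S2 ((R : ℚ) ^ 2 - L ^ 2))
    (h2 : S2 ((R : ℚ) ^ 2 - 4 * L ^ 2)) :
    0 < R - L ∧ 0 < R + L ∧ 0 < R - 2 * L ∧ 0 < R + 2 * L := by
  have h3 : (0:ℚ) ≤ (R : ℚ) ^ 2 - 4 * L ^ 2 := by
    obtain ⟨a, b, h⟩ := h2
    rw [h]
    positivity
  have h4 : (0:ℤ) ≤ R ^ 2 - 4 * L ^ 2 := by exact_mod_cast h3
  have h5 : R ^ 2 - 4 * L ^ 2 ≠ 0 := by
    intro h0
    have hL : L ≠ 0 := by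
      rintro rfl
      have : R ^ 2 = 0 := by linarith
      exact hR.ne' (pow_eq_zero_iff (two_ne_zero) |>.1 this)
    have hLq : (L : ℚ) ≠ 0 := by exact_mod_cast hL
    have h6 : (R : ℚ) ^ 2 = 4 * L ^ 2 := by
      have : R ^ 2 = 4 * L ^ 2 := by linarith
      exact_mod_cast this
    have h7 : S2 (((3 : ℕ) : ℚ) * L ^ 2) := by
      have e : ((3 : ℕ) : ℚ) * L ^ 2 = (R : ℚ) ^ 2 - L ^ 2 := by
        rw [h6]
        push_cast
        ring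
      rw [e]
      exact h1
    have h8 := S2_div hLq h7
    have h9 := even_val (by norm_num) h8 Nat.prime_three (by norm_num)
    haveI := Fact.mk Nat.prime_three
    rw [padicValNat_self] at h9
    exact absurd h9 (by decide)
  have h6 : 0 < R ^ 2 - 4 * L ^ 2 := lt_of_le_of_ne h4 (Ne.symm h5)
  have h7 : |2 * L| < |R| := by
    apply sq_lt_sq.1
    nlinarith
  rw [abs_of_pos hR, abs_lt] at h7
  refine ⟨?_, ?_, ?_, ?_⟩ <;> omega

theorem cop_sub {R L : ℤ} (hc : IsCoprime R L) (p : ℕ) (hp : p.Prime) (hp2 : p ≠ 2)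
    (h1 : (p : ℤ) ∣ R) (h2 : (p : ℤ) ∣ L) : False := by
  obtain ⟨u, v, huv⟩ := hc
  have : (p : ℤ) ∣ 1 := by
    rw [← huv]
    exact dvd_add (Dvd.dvd.mul_left h1 u) (Dvd.dvd.mul_left h2 v)
  have h3 := Int.eq_one_of_dvd_one (by omega) this
  have := hp.one_lt
  omega

theorem odd_dvd {p : ℕ} (hp : p.Prime) (hp2 : p ≠ 2) {x : ℤ} (h : (p : ℤ) ∣ 2 * x) :
    (p : ℤ) ∣ x := by
  have h1 : IsCoprime (p : ℤ) 2 := by
    have := (Nat.coprime_primes hp Nat.prime_two).2 hp2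
    exact_mod_cast Nat.isCoprime_iff_coprime.2 this
  exact h1.dvd_of_dvd_mul_left h

theorem not_S3_int (n : ℤ) (hn : n % 8 = 7) : ¬ S3 (n : ℚ) := by
  rintro ⟨a, b, c, h⟩
  have h0 : (0:ℚ) ≤ n := by
    rw [h]
    positivity
  have h1 : 0 ≤ n := by exact_mod_cast h0
  lift n to ℕ using h1
  refine Pool.Agent.H109R2.ThreeSq.rat_no_sol n (by omega) a b c 1 one_ne_zero ?_
  rw [one_pow, mul_one, ← h]
  push_cast
  rfl

end Sn2

open Sn2 in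
/-- SN2 -/
theorem not_W2 (r l : ℚ) (hr : r ≠ 0) : ¬ W2 (r ^ 2) l := by
  rintro ⟨h1, h2, h3, h4⟩
  obtain ⟨R, L, k, hR, hc, hk, rfl, rfl⟩ := reduce r l hr
  have g1 : S2 ((R : ℚ) ^ 2 - L ^ 2) := by
    apply S2_div hk
    have e : ((R : ℚ) ^ 2 - L ^ 2) * k ^ 2 = (R * k) ^ 2 - (L * k) ^ 2 := by ring
    rw [e]
    exact h1
  have g2 : S2 ((R : ℚ) ^ 2 - 4 * L ^ 2) := by
    apply S2_div hk
    have e : ((R : ℚ) ^ 2 - 4 * L ^ 2) * k ^ 2 = (R * k) ^ 2 - 4 * (L * k) ^ 2 := by ring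
    rw [e]
    exact h2
  have g3 : S3 (((7 * (R ^ 2 - 4 * L ^ 2) : ℤ)) : ℚ) := by
    apply S3_div (k := k / 7) (by positivity)
    have e : (((7 * (R ^ 2 - 4 * L ^ 2) : ℤ)) : ℚ) * (k / 7) ^ 2 =
        ((R * k) ^ 2 - 4 * (L * k) ^ 2) / 7 := by
      push_cast
      ring
    rw [e]
    exact h3
  have g4 : ∀ m : ℤ, 6 * (R ^ 2 + L ^ 2) = 4 * m → S3 (m : ℚ) := by
    intro m hm
    have hm' : (6 : ℚ) * (R ^ 2 + L ^ 2) = 4 * m := by exact_mod_cast hm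
    apply S3_div (k := k / 3) (by positivity)
    have e : (m : ℚ) * (k / 3) ^ 2 = ((R * k) ^ 2 + (L * k) ^ 2) / 6 := by
      linear_combination (-1 / 36 * k ^ 2) * hm'
    rw [e]
    exact h4
  obtain ⟨p1, p2, p3, p4⟩ := pos4 hR g1 g2
  have cA : ∀ p : ℕ, p.Prime → p ≠ 2 → (p : ℤ) ∣ R - L → (p : ℤ) ∣ R + L → False := by
    intro p hp hp2 d1 d2
    refine cop_sub hc p hp hp2 (odd_dvd hp hp2 ?_) (odd_dvd hp hp2 ?_)
    · have := dvd_add d1 d2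
      have e : R - L + (R + L) = 2 * R := by ring
      rwa [e] at this
    · have := dvd_sub d2 d1
      have e : R + L - (R - L) = 2 * L := by ring
      rwa [e] at this
  have cB : ∀ p : ℕ, p.Prime → p ≠ 2 → (p : ℤ) ∣ R - 2 * L → (p : ℤ) ∣ R + 2 * L → False := by
    intro p hp hp2 d1 d2
    refine cop_sub hc p hp hp2 (odd_dvd hp hp2 ?_) (odd_dvd hp hp2 (odd_dvd hp hp2 ?_))
    · have := dvd_add d1 d2
      have e : R - 2 * L + (R + 2 * L) = 2 * R := by ring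
      rwa [e] at this
    · have := dvd_sub d2 d1
      have e : R + 2 * L - (R - 2 * L) = 2 * (2 * L) := by ring
      rwa [e] at this
  have m1 := factBZ p1 p2 (by
    push_cast
    have e : ((R : ℚ) - L) * (R + L) = R ^ 2 - L ^ 2 := by ring
    rw [e]
    exact g1) cA
  have m2 := factBZ p2 p1 (by
    push_cast
    have e : ((R : ℚ) + L) * (R - L) = R ^ 2 - L ^ 2 := by ring
    rw [e]
    exact g1) (fun p hp hp2 d1 d2 => cA p hp hp2 d2 d1)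
  have m3 := factBZ p3 p4 (by
    push_cast
    have e : ((R : ℚ) - 2 * L) * (R + 2 * L) = R ^ 2 - 4 * L ^ 2 := by ring
    rw [e]
    exact g2) cB
  have m4 := factBZ p4 p3 (by
    push_cast
    have e : ((R : ℚ) + 2 * L) * (R - 2 * L) = R ^ 2 - 4 * L ^ 2 := by ring
    rw [e]
    exact g2) (fun p hp hp2 d1 d2 => cB p hp hp2 d2 d1)
  -- not both even
  have hodd : ¬ (R % 2 = 0 ∧ L % 2 = 0) := by
    rintro ⟨e1, e2⟩
    obtain ⟨u, v, huv⟩ := hc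
    obtain ⟨R', rfl⟩ : ∃ R', R = 2 * R' := ⟨R / 2, by omega⟩
    obtain ⟨L', rfl⟩ : ∃ L', L = 2 * L' := ⟨L / 2, by omega⟩
    have : 2 * (u * R' + v * L') = 1 := by linarith
    omega
  have hRo : R % 2 = 1 := by omega
  -- squares modulo 16
  have sq16 : ∀ t : ℤ, t % 2 = 1 → (t % 8 = 1 ∧ t ^ 2 % 16 = 1) ∨ (t % 8 = 3 ∧ t ^ 2 % 16 = 9) ∨
      (t % 8 = 5 ∧ t ^ 2 % 16 = 9) ∨ (t % 8 = 7 ∧ t ^ 2 % 16 = 1) := by
    intro t ht
    have h1 : t % 8 = 1 ∨ t % 8 = 3 ∨ t % 8 = 5 ∨ t % 8 = 7 := by omega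
    obtain ⟨a, b, hab⟩ : ∃ a b : ℤ, t = 8 * a + b ∧ b = t % 8 := ⟨t / 8, t % 8, by omega, rfl⟩
    have e : t ^ 2 = 16 * (4 * a ^ 2 + a * b) + b ^ 2 := by
      rw [hab.1]
      ring
    rw [e]
    rcases h1 with h1 | h1 | h1 | h1 <;>
      · have hb : b = _ := hab.2.trans h1
        rw [hb] at e ⊢
        omega
  rcases Int.emod_two_eq_zero_or_one L with hL | hL
  · -- `L` even
    have hR2 : R ^ 2 % 8 = 1 := by
      have := sq16 R hRo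
      omega
    obtain ⟨L', rfl⟩ : ∃ L', L = 2 * L' := ⟨L / 2, by omega⟩
    have e : (7 * (R ^ 2 - 4 * (2 * L') ^ 2)) % 8 = 7 := by
      have : 7 * (R ^ 2 - 4 * (2 * L') ^ 2) = 7 * R ^ 2 - 8 * (14 * L' ^ 2) := by ring
      omega
    exact not_S3_int _ e g3
  · -- both odd
    have q1 := sq16 R hRo
    have q2 := sq16 L hL
    by_cases h10 : (R ^ 2 + L ^ 2) % 16 = 10
    · obtain ⟨s, hs⟩ : ∃ s, R ^ 2 + L ^ 2 = 16 * s + 10 := ⟨(R ^ 2 + L ^ 2) / 16, by omega⟩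
      refine not_S3_int (24 * s + 15) (by omega) (g4 _ ?_)
      rw [hs]
      ring
    · omega

end Pool.Agent.H565R2.NS
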