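import Pool.Agent.H565R2.NS.Defs
import Pool.Agent.H109R2.ThreeSq

/-!
Task SN7 (helper61): integers `n ≡ 7 mod 8` and `4 n` are not sums of three rational squares.
-/

set_option autoImplicit false

namespace Pool.Agent.H565R2.NS

theorem not_S3_int (n : ℤ) (hn : n % 8 = 7) : ¬ S3 (n : ℚ) := by
  rintro ⟨a, b, c, h⟩
  rcases lt_or_ge n 0 with h0 | h0
  · have h1 : (n : ℚ) < 0 := by exact_mod_cast h0
    nlinarith [sq_nonneg a, sq_nonneg b, sq_nonneg c]
  · obtain ⟨m, rfl⟩ := Int.eq_ofNat_of_zero_le h0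
    have hm : m % 8 = 7 := by omega
    apply Pool.Agent.H109R2.ThreeSq.rat_no_sol m hm a b c 1 one_ne_zero
    rw [← h]
    push_cast
    ring

theorem not_S3_four (n : ℤ) (hn : n % 8 = 7) : ¬ S3 (4 * (n : ℚ)) := by
  rintro ⟨a, b, c, h⟩
  apply not_S3_int n hn
  refine ⟨a / 2, b / 2, c / 2, ?_⟩
  linear_combination h / 4

/-- SN7: `7 mod 8` is not a sum of three rational squares. -/
theorem not_S3_seven (x : ℚ) (hx : x ≠ 0) : ¬ S3 (x ^ 2 / 7) := by
  rintro ⟨a, b, c, h⟩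
  apply not_S3_int 7 (by norm_num)
  refine ⟨7 * a / x, 7 * b / x, 7 * c / x, ?_⟩
  have h1 : x ^ 2 = 7 * (a ^ 2 + b ^ 2 + c ^ 2) := by
    linear_combination 7 * h
  have h2 : x ^ 2 ≠ 0 := pow_ne_zero 2 hx
  rw [div_pow, div_pow, div_pow, ← add_div, ← add_div, eq_div_iff h2]
  push_cast
  linear_combination 7 * h1

end Pool.Agent.H565R2.NS
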