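import Pool.Agent.H565R2.NS.Defs
import Pool.Agent.H591R2.ThreeSq

/-!
# Three squares for `m = 2 mod 4`
-/

set_option autoImplicit false

namespace Pool.Agent.H565R2.NS

open Pool.Agent.H591R2 Pool.Agent.H591R2.St

/-- TSQ (file `Tsq.lean`) Three squares for `m = 2 mod 4`. -/
theorem three_squares_two {m : ℕ} (hm : m % 4 = 2) :
    ∃ x y z : ℤ, x ^ 2 + y ^ 2 + z ^ 2 = m := by
  obtain ⟨n, hn⟩ : ∃ n, m = 2 * n := ⟨m / 2, by omega⟩
  have hnodd : Odd n := Nat.odd_iff.2 (by omega)
  rcases Nat.lt_or_ge 1 n with h1 | h1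
  · have hn0 : n ≠ 0 := by omega
    have : NeZero n := ⟨hn0⟩
    have hcop : Nat.Coprime 8 n := by
      rw [show (8 : ℕ) = 2 ^ 3 by norm_num]
      exact Nat.Coprime.pow_left 3 (Nat.coprime_two_left.2 hnodd)
    -- the residue mod 8
    obtain ⟨a, ha⟩ : ∃ a : ℕ, (n % 4 = 1 ∧ a = 1) ∨ (n % 4 = 3 ∧ a = 5) := by
      rcases (show n % 4 = 1 ∨ n % 4 = 3 by omega) with h | h
      · exact ⟨1, Or.inl ⟨h, rfl⟩⟩
      · exact ⟨5, Or.inr ⟨h, rfl⟩⟩
    -- a prime q with q = a mod 8 and q = -1 mod n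
    obtain ⟨r, hr8, hrn⟩ := Nat.chineseRemainder hcop a (n - 1)
    have : NeZero (8 * n) := ⟨by omega⟩
    have hr8' : r % 8 = a := by
      have h4 : r % 8 = a % 8 := hr8
      omega
    have hrc : Nat.Coprime r (8 * n) := by
      apply Nat.Coprime.mul_right
      · rw [show (8 : ℕ) = 2 ^ 3 by norm_num]
        exact Nat.Coprime.pow_right 3 (Nat.coprime_two_right.2 (Nat.odd_iff.2 (by omega)))
      · have h5 : Nat.gcd n r = Nat.gcd n (n - 1) := by
          have := hrn.gcd_eq
          rwa [Nat.gcd_comm r n, Nat.gcd_comm (n - 1) n] at this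
        have h6 : Nat.Coprime n (n - 1) := by
          have := Nat.coprime_self_sub_right (n := n) (m := 1) (by omega)
          exact this.2 (Nat.coprime_one_right n)
        exact Nat.Coprime.symm (h5.trans h6)
    obtain ⟨q, hqn, hq, hqr⟩ := Nat.forall_exists_prime_gt_and_eq_mod
      (a := (r : ZMod (8 * n))) ((ZMod.isUnit_iff_coprime r (8 * n)).2 hrc) (n + 2)
    have hqr' : q ≡ r [MOD 8 * n] := (ZMod.natCast_eq_natCast_iff q r (8 * n)).1 hqr
    have hq8 : q % 8 = a := by
      have : q % 8 = r % 8 := Nat.ModEq.of_mul_right n hqr'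
      omega
    have hq4 : q % 4 = 1 := by omega
    have hqn1 : q ≡ n - 1 [MOD n] := (Nat.ModEq.of_mul_left 8 hqr').trans hrn
    have hdvdn : n ∣ q + 1 := by
      have h7 : q + 1 ≡ n - 1 + 1 [MOD n] := hqn1.add_right 1
      rw [show n - 1 + 1 = n by omega] at h7
      exact (Nat.modEq_zero_iff_dvd).1 (h7.trans (by simp [Nat.ModEq]))
    have hdvd : (m : ℤ) ∣ q + 1 := by
      have h8 : m ∣ q + 1 := by
        rw [hn]
        exact Nat.Coprime.mul_dvd_of_dvd_of_dvd (Nat.coprime_two_left.2 hnodd) (by omega) hdvdn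
      exact_mod_cast h8
    have hdvdn' : (n : ℤ) ∣ q + 1 := by exact_mod_cast hdvdn
    have : Fact q.Prime := ⟨hq⟩
    have hqodd : Odd q := Nat.odd_iff.2 (by omega)
    -- `-m` is a square modulo q
    have h6 : jacobiSym (-(m : ℤ)) q = 1 := by
      have h9 : jacobiSym (q : ℤ) n = jacobiSym (-1) n := by
        apply jacobiSym.mod_left'
        apply Int.emod_eq_emod_iff_emod_sub_eq_zero.2
        apply Int.emod_eq_zero_of_dvd
        simpa using hdvdn'
      have hm2 : (m : ℤ) = 2 * (n : ℤ) := by exact_mod_cast hn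
      rw [jacobiSym.neg _ hqodd, ZMod.χ₄_nat_one_mod_four hq4, one_mul, hm2,
        jacobiSym.mul_left, jacobiSym.at_two hqodd,
        ← jacobiSym.quadratic_reciprocity_one_mod_four hq4 hnodd, h9,
        jacobiSym.at_neg_one hnodd, ZMod.χ₈_nat_eq_if_mod_eight]
      rcases ha with ⟨h, rfl⟩ | ⟨h, rfl⟩
      · rw [ZMod.χ₄_nat_one_mod_four h, if_neg (by omega), if_pos (by omega)]
        norm_num
      · rw [ZMod.χ₄_nat_three_mod_four h, if_neg (by omega), if_neg (by omega)]
        norm_num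
    have h7 := ZMod.isSquare_of_jacobiSym_eq_one h6
    obtain ⟨b, hb⟩ : ∃ b : ℤ, (q : ℤ) ∣ b ^ 2 + m := by
      obtain ⟨t, ht⟩ := h7
      refine ⟨t.val, ?_⟩
      rw [← ZMod.intCast_zmod_eq_zero_iff_dvd]
      push_cast
      rw [ZMod.natCast_zmod_val]
      push_cast at ht
      linear_combination -ht
    obtain ⟨c, hc⟩ := hb
    obtain ⟨l, hl⟩ := hdvd
    have hm0' : (0 : ℤ) < m := by omega
    set s : St := ⟨q, b, 0, c, 1, l, 0, 0, 1⟩ with hs
    have hD : s.D2 = m := by
      simp only [D2, hs]; linarith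
    have hdet : s.det = 1 := by
      simp only [det, hs]
      have : (q : ℤ) * c * l + 2 * b * 0 * 1 - q * 1 ^ 2 - b ^ 2 * l - 0 ^ 2 * c
        = (q * c - b ^ 2) * l - q := by ring
      rw [this]
      have h8 : (q : ℤ) * c - b ^ 2 = m := by linarith
      rw [h8]; linarith
    have hQ : s.Q = m := by
      simp only [Q, hs]; linarith
    have hg : Good (m : ℤ) (max (q : ℤ) (max c l)) s :=
      ⟨by simp only [hs]; exact_mod_cast hq.pos, by rw [hD]; exact hm0', hdet, hQ,
        le_max_left _ _, (le_max_left _ _).trans (le_max_right _ _),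
        (le_max_right _ _).trans (le_max_right _ _)⟩
    exact exists_sq hg
  · have : m = 2 := by omega
    subst this
    exact ⟨1, 1, 0, by norm_num⟩

end Pool.Agent.H565R2.NS
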