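import Pool.Agent.H565R2.NS.Ex
import Pool.Agent.H565R2.NS.Tsq
import Pool.Agent.H565R2.NS.Sn7
import Pool.Agent.H565R2.NS.Sn1
import Pool.Agent.H565R2.NS.Sn2
import Pool.Agent.H573R2.NonzeroPE

/-!
# The nonsquares of `ℚ` by a positive existential formula
-/

set_option autoImplicit false

namespace Pool.Agent.H565R2.NS

theorem S2.scale {n : ℚ} (h : S2 n) (k : ℚ) : S2 (n * k ^ 2) := by
  obtain ⟨a, b, rfl⟩ := h
  exact ⟨a * k, b * k, by ring⟩

theorem S3.scale {n : ℚ} (h : S3 n) (k : ℚ) : S3 (n * k ^ 2) := by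
  obtain ⟨a, b, c, rfl⟩ := h
  exact ⟨a * k, b * k, c * k, by ring⟩

theorem W1.scale {x l : ℚ} (h : W1 x l) (k : ℚ) : W1 (x * k ^ 2) (l * k) := by
  obtain ⟨h1, h2, h3, h4⟩ := h
  refine ⟨?_, ?_, ?_, ?_⟩
  · have := h1.scale k; rwa [show (x - l ^ 2) * k ^ 2 = x * k ^ 2 - (l * k) ^ 2 by ring] at this
  · have := h2.scale k
    rwa [show (x - 4 * l ^ 2) * k ^ 2 = x * k ^ 2 - 4 * (l * k) ^ 2 by ring] at this
  · have := h3.scale k
    rwa [show (x - l ^ 2) / 7 * k ^ 2 = (x * k ^ 2 - (l * k) ^ 2) / 7 by ring] at this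
  · have := h4.scale k
    rwa [show (x - 4 * l ^ 2) / 3 * k ^ 2 = (x * k ^ 2 - 4 * (l * k) ^ 2) / 3 by ring] at this

theorem W2.scale {x l : ℚ} (h : W2 x l) (k : ℚ) : W2 (x * k ^ 2) (l * k) := by
  obtain ⟨h1, h2, h3, h4⟩ := h
  refine ⟨?_, ?_, ?_, ?_⟩
  · have := h1.scale k; rwa [show (x - l ^ 2) * k ^ 2 = x * k ^ 2 - (l * k) ^ 2 by ring] at this
  · have := h2.scale k
    rwa [show (x - 4 * l ^ 2) * k ^ 2 = x * k ^ 2 - 4 * (l * k) ^ 2 by ring] at this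
  · have := h3.scale k
    rwa [show (x - 4 * l ^ 2) / 7 * k ^ 2 = (x * k ^ 2 - 4 * (l * k) ^ 2) / 7 by ring] at this
  · have := h4.scale k
    rwa [show (x + l ^ 2) / 6 * k ^ 2 = (x * k ^ 2 + (l * k) ^ 2) / 6 by ring] at this

/-- squarefree part of a positive rational -/
theorem exists_squarefree {x : ℚ} (hx : 0 < x) :
    ∃ (a : ℕ) (k : ℚ), Squarefree a ∧ k ≠ 0 ∧ x = a * k ^ 2 := by
  have hn : 0 < x.num := Rat.num_pos.2 hx
  obtain ⟨a, b, hab, ha⟩ := Nat.sq_mul_squarefree (x.num.toNat * x.den)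
  have hd : (x.den : ℚ) ≠ 0 := by exact_mod_cast x.den_nz
  have hN : x.num.toNat * x.den ≠ 0 := by
    have h1 := x.den_nz
    have h2 : x.num.toNat ≠ 0 := by omega
    positivity
  have hb : b ≠ 0 := by
    rintro rfl
    apply hN
    rw [← hab]; simp
  have hb' : (b : ℚ) ≠ 0 := by exact_mod_cast hb
  refine ⟨a, b / x.den, ha, div_ne_zero hb' hd, ?_⟩
  have h1 : ((b ^ 2 * a : ℕ) : ℚ) = (x.num.toNat : ℚ) * x.den := by rw [hab]; push_cast; rfl
  have h2 : ((x.num.toNat : ℤ) : ℚ) = x.num := by rw [Int.toNat_of_nonneg hn.le]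
  have h3 : (x.num.toNat : ℚ) = x.num := by rw [← h2]; rfl
  have h4 : x * x.den = x.num := Rat.mul_den_eq_num x
  rw [h3] at h1
  push_cast at h1
  rw [div_pow, ← mul_div_assoc, eq_div_iff (pow_ne_zero 2 hd)]
  rw [show (a : ℚ) * b ^ 2 = b ^ 2 * a by ring, h1, ← h4]
  ring

theorem nonsquare_iff (x : ℚ) : ¬ IsSquare x ↔ x ≠ 0 ∧
    ((∃ a b c d : ℚ, -x = a ^ 2 + b ^ 2 + c ^ 2 + d ^ 2)
      ∨ S3 (x / 7) ∨ (∃ l, W1 x l) ∨ ∃ l, W2 x l) := by
  constructor
  · intro hns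
    have hx0 : x ≠ 0 := by
      rintro rfl
      exact hns ⟨0, by ring⟩
    refine ⟨hx0, ?_⟩
    rcases lt_or_gt_of_ne hx0 with hneg | hpos
    · left
      exact Pool.Agent.H573R2.NonzeroPE.four_squares (by linarith)
    right
    obtain ⟨a, k, ha, hk, rfl⟩ := exists_squarefree hpos
    have ha0 : a ≠ 0 := ha.ne_zero
    have ha1 : a ≠ 1 := by
      rintro rfl
      apply hns
      exact ⟨k, by push_cast; ring⟩
    have ha4 : a % 4 ≠ 0 := by
      intro h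
      have h2 : 2 * 2 ∣ a := Nat.dvd_of_mod_eq_zero h
      have := ha 2 h2
      rw [Nat.isUnit_iff] at this
      omega
    by_cases h8 : a % 8 = 1
    · right
      obtain ⟨l, hl | hl⟩ := exists_W ha h8 (by omega)
      · exact Or.inl ⟨l * k, hl.scale k⟩
      · exact Or.inr ⟨l * k, hl.scale k⟩
    · left
      have key : ∃ u v w : ℤ, u ^ 2 + v ^ 2 + w ^ 2 = ((7 * a : ℕ) : ℤ) := by
        by_cases h2 : a % 2 = 0
        · exact three_squares_two (m := 7 * a) (by omega)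
        · by_cases h5 : a % 8 = 5
          · exact Pool.Agent.H591R2.three_squares (m := 7 * a) (by omega)
          · exact Pool.Agent.H141R2.FS.three_squares_one (m := 7 * a) (by omega)
      obtain ⟨u, v, w, h⟩ := key
      have h' : (u : ℚ) ^ 2 + v ^ 2 + w ^ 2 = 7 * a := by exact_mod_cast h
      have h3 : S3 (7 * (a : ℚ)) := ⟨u, v, w, h'.symm⟩
      have := h3.scale (k / 7)
      rwa [show (7 * (a : ℚ)) * (k / 7) ^ 2 = a * k ^ 2 / 7 by ring] at this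
  · rintro ⟨hx0, h⟩ ⟨r, rfl⟩
    have hr : r ≠ 0 := by
      rintro rfl
      exact hx0 (by ring)
    rw [← pow_two] at h
    rcases h with ⟨a, b, c, d, h⟩ | h | ⟨l, h⟩ | ⟨l, h⟩
    · have : 0 < r ^ 2 := by positivity
      nlinarith [sq_nonneg a, sq_nonneg b, sq_nonneg c, sq_nonneg d]
    · exact not_S3_seven r hr h
    · exact not_W1 r l hr h
    · exact not_W2 r l hr h

end Pool.Agent.H565R2.NS
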