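import Pool.Agent.H565R2.NS.Defs
import Pool.Agent.H573R2.NonzeroPE

/-!
# From the formula to the matrix form
-/

set_option autoImplicit false

namespace Pool.Agent.H565R2.NS

namespace Pex

/-- The matrix form, with arbitrary finite index types. -/
def Rep (A : Set ℚ) : Prop :=
  ∃ (K M E S : Type) (_ : Fintype K) (_ : Fintype M) (_ : Fintype E) (_ : Fintype S)
    (α : K → E → ℤ) (β : K → E → M → ℤ) (γ : K → E → ℤ) (p : K → S → ℕ) (q : K → S → M → ℕ)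
    (r : K → S → ℕ), ∀ x : ℚ, x ∈ A ↔ ∃ i : K, ∃ y : M → ℚ,
      (∀ j : E, (α i j : ℚ) * x + (∑ l : M, (β i j l : ℚ) * y l) + (γ i j : ℚ) = 0) ∧
      (∀ j : S, IsSquare ((p i j : ℚ) * x + (∑ l : M, (q i j l : ℚ) * y l) + (r i j : ℚ)))

theorem Rep.union {A B : Set ℚ} (hA : Rep A) (hB : Rep B) : Rep (A ∪ B) := by
  obtain ⟨K, M, E, S, fK, fM, fE, fS, α, β, γ, p, q, r, h⟩ := hA
  obtain ⟨K', M', E', S', fK', fM', fE', fS', α', β', γ', p', q', r', h'⟩ := hB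
  refine ⟨K ⊕ K', M ⊕ M', E ⊕ E', S ⊕ S', inferInstance, inferInstance, inferInstance,
    inferInstance,
    Sum.elim (fun i => Sum.elim (α i) 0) (fun i => Sum.elim 0 (α' i)),
    Sum.elim (fun i => Sum.elim (fun j => Sum.elim (β i j) 0) 0)
      (fun i => Sum.elim 0 (fun j => Sum.elim 0 (β' i j))),
    Sum.elim (fun i => Sum.elim (γ i) 0) (fun i => Sum.elim 0 (γ' i)),
    Sum.elim (fun i => Sum.elim (p i) 0) (fun i => Sum.elim 0 (p' i)),
    Sum.elim (fun i => Sum.elim (fun j => Sum.elim (q i j) 0) 0)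
      (fun i => Sum.elim 0 (fun j => Sum.elim 0 (q' i j))),
    Sum.elim (fun i => Sum.elim (r i) 0) (fun i => Sum.elim 0 (r' i)), fun x => ?_⟩
  constructor
  · rintro (hx | hx)
    · obtain ⟨i, y, h1, h2⟩ := (h x).1 hx
      refine ⟨Sum.inl i, Sum.elim y 0, ?_, ?_⟩
      · rintro (j | j)
        · simpa [Fintype.sum_sum_type] using h1 j
        · simp
      · rintro (j | j)
        · simpa [Fintype.sum_sum_type] using h2 j
        · simp
    · obtain ⟨i, y, h1, h2⟩ := (h' x).1 hx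
      refine ⟨Sum.inr i, Sum.elim 0 y, ?_, ?_⟩
      · rintro (j | j)
        · simp
        · simpa [Fintype.sum_sum_type] using h1 j
      · rintro (j | j)
        · simp
        · simpa [Fintype.sum_sum_type] using h2 j
  · rintro ⟨i | i, y, h1, h2⟩
    · left
      refine (h x).2 ⟨i, fun l => y (Sum.inl l), fun j => ?_, fun j => ?_⟩
      · simpa [Fintype.sum_sum_type] using h1 (Sum.inl j)
      · simpa [Fintype.sum_sum_type] using h2 (Sum.inl j)
    · right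
      refine (h' x).2 ⟨i, fun l => y (Sum.inr l), fun j => ?_, fun j => ?_⟩
      · simpa [Fintype.sum_sum_type] using h1 (Sum.inr j)
      · simpa [Fintype.sum_sum_type] using h2 (Sum.inr j)

theorem Rep.inter {A B : Set ℚ} (hA : Rep A) (hB : Rep B) : Rep (A ∩ B) := by
  obtain ⟨K, M, E, S, fK, fM, fE, fS, α, β, γ, p, q, r, h⟩ := hA
  obtain ⟨K', M', E', S', fK', fM', fE', fS', α', β', γ', p', q', r', h'⟩ := hB
  refine ⟨K × K', M ⊕ M', E ⊕ E', S ⊕ S', inferInstance, inferInstance, inferInstance,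
    inferInstance,
    fun i => Sum.elim (α i.1) (α' i.2),
    fun i => Sum.elim (fun j => Sum.elim (β i.1 j) 0) (fun j => Sum.elim 0 (β' i.2 j)),
    fun i => Sum.elim (γ i.1) (γ' i.2),
    fun i => Sum.elim (p i.1) (p' i.2),
    fun i => Sum.elim (fun j => Sum.elim (q i.1 j) 0) (fun j => Sum.elim 0 (q' i.2 j)),
    fun i => Sum.elim (r i.1) (r' i.2), fun x => ?_⟩
  constructor
  · rintro ⟨hx, hx'⟩
    obtain ⟨i, y, h1, h2⟩ := (h x).1 hx
    obtain ⟨i', y', h1', h2'⟩ := (h' x).1 hx'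
    refine ⟨(i, i'), Sum.elim y y', ?_, ?_⟩
    · rintro (j | j)
      · simpa [Fintype.sum_sum_type] using h1 j
      · simpa [Fintype.sum_sum_type] using h1' j
    · rintro (j | j)
      · simpa [Fintype.sum_sum_type] using h2 j
      · simpa [Fintype.sum_sum_type] using h2' j
  · rintro ⟨i, y, h1, h2⟩
    constructor
    · refine (h x).2 ⟨i.1, fun l => y (Sum.inl l), fun j => ?_, fun j => ?_⟩
      · simpa [Fintype.sum_sum_type] using h1 (Sum.inl j)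
      · simpa [Fintype.sum_sum_type] using h2 (Sum.inl j)
    · refine (h' x).2 ⟨i.2, fun l => y (Sum.inr l), fun j => ?_, fun j => ?_⟩
      · simpa [Fintype.sum_sum_type] using h1 (Sum.inr j)
      · simpa [Fintype.sum_sum_type] using h2 (Sum.inr j)

/-- Back to `Fin`. -/
theorem Rep.toFin {A : Set ℚ} (hA : Rep A) :
    ∃ (k m e s : ℕ) (α : Fin k → Fin e → ℤ) (β : Fin k → Fin e → Fin m → ℤ)
        (γ : Fin k → Fin e → ℤ) (p : Fin k → Fin s → ℕ) (q : Fin k → Fin s → Fin m → ℕ)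
        (r : Fin k → Fin s → ℕ),
        ∀ x : ℚ, x ∈ A ↔ ∃ i : Fin k, ∃ y : Fin m → ℚ,
          (∀ j : Fin e, (α i j : ℚ) * x + (∑ l : Fin m, (β i j l : ℚ) * y l) + (γ i j : ℚ) = 0) ∧
          (∀ j : Fin s, IsSquare ((p i j : ℚ) * x + (∑ l : Fin m, (q i j l : ℚ) * y l)
            + (r i j : ℚ))) := by
  obtain ⟨K, M, E, S, fK, fM, fE, fS, α, β, γ, p, q, r, h⟩ := hA
  let kK := Fintype.equivFin K
  let kM := Fintype.equivFin M
  let kE := Fintype.equivFin E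
  let kS := Fintype.equivFin S
  refine ⟨Fintype.card K, Fintype.card M, Fintype.card E, Fintype.card S,
    fun i j => α (kK.symm i) (kE.symm j), fun i j l => β (kK.symm i) (kE.symm j) (kM.symm l),
    fun i j => γ (kK.symm i) (kE.symm j), fun i j => p (kK.symm i) (kS.symm j),
    fun i j l => q (kK.symm i) (kS.symm j) (kM.symm l), fun i j => r (kK.symm i) (kS.symm j),
    fun x => ?_⟩
  rw [h x]
  constructor
  · rintro ⟨i, y, h1, h2⟩
    refine ⟨kK i, fun l => y (kM.symm l), fun j => ?_, fun j => ?_⟩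
    · simp only [Equiv.symm_apply_apply]
      rw [Equiv.sum_comp kM.symm (fun l => (β i (kE.symm j) l : ℚ) * y l)]
      exact h1 _
    · simp only [Equiv.symm_apply_apply]
      rw [Equiv.sum_comp kM.symm (fun l => (q i (kS.symm j) l : ℚ) * y l)]
      exact h2 _
  · rintro ⟨i, y, h1, h2⟩
    refine ⟨kK.symm i, fun l => y (kM l), fun j => ?_, fun j => ?_⟩
    · have := h1 (kE j)
      simp only [Equiv.symm_apply_apply] at this
      rw [← Equiv.sum_comp kM.symm (fun l => (β (kK.symm i) j l : ℚ) * y (kM l))]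
      simpa using this
    · have := h2 (kS j)
      simp only [Equiv.symm_apply_apply] at this
      rw [← Equiv.sum_comp kM.symm (fun l => (q (kK.symm i) j l : ℚ) * y (kM l))]
      simpa using this

theorem rep_ne_zero : Rep {x : ℚ | x ≠ 0} := by
  refine ⟨Fin 1, Fin 7, Fin 2, Fin 8, inferInstance, inferInstance, inferInstance, inferInstance,
    fun _ => ![0, 1],
    fun _ => ![![0, 1, -1, -1, -1, -1, 0], ![1, -2, 0, 0, 0, 0, -1]],
    fun _ => ![-1, 0],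
    fun _ => 0,
    fun _ => ![![1, 0, 0, 0, 0, 0, 0], ![0, 1, 0, 0, 0, 0, 0], ![0, 0, 1, 0, 0, 0, 0],
      ![0, 0, 0, 1, 0, 0, 0], ![0, 0, 0, 0, 1, 0, 0], ![0, 0, 0, 0, 0, 1, 0],
      ![0, 0, 0, 0, 0, 0, 1], ![1, 2, 0, 0, 0, 0, 0]],
    fun _ => 0, fun x => ?_⟩
  rw [Set.mem_ofPred_eq, Pool.Agent.H573R2.NonzeroPE.ne_zero_iff]
  constructor
  · rintro ⟨u, v, a, b, c, d, hv, ha, hb, hc, hd, h2, h3, h4, h5⟩
    refine ⟨0, ![u, v, a, b, c, d, u - 2 * v + x], ?_, ?_⟩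
    · intro j
      fin_cases j <;> simp [Fin.sum_univ_succ] <;> linarith
    · intro j
      fin_cases j <;> simp [Fin.sum_univ_succ] <;> assumption
  · rintro ⟨i, y, h1, h2⟩
    have e0 := h1 0
    have e1 := h1 1
    have s0 := h2 0
    have s1 := h2 1
    have s2 := h2 2
    have s3 := h2 3
    have s4 := h2 4
    have s5 := h2 5
    have s6 := h2 6
    have s7 := h2 7
    simp [Fin.sum_univ_succ] at e0 e1 s0 s1 s2 s3 s4 s5 s6 s7
    refine ⟨y 0, y 1, y 2, y 3, y 4, y 5, by linarith, s2, s3, s4, s5, s1, s0, s7, ?_⟩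
    have : y 0 - 2 * y 1 + x = y 6 := by linarith
    rw [this]
    exact s6

/-- A single system whose atoms say that every auxiliary variable is a square. -/
theorem rep_single {m e : ℕ} (α : Fin e → ℤ) (β : Fin e → Fin m → ℤ) (A : Set ℚ)
    (h : ∀ x, x ∈ A ↔ ∃ y : Fin m → ℚ,
      ∀ j, (α j : ℚ) * x + ∑ l, (β j l : ℚ) * (y l) ^ 2 = 0) : Rep A := by
  classical
  refine ⟨Fin 1, Fin m, Fin e, Fin m, inferInstance, inferInstance, inferInstance, inferInstance,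
    fun _ => α, fun _ => β, fun _ => 0, fun _ => 0, fun _ j l => if j = l then 1 else 0,
    fun _ => 0, fun x => ?_⟩
  rw [h x]
  constructor
  · rintro ⟨y, hy⟩
    refine ⟨0, fun l => y l ^ 2, fun j => ?_, fun j => ?_⟩
    · simpa using hy j
    · simpa using IsSquare.sq (y j)
  · rintro ⟨_, y, h1, h2⟩
    have h2' : ∀ j, ∃ z, y j = z ^ 2 := by
      intro j
      obtain ⟨z, hz⟩ := h2 j
      refine ⟨z, ?_⟩
      simp at hz
      rw [hz, sq]
    choose z hz using h2'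
    refine ⟨z, fun j => ?_⟩
    have := h1 j
    simp only [hz] at this
    simpa using this

theorem rep_neg : Rep {x : ℚ | ∃ a b c d : ℚ, -x = a ^ 2 + b ^ 2 + c ^ 2 + d ^ 2} := by
  refine rep_single (m := 4) (e := 1) ![1] ![![1, 1, 1, 1]] _ fun x => ?_
  simp only [Set.mem_ofPred_eq]
  constructor
  · rintro ⟨a, b, c, d, h⟩
    refine ⟨![a, b, c, d], fun j => ?_⟩
    fin_cases j
    simp [Fin.sum_univ_succ]
    linarith
  · rintro ⟨y, h⟩
    have := h 0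
    simp [Fin.sum_univ_succ] at this
    exact ⟨y 0, y 1, y 2, y 3, by linarith⟩

theorem rep_seven : Rep {x : ℚ | S3 (x / 7)} := by
  refine rep_single (m := 3) (e := 1) ![1] ![![-7, -7, -7]] _ fun x => ?_
  simp only [Set.mem_ofPred_eq, S3]
  constructor
  · rintro ⟨a, b, c, h⟩
    refine ⟨![a, b, c], fun j => ?_⟩
    fin_cases j
    simp [Fin.sum_univ_succ]
    linarith
  · rintro ⟨y, h⟩
    have := h 0
    simp [Fin.sum_univ_succ] at this
    exact ⟨y 0, y 1, y 2, by linarith⟩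

theorem rep_W1 : Rep {x : ℚ | ∃ l, W1 x l} := by
  refine rep_single (m := 11) (e := 4) ![1, 1, 1, 1]
    ![![-1, -1, -1, 0, 0, 0, 0, 0, 0, 0, 0],
      ![-4, 0, 0, -1, -1, 0, 0, 0, 0, 0, 0],
      ![-1, 0, 0, 0, 0, -7, -7, -7, 0, 0, 0],
      ![-4, 0, 0, 0, 0, 0, 0, 0, -3, -3, -3]] _ fun x => ?_
  simp only [Set.mem_ofPred_eq, S3, S2, W1]
  constructor
  · rintro ⟨l, ⟨a1, a2, ha⟩, ⟨b1, b2, hb⟩, ⟨c1, c2, c3, hc⟩, ⟨d1, d2, d3, hd⟩⟩
    refine ⟨![l, a1, a2, b1, b2, c1, c2, c3, d1, d2, d3], fun j => ?_⟩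
    fin_cases j <;> simp [Fin.sum_univ_succ] <;> linarith
  · rintro ⟨y, h⟩
    have e0 := h 0
    have e1 := h 1
    have e2 := h 2
    have e3 := h 3
    simp [Fin.sum_univ_succ] at e0 e1 e2 e3
    exact ⟨y 0, ⟨y 1, y 2, by linarith⟩, ⟨y 3, y 4, by linarith⟩,
      ⟨y 5, y 6, y 7, by linarith⟩, ⟨y 8, y 9, y 10, by linarith⟩⟩

theorem rep_W2 : Rep {x : ℚ | ∃ l, W2 x l} := by
  refine rep_single (m := 11) (e := 4) ![1, 1, 1, 1]
    ![![-1, -1, -1, 0, 0, 0, 0, 0, 0, 0, 0],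
      ![-4, 0, 0, -1, -1, 0, 0, 0, 0, 0, 0],
      ![-4, 0, 0, 0, 0, -7, -7, -7, 0, 0, 0],
      ![1, 0, 0, 0, 0, 0, 0, 0, -6, -6, -6]] _ fun x => ?_
  simp only [Set.mem_ofPred_eq, S3, S2, W2]
  constructor
  · rintro ⟨l, ⟨a1, a2, ha⟩, ⟨b1, b2, hb⟩, ⟨c1, c2, c3, hc⟩, ⟨d1, d2, d3, hd⟩⟩
    refine ⟨![l, a1, a2, b1, b2, c1, c2, c3, d1, d2, d3], fun j => ?_⟩
    fin_cases j <;> simp [Fin.sum_univ_succ] <;> linarith
  · rintro ⟨y, h⟩
    have e0 := h 0
    have e1 := h 1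
    have e2 := h 2
    have e3 := h 3
    simp [Fin.sum_univ_succ] at e0 e1 e2 e3
    exact ⟨y 0, ⟨y 1, y 2, by linarith⟩, ⟨y 3, y 4, by linarith⟩,
      ⟨y 5, y 6, y 7, by linarith⟩, ⟨y 8, y 9, y 10, by linarith⟩⟩

end Pex

/-- PEX (file `Pex.lean`) from the formula to the matrix form. -/
theorem pe_form (h : ∀ x : ℚ, ¬ IsSquare x ↔ x ≠ 0 ∧ ((∃ a b c d : ℚ, -x = a ^ 2 + b ^ 2 + c ^ 2 + d ^ 2)
      ∨ S3 (x / 7) ∨ (∃ l, W1 x l) ∨ ∃ l, W2 x l)) :
    ∀ A : Set ℚ, (A = {x : ℚ | x ≠ 0} ∨ A = {x : ℚ | ¬ IsSquare x}) →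
      ∃ (k m e s : ℕ) (α : Fin k → Fin e → ℤ) (β : Fin k → Fin e → Fin m → ℤ)
        (γ : Fin k → Fin e → ℤ) (p : Fin k → Fin s → ℕ) (q : Fin k → Fin s → Fin m → ℕ)
        (r : Fin k → Fin s → ℕ),
        ∀ x : ℚ, x ∈ A ↔ ∃ i : Fin k, ∃ y : Fin m → ℚ,
          (∀ j : Fin e, (α i j : ℚ) * x + (∑ l : Fin m, (β i j l : ℚ) * y l) + (γ i j : ℚ) = 0) ∧
          (∀ j : Fin s, IsSquare ((p i j : ℚ) * x + (∑ l : Fin m, (q i j l : ℚ) * y l)
            + (r i j : ℚ))) := by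
  rintro A (rfl | rfl)
  · exact Pex.rep_ne_zero.toFin
  · have e : {x : ℚ | ¬ IsSquare x} = {x : ℚ | x ≠ 0} ∩
        ({x : ℚ | ∃ a b c d : ℚ, -x = a ^ 2 + b ^ 2 + c ^ 2 + d ^ 2} ∪ ({x : ℚ | S3 (x / 7)} ∪
          ({x : ℚ | ∃ l, W1 x l} ∪ {x : ℚ | ∃ l, W2 x l}))) := by
      ext x
      exact h x
    rw [e]
    exact (Pex.rep_ne_zero.inter
      (Pex.rep_neg.union (Pex.rep_seven.union (Pex.rep_W1.union Pex.rep_W2)))).toFin

end Pool.Agent.H565R2.NS
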