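import Pool.Agent.H565R2.NS.Defs

/-!
# Statements of the tasks (stubs)
-/

set_option autoImplicit false

namespace Pool.Agent.H565R2.NS

/-- LEG (file `Leg.lean`) Legendre's lemma by the pigeonhole principle. -/
theorem legendre {D m : ℕ} (hD : D % 8 = 1) (hm : m % 8 = 1) (hc : Nat.Coprime D m)
    (h1 : ∃ r : ℤ, (m : ℤ) ∣ r ^ 2 + D) (h2 : ∃ s : ℤ, (D : ℤ) ∣ s ^ 2 - m) :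
    ∃ X Y Z : ℤ, Z ≠ 0 ∧ X ^ 2 + D * Y ^ 2 = m * Z ^ 2 := by
  sorry

/-- TSQ (file `Tsq.lean`) Three squares for `m = 2 mod 4`. -/
theorem three_squares_two {m : ℕ} (hm : m % 4 = 2) :
    ∃ x y z : ℤ, x ^ 2 + y ^ 2 + z ^ 2 = m := by
  sorry

/-- SN7 (file `Sn7.lean`) `7 mod 8` is not a sum of three rational squares. -/
theorem not_S3_seven (x : ℚ) (hx : x ≠ 0) : ¬ S3 (x ^ 2 / 7) := by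
  sorry

/-- SN1 (file `Sn1.lean`) -/
theorem not_W1 (r l : ℚ) (hr : r ≠ 0) : ¬ W1 (r ^ 2) l := by
  sorry

/-- SN2 (file `Sn2.lean`) -/
theorem not_W2 (r l : ℚ) (hr : r ≠ 0) : ¬ W2 (r ^ 2) l := by
  sorry

/-- OMG (file `Omg.lean`) orthogonal integer vectors `ω`, `c` with norms `x` and `γ`. -/
theorem exists_omega {x : ℕ} (hx : Squarefree x) (h8 : x % 8 = 1) :
    ∃ e w1 w2 c1 c2 c3 : ℤ, ∃ γ : ℕ, e ^ 2 + w1 ^ 2 + w2 ^ 2 = x ∧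
      e % 2 = 1 ∧ w1 % 2 = 0 ∧ w2 % 2 = 0 ∧ e * c1 + w1 * c2 + w2 * c3 = 0 ∧
      c1 ^ 2 + c2 ^ 2 + c3 ^ 2 = γ ∧ γ % 8 = 1 ∧ Nat.Coprime γ x ∧
      (∃ s : ℤ, (γ : ℤ) ∣ s ^ 2 + x) ∧ (∃ s : ℤ, (x : ℤ) ∣ s ^ 2 + γ) := by
  sorry

/-- QCH (file `Qch.lean`) choice of the prime `q` and of the quaternion `h` of norm `q`. -/
theorem exists_h {x : ℕ} (hx : Squarefree x) (h8 : x % 8 = 1) (h1 : 1 < x) (M : ℤ) (hM : M ≠ 0)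
    (N : ℕ) :
    ∃ h0 h1 h2 h3 : ℤ, ∃ q : ℕ, q.Prime ∧ N < q ∧ q % 8 = 3 ∧ jacobiSym x q = -1 ∧
      h0 ^ 2 + h1 ^ 2 + h2 ^ 2 + h3 ^ 2 = q ∧
      ¬ (q : ℤ) ∣ h0 ^ 2 + h1 ^ 2 + 9 * (h2 ^ 2 + h3 ^ 2) ∧
      (h0 ^ 2 + h1 ^ 2 + 9 * (h2 ^ 2 + h3 ^ 2)) % 8 = 3 ∧
      ∀ p : ℕ, p.Prime → (p : ℤ) ∣ M → ¬ (p : ℤ) ∣ 2 * x →
        ¬ (p : ℤ) ∣ h0 ^ 2 + h1 ^ 2 + 9 * (h2 ^ 2 + h3 ^ 2) := by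
  sorry

/-- LOC (file `Loc.lean`) the form `B` modulo a prime `ℓ ∣ x`. -/
theorem loc {l : ℕ} [Fact l.Prime] (hl : l ≠ 2) (d : Dat (ZMod l)) (hX : d.X = 0)
    (h0 : ¬ (d.e = 0 ∧ d.w1 = 0 ∧ d.w2 = 0)) (hq : d.q ≠ 0) :
    ∃ f0 f1 s : ZMod l, s ≠ 0 ∧ s ^ 2 + d.q * d.B f0 f1 = 0 := by
  sorry

/-- CNT (file `Cnt.lean`) the form `B` modulo a prime not dividing `2 x q`. -/
theorem content {F : Type*} [Field F] (h2 : (2 : F) ≠ 0) (d : Dat F) (hq : d.q ≠ 0)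
    (hM : (25 * d.X - 16 * d.e ^ 2) * (d.w1 ^ 2 + d.w2 ^ 2) ≠ 0) :
    ¬ (d.b11 = 0 ∧ d.b12 = 0 ∧ d.b22 = 0) := by
  sorry

/-- FST (file `Fst.lean`) choice of a good value of a binary quadratic form. -/
theorem exists_value {b11 b12 b22 : ℤ} {x q : ℕ} (hx : x % 8 = 1) (hx0 : Squarefree x)
    (hb11 : b11 % 8 = 3) (hD8 : (b11 * b22 - b12 ^ 2) % 8 = 1) (hb0 : 0 < b11)
    (hD0 : 0 < b11 * b22 - b12 ^ 2)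
    (H1 : ∀ p : ℕ, p.Prime → (p : ℤ) ∣ b11 * b22 - b12 ^ 2 → ¬ p ∣ x →
      ∃ f0 f1 : ℤ, ¬ (p : ℤ) ∣ b11 * f0 ^ 2 + 2 * b12 * f0 * f1 + b22 * f1 ^ 2)
    (H2 : ∀ p : ℕ, p.Prime → p ∣ x → ∃ f0 f1 s : ℤ, ¬ (p : ℤ) ∣ s ∧
      (p : ℤ) ∣ s ^ 2 + q * (b11 * f0 ^ 2 + 2 * b12 * f0 * f1 + b22 * f1 ^ 2)) :
    ∃ f0 f1 : ℤ, ∃ c : ℕ, b11 * f0 ^ 2 + 2 * b12 * f0 * f1 + b22 * f1 ^ 2 = c ∧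
      IsCoprime f0 f1 ∧ c % 8 = 3 ∧ IsCoprime (c : ℤ) (b11 * b22 - b12 ^ 2) ∧ Nat.Coprime c x ∧
      ∀ p : ℕ, p.Prime → p ∣ x → ∃ s : ℤ, (p : ℤ) ∣ s ^ 2 + q * c := by
  sorry

/-- TCH (file `Tch.lean`) choice of the prime `t`. -/
theorem exists_t {c D x q : ℕ} (hx : x % 8 = 1) (hx0 : Squarefree x) (hc : c % 8 = 3)
    (hD : D % 8 = 1) (hcD : Nat.Coprime c D) (hcx : Nat.Coprime c x) (hq : q.Prime)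
    (hq8 : q % 8 = 3) (hxq : jacobiSym x q = -1) (hDc : ∃ s : ℤ, (c : ℤ) ∣ s ^ 2 + D)
    (hl : ∀ p : ℕ, p.Prime → p ∣ x → ∃ s : ℤ, (p : ℤ) ∣ s ^ 2 + q * c) (N : ℕ) :
    ∃ t : ℕ, t.Prime ∧ N < t ∧ t % 8 = 3 ∧ (D : ℤ) ∣ t - c ∧ (x : ℤ) ∣ t - c ∧
      (∃ s : ℤ, (t : ℤ) ∣ s ^ 2 + D) ∧ (∃ s : ℤ, (t : ℤ) ∣ s ^ 2 + x) ∧
      (∃ s : ℤ, (q : ℤ) ∣ s ^ 2 + x) := by
  sorry

/-- CO1 (file `Co1.lean`) the first conic `B(f) = t Z²`. -/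
theorem conic_one {b11 b12 b22 f0 f1 : ℤ} {c t D : ℕ} (hD : b11 * b22 - b12 ^ 2 = D)
    (hc : b11 * f0 ^ 2 + 2 * b12 * f0 * f1 + b22 * f1 ^ 2 = c) (hD8 : D % 8 = 1)
    (hc8 : c % 8 = 3) (ht : t.Prime) (ht8 : t % 8 = 3) (hct : c < t) (hDt : D < t)
    (hcD : Nat.Coprime c D) (hDc : ∃ s : ℤ, (c : ℤ) ∣ s ^ 2 + D)
    (htc : (D : ℤ) ∣ t - c) (htD : ∃ s : ℤ, (t : ℤ) ∣ s ^ 2 + D) :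
    ∃ g0 g1 Z : ℤ, Z ≠ 0 ∧ b11 * g0 ^ 2 + 2 * b12 * g0 * g1 + b22 * g1 ^ 2 = t * Z ^ 2 := by
  sorry

/-- CO2 (file `Co2.lean`) the second conic: a vector of norm `q t` up to squares orthogonal
to `ω`. -/
theorem conic_two {e w1 w2 c1 c2 c3 : ℤ} {x γ q t c : ℕ} (hx : Squarefree x) (hx8 : x % 8 = 1)
    (hX : e ^ 2 + w1 ^ 2 + w2 ^ 2 = x) (horth : e * c1 + w1 * c2 + w2 * c3 = 0)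
    (hγ : c1 ^ 2 + c2 ^ 2 + c3 ^ 2 = γ) (hγ8 : γ % 8 = 1) (hγx : Nat.Coprime γ x)
    (h1 : ∃ s : ℤ, (γ : ℤ) ∣ s ^ 2 + x) (h2 : ∃ s : ℤ, (x : ℤ) ∣ s ^ 2 + γ)
    (hq : q.Prime) (hq8 : q % 8 = 3) (hqγ : γ < q) (hqx : x < q) (ht : t.Prime)
    (ht8 : t % 8 = 3) (htq : q < t) (hqs : ∃ s : ℤ, (q : ℤ) ∣ s ^ 2 + x)
    (hts : ∃ s : ℤ, (t : ℤ) ∣ s ^ 2 + x) (htc : (x : ℤ) ∣ t - c)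
    (hl : ∀ p : ℕ, p.Prime → p ∣ x → ∃ s : ℤ, (p : ℤ) ∣ s ^ 2 + q * c) :
    ∃ a1 a2 a3 Z : ℤ, Z ≠ 0 ∧ e * a1 + w1 * a2 + w2 * a3 = 0 ∧
      a1 ^ 2 + a2 ^ 2 + a3 ^ 2 = q * t * Z ^ 2 := by
  sorry

/-- ROT (file `Rot.lean`) rotation of `ω`. -/
theorem rotation {x e w1 w2 a1 a2 a3 P Q b1 b2 : ℚ} (hX : e ^ 2 + w1 ^ 2 + w2 ^ 2 = x)
    (horth : e * a1 + w1 * a2 + w2 * a3 = 0) (hb : b1 ^ 2 + b2 ^ 2 = 4 * P * Q)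
    (ha : a1 ^ 2 + a2 ^ 2 + a3 ^ 2 = (P + Q) * (P + 9 * Q)) :
    ∃ l t : ℚ, S2 (x - l ^ 2) ∧ 4 * P * Q * (x - l ^ 2) = l ^ 2 * (P + 3 * Q) ^ 2 + t ^ 2 := by
  sorry

/-- TWO (file `Two.lean`) the 2-adic analysis. -/
theorem two_adic {x z0 z1 z2 z3 f0 f1 q : ℤ} (hx : x % 8 = 1) (hq : q % 8 = 3)
    (h0 : z0 ^ 2 + z1 ^ 2 + z2 ^ 2 + z3 ^ 2 = q * (f0 ^ 2 + x * f1 ^ 2))
    (hz : z0 ^ 2 + z1 ^ 2 + z2 ^ 2 + z3 ^ 2 ≠ 0) {l t : ℚ}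
    (h : 4 * ((z0 : ℚ) ^ 2 + z1 ^ 2) * (z2 ^ 2 + z3 ^ 2) * x
      = l ^ 2 * ((z0 ^ 2 + z1 ^ 2) + (z2 ^ 2 + z3 ^ 2)) * ((z0 ^ 2 + z1 ^ 2)
        + 9 * (z2 ^ 2 + z3 ^ 2)) + t ^ 2) :
    z0 ^ 2 + z1 ^ 2 ≠ 0 ∧ z2 ^ 2 + z3 ^ 2 ≠ 0 ∧ ∃ L M : ℤ, L % 2 = 1 ∧ M % 2 = 1 ∧
      (l = 2 * L / M ∨ (l = L / M ∧ (16 : ℤ) ∣ x * M ^ 2 - L ^ 2)) := by
  sorry

/-- MEM (file `Mem.lean`) the memberships in `c • S3`. -/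
theorem mem_W {x : ℤ} (hx : x % 8 = 1) {l : ℚ} (h1 : S2 (x - l ^ 2)) (h2 : S2 (x - 4 * l ^ 2))
    {L M : ℤ} (hL : L % 2 = 1) (hM : M % 2 = 1)
    (h : l = 2 * L / M ∨ (l = L / M ∧ (16 : ℤ) ∣ x * M ^ 2 - L ^ 2)) :
    W1 x l ∨ W2 x l := by
  sorry

/-- PEX (file `Pex.lean`) from the formula to the matrix form. -/
theorem pe_form (h : ∀ x : ℚ, ¬ IsSquare x ↔ x ≠ 0 ∧ ((∃ a b c d : ℚ, -x = a ^ 2 + b ^ 2 + c ^ 2 + d ^ 2)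
      ∨ S3 (x / 7) ∨ (∃ l, W1 x l) ∨ ∃ l, W2 x l)) :
    ∀ A : Set ℚ, (A = {x : ℚ | x ≠ 0} ∨ A = {x : ℚ | ¬ IsSquare x}) →
      ∃ (k m e s : ℕ) (α : Fin k → Fin e → ℤ) (β : Fin k → Fin e → Fin m → ℤ)
        (γ : Fin k → Fin e → ℤ) (p : Fin k → Fin s → ℕ) (q : Fin k → Fin s → Fin m → ℕ)
        (r : Fin k → Fin s → ℕ),
        ∀ x : ℚ, x ∈ A ↔ ∃ i : Fin k, ∃ y : Fin m → ℚ,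
          (∀ j : Fin e, (α i j : ℚ) * x + (∑ l : Fin m, (β i j l : ℚ) * y l) + (γ i j : ℚ) = 0) ∧
          (∀ j : Fin s, IsSquare ((p i j : ℚ) * x + (∑ l : Fin m, (q i j l : ℚ) * y l)
            + (r i j : ℚ))) := by
  sorry

end Pool.Agent.H565R2.NS
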